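import Pool.Agent.DPC.Count

set_option autoImplicit false

namespace Pool.Agent.DPC

open Nat.Partrec (Code)
open Encodable Cardinal

/-- decoding of binary strings -/
def dcd (n : ℕ) : List Bool := (decode (α := List Bool) n).getD []

theorem dcd_encode (σ : List Bool) : dcd (encode σ) = σ := by simp [dcd]

theorem dcd_computable : Computable dcd :=
  (Primrec.option_getD.comp Primrec.decode (Primrec.const [])).to_comp

theorem cp_prefix {α : Type*} [Primcodable α] {f g : α → List Bool} (hf : Computable f)
    (hg : Computable g) : ComputablePred fun a => f a <+: g a := by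
  have h1 : Computable fun a => (g a).take (f a).length :=
    Primrec.list_take.to_comp.comp (Computable.list_length.comp hf) hg
  exact (cp_eq hf h1).of_eq fun a => List.prefix_iff_eq_take.symm

/-- one node of a perfect scheme -/
def Node (z : ℕ) (s : List Bool × List Bool × List Bool × List Bool) : Prop :=
  (s.1 ∉ bU z.unpair.1 ∧ s.1 <+: s.2.1) ∧ (s.2.1 ∈ bU z.unpair.2 ∧ s.2.1 <+: s.2.2.1) ∧
    (s.2.1 <+: s.2.2.2 ∧ ¬ s.2.2.1 <+: s.2.2.2) ∧ ¬ s.2.2.2 <+: s.2.2.1

theorem Node_cp : ComputablePred fun p : ℕ × (List Bool × List Bool × List Bool × List Bool) =>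
    Node p.1 p.2 := by
  have z1 : Computable fun p : ℕ × (List Bool × List Bool × List Bool × List Bool) =>
      (p.1.unpair.1, p.2.1) :=
    (Computable.fst.comp (Computable.unpair.comp Computable.fst)).pair
      (Computable.fst.comp Computable.snd)
  have z2 : Computable fun p : ℕ × (List Bool × List Bool × List Bool × List Bool) =>
      (p.1.unpair.2, p.2.2.1) :=
    (Computable.snd.comp (Computable.unpair.comp Computable.fst)).pair
      (Computable.fst.comp (Computable.snd.comp Computable.snd))
  have e1 : Computable fun p : ℕ × (List Bool × List Bool × List Bool × List Bool) => p.2.1 :=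
    Computable.fst.comp Computable.snd
  have e2 : Computable fun p : ℕ × (List Bool × List Bool × List Bool × List Bool) => p.2.2.1 :=
    Computable.fst.comp (Computable.snd.comp Computable.snd)
  have e3 : Computable fun p : ℕ × (List Bool × List Bool × List Bool × List Bool) => p.2.2.2.1 :=
    Computable.fst.comp (Computable.snd.comp (Computable.snd.comp Computable.snd))
  have e4 : Computable fun p : ℕ × (List Bool × List Bool × List Bool × List Bool) => p.2.2.2.2 :=
    Computable.snd.comp (Computable.snd.comp (Computable.snd.comp Computable.snd))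
  have f1 := cp_comp bU_cp z1
  have f2 := cp_comp bU_cp z2
  have f3 := cp_prefix e1 e2
  have f4 := cp_prefix e2 e3
  have f5 := cp_prefix e2 e4
  have f6 := cp_prefix e3 e4
  have f7 := cp_prefix e4 e3
  have f8 := cp_and (cp_and (cp_not f1) f3) (cp_and (cp_and f2 f4)
    (cp_and (cp_and f5 (cp_not f6)) (cp_not f7)))
  exact f8

/-- the four relevant entries of the list -/
def quad (L : List ℕ) : List Bool × List Bool × List Bool × List Bool :=
  (dcd (L.getD 0 0), dcd (L.getD ((L.length - 4) / 2 + 1) 0),
    dcd (L.getD (2 * ((L.length - 4) / 2) + 2) 0), dcd (L.getD (2 * ((L.length - 4) / 2) + 3) 0))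

theorem quad_computable : Computable quad := by
  have hg : Computable₂ fun (L : List ℕ) n => L.getD n 0 := (Primrec.list_getD 0).to_comp
  have hk : Computable fun L : List ℕ => (L.length - 4) / 2 :=
    Primrec.nat_div.to_comp.comp (Primrec.nat_sub.to_comp.comp Computable.list_length
      (Computable.const 4)) (Computable.const 2)
  have h2k : Computable fun L : List ℕ => 2 * ((L.length - 4) / 2) :=
    Primrec.nat_mul.to_comp.comp (Computable.const 2) hk
  have h3 : Computable fun L : List ℕ => 2 * ((L.length - 4) / 2) + 2 :=
    Primrec.nat_add.to_comp.comp h2k (Computable.const 2)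
  have h4 : Computable fun L : List ℕ => 2 * ((L.length - 4) / 2) + 3 :=
    Primrec.nat_add.to_comp.comp h2k (Computable.const 3)
  exact (dcd_computable.comp (hg.comp Computable.id (Computable.const 0))).pair
    ((dcd_computable.comp (hg.comp Computable.id (Computable.succ.comp hk))).pair
      ((dcd_computable.comp (hg.comp Computable.id h3)).pair
        (dcd_computable.comp (hg.comp Computable.id h4))))

theorem getD_map_range (f : ℕ → ℕ) {i n : ℕ} (h : i < n) :
    ((List.range n).map f).getD i 0 = f i := by
  rw [List.getD_eq_getElem _ _ (by simpa using h)]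
  simp

theorem nodes_cp {F : ℕ → List ℕ} (hF : Computable F) :
    ComputablePred fun m : ℕ => 4 ≤ (F m).length ∧ ¬ Node m.unpair.1 (quad (F m)) := by
  have e : Computable fun m : ℕ => (m.unpair.1, quad (F m)) :=
    (Computable.fst.comp Computable.unpair).pair (quad_computable.comp hF)
  have e' := cp_comp Node_cp e
  have e'' := cp_and (cp_le (Computable.const 4) (Computable.list_length.comp hF)) (cp_not e')
  exact e''

/-- having uncountably many elements is `Σ¹₁` -/
theorem sigma11_uncountable : Sigma11 (D fun X => ℵ₀ < #X) := by
  let B : Set ℕ := {m | 4 ≤ (Denumerable.ofNat (List ℕ) m.unpair.2).length ∧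
    ¬ Node m.unpair.1 (quad (Denumerable.ofNat (List ℕ) m.unpair.2))}
  have hL : Computable fun m : ℕ => Denumerable.ofNat (List ℕ) m.unpair.2 :=
    (Computable.ofNat (List ℕ)).comp (Computable.snd.comp Computable.unpair)
  have hB : ComputablePred (· ∈ B) := nodes_cp hL
  refine ⟨B, hB, fun z => ?_⟩
  have hmem : ∀ f : ℕ → ℕ, ∀ n, Nat.pair z (encode ((List.range n).map f)) ∈ B ↔
      4 ≤ n ∧ ¬ Node z (dcd (f 0), dcd (f ((n - 4) / 2 + 1)), dcd (f (2 * ((n - 4) / 2) + 2)),
        dcd (f (2 * ((n - 4) / 2) + 3))) := by
    intro f n
    simp only [B, Set.mem_ofPred_eq, Nat.unpair_pair, Denumerable.ofNat_encode, List.length_map,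
      List.length_range]
    constructor
    · rintro ⟨h1, h2⟩
      refine ⟨h1, ?_⟩
      unfold quad at h2
      simp only [List.length_map, List.length_range] at h2
      rwa [getD_map_range f (by omega), getD_map_range f (by omega), getD_map_range f (by omega),
        getD_map_range f (by omega)] at h2
    · rintro ⟨h1, h2⟩
      refine ⟨h1, ?_⟩
      unfold quad
      simp only [List.length_map, List.length_range]
      rwa [getD_map_range f (by omega), getD_map_range f (by omega), getD_map_range f (by omega),
        getD_map_range f (by omega)]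
  show ¬ (ℵ₀ < #(df z)) ↔ _
  rw [uncountable_iff, not_iff_comm]
  push Not
  constructor
  · rintro ⟨f, hf⟩
    have key : ∀ k, Node z (dcd (f 0), dcd (f (k + 1)), dcd (f (2 * k + 2)), dcd (f (2 * k + 3))) := by
      intro k
      have h1 := hf (2 * k + 4)
      rw [hmem] at h1
      have e : (2 * k + 4 - 4) / 2 = k := by omega
      rw [e] at h1
      by_contra hcon
      exact h1 ⟨by omega, hcon⟩
    refine ⟨dcd (f 0), fun k => dcd (f (k + 1)), ⟨fun k => (key k).1.2, fun k => (key k).2.1.1,
      fun k => (key k).2.1.2, fun k => (key k).2.2.1.1, fun k => (key k).2.2.1.2,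
      fun k => (key k).2.2.2⟩, (key 0).1.1⟩
  · rintro ⟨σ, h, H, hσ⟩
    let f : ℕ → ℕ := fun n => Nat.casesOn n (encode σ) fun k => encode (h k)
    refine ⟨f, fun n => ?_⟩
    rw [hmem]
    rintro ⟨-, h2⟩
    apply h2
    have e0 : dcd (f 0) = σ := dcd_encode σ
    have e1 : ∀ k, dcd (f (k + 1)) = h k := fun k => dcd_encode _
    rw [e0, e1, e1, e1]
    exact ⟨⟨hσ, H.ext0 _⟩, ⟨H.mem _, H.left _⟩, ⟨H.right _, H.inc1 _⟩, H.inc2 _⟩

/-! ### Hardness -/

/-- reading a bit: `(completed blocks, zeros read so far, just after a completed block)` -/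
def stp (s : List ℕ × ℕ × Bool) (b : Bool) : List ℕ × ℕ × Bool :=
  cond s.2.2 (s.1, 0, false) (cond b (s.1 ++ [s.2.1], 0, true) (s.1, s.2.1 + 1, false))

/-- the state after reading a string -/
def rd (σ : List Bool) : List ℕ × ℕ × Bool := σ.foldl stp ([], 0, false)

theorem rd_append_singleton (σ : List Bool) (b : Bool) : rd (σ ++ [b]) = stp (rd σ) b := by
  simp [rd]

theorem rd_append (σ τ : List Bool) : rd (σ ++ τ) = τ.foldl stp (rd σ) := by
  simp [rd]

theorem stp_prefix (s : List ℕ × ℕ × Bool) (b : Bool) : s.1 <+: (stp s b).1 := by
  unfold stp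
  cases s.2.2
  · cases b
    · exact List.prefix_refl _
    · exact List.prefix_append _ _
  · exact List.prefix_refl _

theorem foldl_prefix (τ : List Bool) : ∀ s : List ℕ × ℕ × Bool, s.1 <+: (τ.foldl stp s).1 := by
  induction τ with
  | nil => intro s; exact List.prefix_refl _
  | cons b τ ih => intro s; exact (stp_prefix s b).trans (ih _)

theorem rd_mono {σ τ : List Bool} (h : σ <+: τ) : (rd σ).1 <+: (rd τ).1 := by
  obtain ⟨ρ, rfl⟩ := h
  rw [rd_append]
  exact foldl_prefix _ _

theorem foldl_zeros (n : ℕ) : ∀ (L : List ℕ) (c : ℕ),
    (List.replicate n false).foldl stp (L, c, false) = (L, c + n, false) := by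
  induction n with
  | zero => intro L c; rfl
  | succ n ih =>
    intro L c
    rw [List.replicate_succ, List.foldl_cons]
    show (List.replicate n false).foldl stp (L, c + 1, false) = _
    rw [ih]
    congr 2
    omega

theorem stp_computable : Computable₂ stp := by
  unfold Computable₂ stp
  have h22 : Computable fun p : (List ℕ × ℕ × Bool) × Bool => p.1.2.2 :=
    Computable.snd.comp (Computable.snd.comp Computable.fst)
  have h1 : Computable fun p : (List ℕ × ℕ × Bool) × Bool => p.1.1 :=
    Computable.fst.comp Computable.fst
  have h21 : Computable fun p : (List ℕ × ℕ × Bool) × Bool => p.1.2.1 :=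
    Computable.fst.comp (Computable.snd.comp Computable.fst)
  refine Computable.cond h22 (h1.pair (Computable.const (0, false))) ?_
  refine Computable.cond Computable.snd ?_ ?_
  · exact (Computable.list_append.comp h1 (Computable.list_cons.comp h21 (Computable.const []))).pair
      (Computable.const (0, true))
  · exact h1.pair ((Computable.succ.comp h21).pair (Computable.const false))

theorem stp_primrec : Primrec₂ stp := by
  unfold Primrec₂ stp
  have h22 : Primrec fun p : (List ℕ × ℕ × Bool) × Bool => p.1.2.2 :=
    Primrec.snd.comp (Primrec.snd.comp Primrec.fst)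
  have h1 : Primrec fun p : (List ℕ × ℕ × Bool) × Bool => p.1.1 :=
    Primrec.fst.comp Primrec.fst
  have h21 : Primrec fun p : (List ℕ × ℕ × Bool) × Bool => p.1.2.1 :=
    Primrec.fst.comp (Primrec.snd.comp Primrec.fst)
  refine Primrec.cond h22 (h1.pair (Primrec.const (0, false))) ?_
  refine Primrec.cond Primrec.snd ?_ ?_
  · exact (Primrec.list_append.comp h1 (Primrec.list_cons.comp h21 (Primrec.const []))).pair
      (Primrec.const (0, true))
  · exact h1.pair ((Primrec.succ.comp h21).pair (Primrec.const false))

theorem rd_primrec : Primrec rd := by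
  unfold rd
  have h : Primrec₂ fun (_ : List Bool) (p : (List ℕ × ℕ × Bool) × Bool) => stp p.1 p.2 :=
    stp_primrec.comp (Primrec.fst.comp Primrec.snd) (Primrec.snd.comp Primrec.snd)
  exact Primrec.list_foldl Primrec.id
    (Primrec.const ((([] : List ℕ), (0 : ℕ), false) : List ℕ × ℕ × Bool)) h

/-- the set of eventually zero points is countable -/
theorem countable_ev_zero : {x : ℕ → Bool | ∃ m, ∀ i, m ≤ i → x i = false}.Countable := by
  have h : {x : ℕ → Bool | ∃ m, ∀ i, m ≤ i → x i = false} ⊆ Set.range ext := by
    rintro x ⟨m, hm⟩
    refine ⟨pre x m, ?_⟩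
    funext i
    unfold ext
    by_cases hi : i < m
    · rw [List.getD_eq_getElem _ _ (by rw [length_pre]; exact hi), getElem_pre x hi]
    · rw [List.getD_eq_default _ _ (by rw [length_pre]; exact not_lt.1 hi), hm i (not_lt.1 hi)]
  exact (Set.countable_range ext).mono h

theorem pre_ext_add (σ : List Bool) (n : ℕ) :
    pre (ext σ) (σ.length + n) = σ ++ List.replicate n false := by
  refine List.ext_getElem (by rw [length_pre]; simp) fun i h1 h2 => ?_
  rw [length_pre] at h1
  rw [getElem_pre _ h1]
  unfold ext
  by_cases hi : i < σ.length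
  · rw [List.getD_eq_getElem _ _ hi, List.getElem_append_left hi]
  · rw [List.getD_eq_default _ _ (not_lt.1 hi), List.getElem_append_right (not_lt.1 hi)]
    simp

/-- If only finitely many blocks are completed then the point is eventually zero. -/
theorem ev_zero_of_bounded {x : ℕ → Bool} {N : ℕ} (h : ∀ m, (rd (pre x m)).1.length ≤ N) :
    ∃ m, ∀ i, m ≤ i → x i = false := by
  -- the number of blocks is eventually constant
  have hmono : ∀ {m n}, m ≤ n → (rd (pre x m)).1.length ≤ (rd (pre x n)).1.length := by
    intro m n hmn
    refine (rd_mono ?_).length_le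
    rw [← take_pre x hmn]
    exact List.take_prefix _ _
  obtain ⟨m0, hm0⟩ : ∃ m0, ∀ m, m0 ≤ m → (rd (pre x m)).1.length = (rd (pre x m0)).1.length := by
    by_contra hcon
    push Not at hcon
    have key : ∀ k, ∃ m, k ≤ (rd (pre x m)).1.length := by
      intro k
      induction k with
      | zero => exact ⟨0, Nat.zero_le _⟩
      | succ k ih =>
        obtain ⟨m, hm⟩ := ih
        obtain ⟨m', hm', hne⟩ := hcon m
        refine ⟨m', ?_⟩
        have := hmono hm'
        omega
    obtain ⟨m, hm⟩ := key (N + 1)
    have := h m
    omega
  have hstep : ∀ m, rd (pre x (m + 1)) = stp (rd (pre x m)) (x m) := by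
    intro m
    rw [pre_succ, rd_append_singleton]
  -- after `m0`: if the flag is false then the bit is zero and the flag stays false
  have h1 : ∀ m, m0 ≤ m → (rd (pre x m)).2.2 = false →
      x m = false ∧ (rd (pre x (m + 1))).2.2 = false := by
    intro m hm hf
    have h2 := hm0 m hm
    have h3 := hm0 (m + 1) (by omega)
    rw [hstep] at h3 ⊢
    unfold stp at h3 ⊢
    rw [hf] at h3 ⊢
    cases hx : x m
    · exact ⟨rfl, rfl⟩
    · rw [hx] at h3
      simp at h3
      omega
  have h4 : ∃ m, m0 ≤ m ∧ (rd (pre x m)).2.2 = false := by
    cases hf : (rd (pre x m0)).2.2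
    · exact ⟨m0, le_rfl, hf⟩
    · refine ⟨m0 + 1, by omega, ?_⟩
      rw [hstep]
      unfold stp
      rw [hf]
      rfl
  obtain ⟨m, hm, hf⟩ := h4
  refine ⟨m, fun i hi => ?_⟩
  have h5 : ∀ i, m ≤ i → (rd (pre x i)).2.2 = false := by
    intro i hi
    induction hi with
    | refl => exact hf
    | step hi ih => exact (h1 _ (hm.trans hi) ih).2
  exact (h1 i (hm.trans hi) (h5 i hi)).1

theorem exists_pi11 {A : Set ℕ} (hA : Pi11 A) : ∃ g : ℕ → ℕ, Computable g ∧
    ∀ x, (x ∈ A → #(df (g x)) = ℵ₀) ∧ (x ∉ A → #(df (g x)) = 𝔠) := by
  obtain ⟨B, hB, hAB⟩ := hA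
  let W : ℕ × List Bool → Prop := fun p => 2 ≤ (rd p.2).1.length ∧
    (Nat.pair p.1 (encode (rd p.2).1.tail) ∈ B ∨ Nat.pair p.1 (encode ([] : List ℕ)) ∈ B)
  have hrd : Computable fun p : ℕ × List Bool => (rd p.2).1 :=
    Computable.fst.comp (rd_primrec.to_comp.comp Computable.snd)
  have hW : REPred W := by
    refine re_cp (cp_and (cp_le (Computable.const 2) (Computable.list_length.comp hrd))
      (cp_or (cp_comp hB ?_) (cp_comp hB ?_)))
    · exact pair_computable.comp Computable.fst
        (Computable.encode.comp (Primrec.list_tail.to_comp.comp hrd))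
    · exact pair_computable.comp Computable.fst (Computable.const _)
  obtain ⟨g, hg, hgQ⟩ := exists_class hW
  obtain ⟨g0, -, hg0Q⟩ := exists_class (W := fun _ => True) (re_cp (cp_const True))
  have hempty : Q (g0 0) = ∅ := by
    ext x
    rw [hg0Q]
    simp
  have hdf : ∀ n, df (Nat.pair (g0 0) (g n)) = Q (g n) := by
    intro n
    unfold df
    rw [Nat.unpair_pair]
    simp only
    rw [hempty, Set.sdiff_empty]
  refine ⟨fun n => Nat.pair (g0 0) (g n), pair_computable.comp (Computable.const _) hg,
    fun n => ⟨fun hn => ?_, fun hn => ?_⟩⟩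
  · -- countable
    rw [hAB] at hn
    rw [hdf]
    refine le_antisymm ?_ ?_
    · rw [Cardinal.le_aleph0_iff_set_countable]
      refine countable_ev_zero.mono ?_
      intro x hx
      rw [hgQ] at hx
      by_contra hcon
      have hunb : ∀ N, ∃ m, N < (rd (pre x m)).1.length := by
        intro N
        by_contra h1
        push Not at h1
        exact hcon (ev_zero_of_bounded h1)
      have hmono : ∀ {m n}, m ≤ n → (rd (pre x m)).1 <+: (rd (pre x n)).1 := by
        intro m n hmn
        refine rd_mono ?_
        rw [← take_pre x hmn]
        exact List.take_prefix _ _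
      -- the sequence of blocks
      choose M hM using hunb
      let f' : ℕ → ℕ := fun i => (rd (pre x (M i))).1.getD i 0
      have hf' : ∀ m, (rd (pre x m)).1 = (List.range (rd (pre x m)).1.length).map f' := by
        intro m
        refine List.ext_getElem (by simp) fun i h1 h2 => ?_
        simp only [List.getElem_map, List.getElem_range, f']
        rw [List.getD_eq_getElem _ _ (hM i)]
        rcases le_total m (M i) with h3 | h3
        · exact (hmono h3).getElem h1
        · exact ((hmono h3).getElem (hM i)).symm
      -- every length is attained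
      have hlen : ∀ N, ∃ m, (rd (pre x m)).1.length = N := by
        intro N
        classical
        have hex : ∃ m, N ≤ (rd (pre x m)).1.length := ⟨M N, (hM N).le⟩
        refine ⟨Nat.find hex, le_antisymm ?_ (Nat.find_spec hex)⟩
        rcases Nat.eq_zero_or_pos (Nat.find hex) with h0 | h0
        · rw [h0]
          show ([] : List ℕ).length ≤ N
          exact Nat.zero_le _
        · have h3 := Nat.find_min hex (show Nat.find hex - 1 < Nat.find hex by omega)
          have h4 : Nat.find hex = (Nat.find hex - 1) + 1 := by omega
          rw [h4, pre_succ, rd_append_singleton]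
          have h5 : ∀ s b, (stp s b).1.length ≤ s.1.length + 1 := by
            intro s b
            unfold stp
            cases s.2.2 <;> cases b <;> simp
          have := h5 (rd (pre x (Nat.find hex - 1))) (x (Nat.find hex - 1))
          omega
      obtain ⟨n', hn'⟩ := hn (fun i => f' (i + 1))
      rcases Nat.eq_zero_or_pos n' with h0 | h0
      · rw [h0] at hn'
        obtain ⟨m, hm⟩ := hlen 2
        exact hx m ⟨hm.ge, Or.inr hn'⟩
      · obtain ⟨m, hm⟩ := hlen (n' + 1)
        refine hx m ⟨by rw [hm]; omega, Or.inl ?_⟩
        have e : (rd (pre x m)).1.tail = (List.range n').map (fun i => f' (i + 1)) := by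
          rw [hf' m, hm, List.range_succ_eq_map, List.map_cons, List.tail_cons, List.map_map]
          rfl
        simp only
        rw [e]; exact hn'
    · -- infinitely many points
      rw [Cardinal.aleph0_le_mk_iff]
      rw [Set.infinite_coe_iff]
      refine Set.infinite_of_injective_forall_mem (f := fun k => pt k) pt_injective fun k => ?_
      rw [hgQ]
      rintro m ⟨h1, -⟩
      have key : ∀ m, rd (pre (pt k) m) = if m ≤ k then ([], m, false) else
          if m = k + 1 then ([k], 0, true) else ([k], m - (k + 2), false) := by
        intro m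
        induction m with
        | zero => simp [pre, rd]
        | succ m ih =>
          rw [pre_succ, rd_append_singleton, ih]
          rcases lt_trichotomy m k with h2 | h2 | h2
          · have e2 : m + 1 ≤ k := h2
            simp only [if_pos h2.le, if_pos e2]
            simp [pt, stp, h2.ne]
          · subst h2
            have e2 : ¬ m + 1 ≤ m := by omega
            simp only [if_pos (le_refl m), if_neg e2]
            simp [pt, stp]
          · have e1 : ¬ m ≤ k := by omega
            have e2 : ¬ m + 1 ≤ k := by omega
            have e3 : ¬ m + 1 = k + 1 := by omega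
            simp only [if_neg e1, if_neg e2, if_neg e3]
            by_cases h4 : m = k + 1
            · subst h4
              simp [stp]
            · simp only [if_neg h4]
              have h5 : pt k m = false := by simp [pt]; omega
              rw [h5]
              simp only [stp, cond_false]
              congr 2
              omega
      rw [key] at h1
      split_ifs at h1 <;> simp at h1
  · -- a perfect set of points
    rw [hAB] at hn
    push Not at hn
    obtain ⟨f, hf⟩ := hn
    let f' : ℕ → ℕ := fun i => Nat.casesOn i 0 f
    have hf'0 : f' 0 = 0 := rfl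
    have hf's : ∀ i, f' (i + 1) = f i := fun i => rfl
    let good : List Bool → Prop := fun ρ => ∃ n, rd ρ = ((List.range n).map f', 0, false)
    have hgood : ∀ ρ, good ρ → ρ ∈ bU (Nat.pair (g0 0) (g n)).unpair.2 := by
      rintro ρ ⟨N, hN⟩
      rw [Nat.unpair_pair]
      have hx : ext ρ ∈ Q (g n) := by
        rw [hgQ]
        intro m
        have hpre : ∃ i, (rd (pre (ext ρ) m)).1 = (List.range i).map f' := by
          have h1 : (rd (pre (ext ρ) m)).1 <+: (List.range N).map f' := by
            rcases le_total m ρ.length with h | h
            · rw [pre_ext h]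
              have := rd_mono (List.take_prefix m ρ)
              rw [hN] at this
              exact this
            · have e : m = ρ.length + (m - ρ.length) := by omega
              rw [e, pre_ext_add, rd_append, hN, foldl_zeros]
          refine ⟨(rd (pre (ext ρ) m)).1.length, ?_⟩
          have h2 := List.prefix_iff_eq_take.1 h1
          have h3 : (rd (pre (ext ρ) m)).1.length ≤ N := by
            have := h1.length_le
            simpa using this
          rw [← List.map_take, List.take_range, min_eq_left h3] at h2
          exact h2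
        obtain ⟨i, hi⟩ := hpre
        rintro ⟨h1, h2⟩
        simp only at h1 h2
        rw [hi] at h1 h2
        have h3 : 2 ≤ i := by simpa using h1
        obtain ⟨j, rfl⟩ : ∃ j, i = j + 1 := ⟨i - 1, by omega⟩
        rcases h2 with h2 | h2
        · apply hf j
          have e : ((List.range (j + 1)).map f').tail = (List.range j).map f := by
            rw [List.range_succ_eq_map, List.map_cons, List.tail_cons, List.map_map]
            rfl
          rw [e] at h2
          exact h2
        · exact hf 0 h2
      have := mem_Q.1 hx ρ.length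
      rwa [pre_ext_self] at this
    let sp : Bool → List Bool → List Bool := fun b ρ =>
      ρ ++ (List.replicate (f' (rd ρ).1.length) false ++ [true, b])
    let h : ℕ → List Bool := tree [] sp
    have hl : ∀ k, h (2 * k + 1) = sp false (h k) := fun k => tree_left _ _ k
    have hr : ∀ k, h (2 * k + 2) = sp true (h k) := fun k => tree_right _ _ k
    have hsp : ∀ b ρ, good ρ → good (sp b ρ) := by
      rintro b ρ ⟨N, hN⟩
      refine ⟨N + 1, ?_⟩
      show rd (ρ ++ _) = _
      have hlen : (rd ρ).1.length = N := by rw [hN]; simp
      rw [rd_append, hlen, hN, List.foldl_append, foldl_zeros]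
      simp [stp, List.range_succ]
    have hgk : ∀ k, good (h k) := fun k => tree_induction (p := good) ⟨0, rfl⟩ hsp k
    have hne : ∀ (ρ : List Bool) (L : List Bool), ¬ (ρ ++ (L ++ [true, false])) <+: (ρ ++ (L ++ [true, true])) ∧
        ¬ (ρ ++ (L ++ [true, true])) <+: (ρ ++ (L ++ [true, false])) := by
      intro ρ L
      constructor
      · intro hcon
        have := hcon.eq_of_length (by simp)
        simp at this
      · intro hcon
        have := hcon.eq_of_length (by simp)
        simp at this
    have H : Scheme (Nat.pair (g0 0) (g n)).unpair.2 [] h := by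
      refine ⟨fun k => List.nil_prefix, fun k => hgood _ (hgk k), fun k => ?_, fun k => ?_,
        fun k => ?_, fun k => ?_⟩
      · rw [hl]; exact List.prefix_append _ _
      · rw [hr]; exact List.prefix_append _ _
      · rw [hl, hr]; exact (hne _ _).1
      · rw [hl, hr]; exact (hne _ _).2
    refine H.card' fun x _ => ?_
    rw [Nat.unpair_pair]
    show x ∉ Q (g0 0)
    rw [hempty]
    exact Set.notMem_empty _

end Pool.Agent.DPC
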