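import Pool.Agent.DPC.Anal

set_option autoImplicit false

namespace Pool.Agent.DPC

open Nat.Partrec (Code)
open Encodable Cardinal

theorem list_of (L : List ℕ) : Denumerable.ofNat (List ℕ) (encode L) = L :=
  Denumerable.ofNat_encode L

/-- a flexible normal form of `Σ¹₁` sets -/
theorem sigma11_of {A : Set ℕ} {C : (ℕ × ℕ) × List ℕ → Prop} (hC : ComputablePred C) {h : ℕ → ℕ}
    (hh : Computable h)
    (H : ∀ z, z ∈ A ↔ ∃ f : ℕ → ℕ, ∀ k, C ((z, k), (List.range (h k)).map f)) : Sigma11 A := by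
  let F : ℕ → List ℕ := fun m => Denumerable.ofNat (List ℕ) m.unpair.2
  have hF : Computable F := (Computable.ofNat (List ℕ)).comp (Computable.snd.comp Computable.unpair)
  let B : Set ℕ := {m | ∃ k < (F m).length + 1, h k ≤ (F m).length ∧
    ¬ C ((m.unpair.1, k), (F m).take (h k))}
  have hB : ComputablePred (· ∈ B) := by
    have e1 : Computable fun q : ℕ × ℕ => h q.2 := hh.comp Computable.snd
    have e2 : Computable fun q : ℕ × ℕ => (F q.1).length :=
      Computable.list_length.comp (hF.comp Computable.fst)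
    have e3 : Computable fun q : ℕ × ℕ => ((q.1.unpair.1, q.2), (F q.1).take (h q.2)) :=
      ((Computable.fst.comp (Computable.unpair.comp Computable.fst)).pair Computable.snd).pair
        (Primrec.list_take.to_comp.comp e1 (hF.comp Computable.fst))
    have e4 := cp_comp hC e3
    have e5 := cp_and (cp_le e1 e2) (cp_not e4)
    have e6 : Computable fun m : ℕ => (F m).length + 1 :=
      Computable.succ.comp (Computable.list_length.comp hF)
    have e7 := cp_exists_lt e5 e6
    exact e7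
  refine ⟨B, hB, fun z => ?_⟩
  have hmem : ∀ f : ℕ → ℕ, ∀ n, Nat.pair z (encode ((List.range n).map f)) ∈ B ↔
      ∃ k < n + 1, h k ≤ n ∧ ¬ C ((z, k), (List.range (h k)).map f) := by
    intro f n
    simp only [B, F, Set.mem_ofPred_eq, Nat.unpair_pair, list_of, List.length_map,
      List.length_range, ← List.map_take, List.take_range]
    constructor
    · rintro ⟨k, h1, h2, h3⟩
      rw [min_eq_left h2] at h3
      exact ⟨k, h1, h2, h3⟩
    · rintro ⟨k, h1, h2, h3⟩
      refine ⟨k, h1, h2, ?_⟩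
      rwa [min_eq_left h2]
  show ¬ (z ∈ A) ↔ _
  rw [H]
  push Not
  refine forall_congr' fun f => ?_
  constructor
  · rintro ⟨k, hk⟩
    refine ⟨max k (h k), (hmem f _).2 ⟨k, Nat.lt_succ_of_le (le_max_left _ _), le_max_right _ _, hk⟩⟩
  · rintro ⟨n, hn⟩
    obtain ⟨k, -, -, hk⟩ := (hmem f n).1 hn
    exact ⟨k, hk⟩

theorem sigma11_iff {A : Set ℕ} (hA : Sigma11 A) : ∃ B : Set ℕ, ComputablePred (· ∈ B) ∧
    ∀ x, x ∈ A ↔ ∃ f : ℕ → ℕ, ∀ n, Nat.pair x (encode ((List.range n).map f)) ∉ B := by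
  obtain ⟨B, hB, h⟩ := hA
  refine ⟨B, hB, fun x => ?_⟩
  have := h x
  rw [Set.mem_compl_iff, not_iff_comm] at this
  push Not at this
  exact this.symm

theorem sigma11_union {A1 A2 : Set ℕ} (h1 : Sigma11 A1) (h2 : Sigma11 A2) :
    Sigma11 (A1 ∪ A2) := by
  obtain ⟨B1, hB1, H1⟩ := sigma11_iff h1
  obtain ⟨B2, hB2, H2⟩ := sigma11_iff h2
  let C : (ℕ × ℕ) × List ℕ → Prop := fun p =>
    (p.2.getD 0 0 = 0 → Nat.pair p.1.1 (encode p.2.tail) ∉ B1) ∧
      (¬ p.2.getD 0 0 = 0 → Nat.pair p.1.1 (encode p.2.tail) ∉ B2)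
  have hC : ComputablePred C := by
    have e1 : Computable fun p : (ℕ × ℕ) × List ℕ => Nat.pair p.1.1 (encode p.2.tail) :=
      pair_computable.comp (Computable.fst.comp Computable.fst)
        (Computable.encode.comp (Primrec.list_tail.to_comp.comp Computable.snd))
    have e2 : Computable fun p : (ℕ × ℕ) × List ℕ => p.2.getD 0 0 :=
      (Primrec.list_getD 0).to_comp.comp Computable.snd (Computable.const 0)
    have e3 := cp_eq e2 (Computable.const 0)
    have e4 := cp_comp hB1 e1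
    have e5 := cp_comp hB2 e1
    have e6 := cp_and (cp_imp e3 (cp_not e4)) (cp_imp (cp_not e3) (cp_not e5))
    exact e6
  refine sigma11_of hC (h := fun k => k + 1) Computable.succ fun z => ?_
  have htail : ∀ (f : ℕ → ℕ) k, ((List.range (k + 1)).map f).tail =
      (List.range k).map fun i => f (i + 1) := by
    intro f k
    rw [List.range_succ_eq_map, List.map_cons, List.tail_cons, List.map_map]
    rfl
  have hhead : ∀ (f : ℕ → ℕ) k, ((List.range (k + 1)).map f).getD 0 0 = f 0 := fun f k =>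
    getD_map_range f (Nat.succ_pos k)
  simp only [C, htail, hhead]
  constructor
  · rintro (hz | hz)
    · obtain ⟨f, hf⟩ := (H1 z).1 hz
      refine ⟨fun i => Nat.casesOn i 0 f, fun k => ⟨fun _ => hf k, fun h => absurd rfl h⟩⟩
    · obtain ⟨f, hf⟩ := (H2 z).1 hz
      refine ⟨fun i => Nat.casesOn i 1 f, fun k => ⟨fun h => absurd h (by norm_num), fun _ => hf k⟩⟩
  · rintro ⟨f, hf⟩
    by_cases h0 : f 0 = 0
    · exact Or.inl ((H1 z).2 ⟨_, fun k => (hf k).1 h0⟩)
    · exact Or.inr ((H2 z).2 ⟨_, fun k => (hf k).2 h0⟩)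

theorem sigma11_of_sigma3 {A : Set ℕ} (hA : SigmaN 3 A) : Sigma11 A := by
  obtain ⟨B, hB, h⟩ := sigma3_iff.1 hA
  obtain ⟨q, hq, h'⟩ := sigma2_iff.1 hB
  obtain ⟨R, hR, h''⟩ := re_iff.1 hq
  let C : (ℕ × ℕ) × List ℕ → Prop := fun p =>
    R ((Nat.pair p.1.1 (p.2.getD 0 0), p.1.2), p.2.getD (p.1.2 + 1) 0)
  have hC : ComputablePred C := by
    have e2 : Computable fun p : (ℕ × ℕ) × List ℕ => p.2.getD 0 0 :=
      (Primrec.list_getD 0).to_comp.comp Computable.snd (Computable.const 0)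
    have e3 : Computable fun p : (ℕ × ℕ) × List ℕ => p.2.getD (p.1.2 + 1) 0 :=
      (Primrec.list_getD 0).to_comp.comp Computable.snd
        (Computable.succ.comp (Computable.snd.comp Computable.fst))
    have e4 : Computable fun p : (ℕ × ℕ) × List ℕ =>
        ((Nat.pair p.1.1 (p.2.getD 0 0), p.1.2), p.2.getD (p.1.2 + 1) 0) :=
      ((pair_computable.comp (Computable.fst.comp Computable.fst) e2).pair
        (Computable.snd.comp Computable.fst)).pair e3
    have e5 := cp_comp hR e4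
    exact e5
  refine sigma11_of hC (h := fun k => k + 2) (Computable.succ.comp Computable.succ) fun z => ?_
  have h0 : ∀ (f : ℕ → ℕ) k, ((List.range (k + 2)).map f).getD 0 0 = f 0 := fun f k =>
    getD_map_range f (by omega)
  have h1 : ∀ (f : ℕ → ℕ) k, ((List.range (k + 2)).map f).getD (k + 1) 0 = f (k + 1) := fun f k =>
    getD_map_range f (by omega)
  simp only [C, h0, h1]
  rw [h]
  have h2 : ∀ y, Nat.pair z y ∉ B ↔ ∀ w, ∃ t, R ((Nat.pair z y, w), t) := by
    intro y
    rw [h']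
    push Not
    exact forall_congr' fun w => h'' _
  simp only [h2]
  constructor
  · rintro ⟨y, hy⟩
    choose t ht using hy
    exact ⟨fun i => Nat.casesOn i y t, fun k => ht k⟩
  · rintro ⟨f, hf⟩
    exact ⟨f 0, fun w => ⟨f (w + 1), hf w⟩⟩

theorem card_cases (z : ℕ) : #(df z) ≤ ℵ₀ ∨ #(df z) = 𝔠 := by
  rcases le_or_gt (#(df z)) ℵ₀ with h | h
  · exact Or.inl h
  · exact Or.inr (card_eq_continuum h)

/-- hardness for `Π¹₁` from the behaviour on `ℵ₀` and `𝔠` -/
theorem hard_pi11 {R : Set (ℕ → Bool) → Prop} {T : Cardinal.{0} → Prop} (hRT : ∀ X, R X ↔ T #X)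
    (h1 : T ℵ₀) (h2 : ¬ T 𝔠) : Hard Pi11 (D R) := by
  intro A hA
  obtain ⟨g, hg, hgA⟩ := exists_pi11 hA
  refine ⟨g, hg, fun x => ?_⟩
  show x ∈ A ↔ R (df (g x))
  rw [hRT]
  by_cases hx : x ∈ A
  · rw [(hgA x).1 hx]; exact ⟨fun _ => h1, fun _ => hx⟩
  · rw [(hgA x).2 hx]; exact ⟨fun h => absurd h hx, fun h => absurd h h2⟩

theorem complete_countable : Complete Pi11 (D fun X => #X ≤ ℵ₀) := by
  refine ⟨?_, hard_pi11 (T := fun c => c ≤ ℵ₀) (fun _ => Iff.rfl) le_rfl
    (not_le.2 Cardinal.aleph0_lt_continuum)⟩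
  have h := sigma11_uncountable
  unfold Sigma11 at h
  rw [D_compl] at h
  have e : (D fun X => #X ≤ ℵ₀) = D fun X => ¬ ℵ₀ < #X := D_congr fun X => not_lt.symm
  rw [e]; exact h

theorem complete_uncountable : Complete Sigma11 (D fun X => ℵ₀ < #X) := by
  refine ⟨sigma11_uncountable, ?_⟩
  intro A hA
  have h1 := hard_compl complete_countable.2
  have e : (D fun X => ℵ₀ < #X) = (D fun X => #X ≤ ℵ₀)ᶜ := by
    rw [D_compl]
    exact D_congr fun X => not_le.symm
  rw [e]
  exact h1 A hA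

theorem complete_aleph0 : Complete Pi11 (D fun X => #X = ℵ₀) := by
  refine ⟨?_, hard_pi11 (T := fun c => c = ℵ₀) (fun _ => Iff.rfl) rfl
    (ne_of_gt Cardinal.aleph0_lt_continuum)⟩
  have h := sigma11_union (sigma11_of_sigma3 complete_finite.1) sigma11_uncountable
  have e : (D fun X => #X = ℵ₀) = ((D fun X => #X < ℵ₀) ∪ (D fun X => ℵ₀ < #X))ᶜ := by
    ext z
    show #(df z) = ℵ₀ ↔ ¬ (#(df z) < ℵ₀ ∨ ℵ₀ < #(df z))
    rw [not_or, not_lt, not_lt]
    constructor
    · intro h; rw [h]; exact ⟨le_rfl, le_rfl⟩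
    · rintro ⟨h1, h2⟩; exact le_antisymm h2 h1
  rw [e]; exact h

theorem complete_le_kappa {κ : Cardinal.{0}} (h1 : ℵ₀ ≤ κ) (h2 : κ < 𝔠) :
    Complete Pi11 (D fun X => #X ≤ κ) := by
  have e : (D fun X => #X ≤ κ) = D fun X => #X ≤ ℵ₀ := by
    ext z
    show #(df z) ≤ κ ↔ #(df z) ≤ ℵ₀
    constructor
    · intro h
      rcases card_cases z with h3 | h3
      · exact h3
      · rw [h3] at h; exact absurd h (not_le.2 h2)
    · intro h; exact h.trans h1
  rw [e]; exact complete_countable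

theorem complete_gt_kappa {κ : Cardinal.{0}} (h1 : ℵ₀ ≤ κ) (h2 : κ < 𝔠) :
    Complete Sigma11 (D fun X => κ < #X) := by
  have e : (D fun X => κ < #X) = D fun X => ℵ₀ < #X := by
    ext z
    show κ < #(df z) ↔ ℵ₀ < #(df z)
    constructor
    · intro h; exact lt_of_le_of_lt h1 h
    · intro h
      rw [card_eq_continuum h]; exact h2
  rw [e]; exact complete_uncountable

theorem complete_lt_kappa {κ : Cardinal.{0}} (h1 : ℵ₀ < κ) (h2 : κ ≤ 𝔠) :
    Complete Pi11 (D fun X => #X < κ) := by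
  have e : (D fun X => #X < κ) = D fun X => #X ≤ ℵ₀ := by
    ext z
    show #(df z) < κ ↔ #(df z) ≤ ℵ₀
    constructor
    · intro h
      rcases card_cases z with h3 | h3
      · exact h3
      · rw [h3] at h; exact absurd h (not_lt.2 h2)
    · intro h; exact lt_of_le_of_lt h h1
  rw [e]; exact complete_countable

theorem complete_ge_kappa {κ : Cardinal.{0}} (h1 : ℵ₀ < κ) (h2 : κ ≤ 𝔠) :
    Complete Sigma11 (D fun X => κ ≤ #X) := by
  have e : (D fun X => κ ≤ #X) = D fun X => ℵ₀ < #X := by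
    ext z
    show κ ≤ #(df z) ↔ ℵ₀ < #(df z)
    constructor
    · intro h; exact lt_of_lt_of_le h1 h
    · intro h
      rw [card_eq_continuum h]; exact h2
  rw [e]; exact complete_uncountable

theorem eq_kappa_empty {κ : Cardinal.{0}} (h1 : ℵ₀ < κ) (h2 : κ < 𝔠) :
    (D fun X => #X = κ) = ∅ := by
  ext z
  show #(df z) = κ ↔ False
  rw [iff_false]
  intro h
  rcases card_cases z with h3 | h3
  · rw [h] at h3; exact absurd h3 (not_le.2 h1)
  · rw [h] at h3; exact absurd h3 h2.ne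

theorem complete_continuum : Complete Sigma11 (D fun X => #X = 𝔠) := by
  have e : (D fun X => #X = 𝔠) = D fun X => ℵ₀ < #X := by
    ext z
    show #(df z) = 𝔠 ↔ ℵ₀ < #(df z)
    constructor
    · intro h; rw [h]; exact Cardinal.aleph0_lt_continuum
    · exact card_eq_continuum
  rw [e]; exact complete_uncountable

end Pool.Agent.DPC
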