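import Mathlib

set_option autoImplicit false

namespace Pool.Agent.DPC

open Nat.Partrec (Code)
open Encodable

section Cp

variable {α β γ : Type*} [Primcodable α] [Primcodable β] [Primcodable γ]

theorem cp_iff {p : α → Prop} :
    ComputablePred p ↔ ∃ f : α → Bool, Computable f ∧ ∀ a, p a ↔ f a = true := by
  rw [ComputablePred.computable_iff]
  constructor
  · rintro ⟨f, hf, rfl⟩; exact ⟨f, hf, fun a => Iff.rfl⟩
  · rintro ⟨f, hf, h⟩; exact ⟨f, hf, funext fun a => propext (h a)⟩

theorem cp_comp {p : β → Prop} (hp : ComputablePred p) {f : α → β} (hf : Computable f) :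
    ComputablePred fun a => p (f a) := by
  obtain ⟨g, hg, h⟩ := cp_iff.1 hp
  exact cp_iff.2 ⟨fun a => g (f a), hg.comp hf, fun a => h (f a)⟩

theorem cp_and {p q : α → Prop} (hp : ComputablePred p) (hq : ComputablePred q) :
    ComputablePred fun a => p a ∧ q a := by
  obtain ⟨f, hf, h⟩ := cp_iff.1 hp
  obtain ⟨g, hg, h'⟩ := cp_iff.1 hq
  refine cp_iff.2 ⟨fun a => f a && g a, Primrec.and.to_comp.comp hf hg, fun a => ?_⟩
  rw [h, h', Bool.and_eq_true]

theorem cp_or {p q : α → Prop} (hp : ComputablePred p) (hq : ComputablePred q) :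
    ComputablePred fun a => p a ∨ q a := by
  obtain ⟨f, hf, h⟩ := cp_iff.1 hp
  obtain ⟨g, hg, h'⟩ := cp_iff.1 hq
  refine cp_iff.2 ⟨fun a => f a || g a, Primrec.or.to_comp.comp hf hg, fun a => ?_⟩
  rw [h, h', Bool.or_eq_true]

theorem cp_not {p : α → Prop} (hp : ComputablePred p) : ComputablePred fun a => ¬ p a := hp.not

theorem cp_imp {p q : α → Prop} (hp : ComputablePred p) (hq : ComputablePred q) :
    ComputablePred fun a => p a → q a :=
  (cp_or (cp_not hp) hq).of_eq fun a => by tauto

theorem cp_eq {f g : α → β} [DecidableEq β] (hf : Computable f) (hg : Computable g) :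
    ComputablePred fun a => f a = g a := by
  have h : ComputablePred fun p : β × β => p.1 = p.2 := by
    exact (Primrec.eq : PrimrecRel (@Eq β)).computablePred
  exact cp_comp h (hf.pair hg)

theorem cp_lt {f g : α → ℕ} (hf : Computable f) (hg : Computable g) :
    ComputablePred fun a => f a < g a := by
  have h : ComputablePred fun p : ℕ × ℕ => p.1 < p.2 := Primrec.nat_lt.computablePred
  exact cp_comp h (hf.pair hg)

theorem cp_le {f g : α → ℕ} (hf : Computable f) (hg : Computable g) :
    ComputablePred fun a => f a ≤ g a := by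
  have h : ComputablePred fun p : ℕ × ℕ => p.1 ≤ p.2 := Primrec.nat_le.computablePred
  exact cp_comp h (hf.pair hg)

theorem cp_const (p : Prop) : ComputablePred fun _ : α => p := by
  by_cases h : p
  · exact cp_iff.2 ⟨fun _ => true, Computable.const _, fun a => by simp [h]⟩
  · exact cp_iff.2 ⟨fun _ => false, Computable.const _, fun a => by simp [h]⟩

theorem cp_forall_lt {p : α × ℕ → Prop} (hp : ComputablePred p) {n : α → ℕ} (hn : Computable n) :
    ComputablePred fun a => ∀ i < n a, p (a, i) := by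
  obtain ⟨f, hf, h⟩ := cp_iff.1 hp
  refine cp_iff.2 ⟨fun a => Nat.rec (motive := fun _ => Bool) true
    (fun i acc => acc && f (a, i)) (n a), ?_, ?_⟩
  · have hh : Computable₂ fun (a : α) (q : ℕ × Bool) => q.2 && f (a, q.1) :=
      Primrec.and.to_comp.comp (Computable.snd.comp Computable.snd)
        (hf.comp (Computable.fst.pair (Computable.fst.comp Computable.snd)))
    exact Computable.nat_rec hn (Computable.const true) hh
  · intro a
    show (∀ i < n a, p (a, i)) ↔ (Nat.rec (motive := fun _ => Bool) true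
        (fun i acc => acc && f (a, i)) (n a) : Bool) = true
    generalize n a = m
    induction m with
    | zero => simp
    | succ m ih =>
      show _ ↔ ((Nat.rec (motive := fun _ => Bool) true
        (fun i acc => acc && f (a, i)) m : Bool) && f (a, m)) = true
      rw [Bool.and_eq_true, ← ih, ← h]
      constructor
      · intro H
        exact ⟨fun i hi => H i (by omega), H m (by omega)⟩
      · rintro ⟨H1, H2⟩ i hi
        rcases Nat.lt_succ_iff_lt_or_eq.1 hi with h' | rfl
        · exact H1 i h'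
        · exact H2

theorem cp_exists_lt {p : α × ℕ → Prop} (hp : ComputablePred p) {n : α → ℕ} (hn : Computable n) :
    ComputablePred fun a => ∃ i < n a, p (a, i) := by
  refine (cp_not (cp_forall_lt (cp_not hp) hn)).of_eq fun a => ?_
  push Not
  rfl

/-- recursively enumerable predicates in normal form -/
theorem re_iff {p : α → Prop} :
    REPred p ↔ ∃ R : α × ℕ → Prop, ComputablePred R ∧ ∀ a, p a ↔ ∃ n, R (a, n) := by
  constructor
  · intro hp
    have h1 : Nat.Partrec fun n => Part.bind (decode (α := α) n) fun a =>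
      (Part.assert (p a) fun _ => Part.some ()).map encode := hp
    obtain ⟨c, hc⟩ := Code.exists_code.1 h1
    refine ⟨fun q => (Code.evaln q.2 c (encode q.1)).isSome = true, ?_, ?_⟩
    · have h2 : Primrec fun q : α × ℕ => (Code.evaln q.2 c (encode q.1)).isSome :=
        Primrec.option_isSome.comp (Code.primrec_evaln.comp
          ((Primrec.snd.pair (Primrec.const c)).pair (Primrec.encode.comp Primrec.fst)))
      exact cp_iff.2 ⟨_, h2.to_comp, fun a => Iff.rfl⟩
    · intro a
      have h3 : p a ↔ (Code.eval c (encode a)).Dom := by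
        rw [hc]
        simp [Part.assert]
      rw [h3]
      constructor
      · intro h
        obtain ⟨v, hv⟩ := Part.dom_iff_mem.1 h
        obtain ⟨k, hk⟩ := Code.evaln_complete.1 hv
        refine ⟨k, ?_⟩
        show (Code.evaln k c (encode a)).isSome = true
        rw [Option.mem_def.1 hk]; rfl
      · rintro ⟨k, hk⟩
        obtain ⟨v, hv⟩ := Option.isSome_iff_exists.1 hk
        exact Part.dom_iff_mem.2 ⟨v, Code.evaln_sound hv⟩
  · rintro ⟨R, hR, h⟩
    obtain ⟨f, hf, hfR⟩ := cp_iff.1 hR
    have h1 : Partrec fun a : α => Nat.rfind fun n => (Part.some (f (a, n)) : Part Bool) :=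
      Partrec.rfind hf.partrec
    refine h1.dom_re.of_eq fun a => ?_
    rw [h a]
    constructor
    · intro hd
      have := (Nat.rfind_dom.1 hd)
      obtain ⟨n, hn, -⟩ := this
      exact ⟨n, (hfR _).2 (by simpa using hn)⟩
    · rintro ⟨n, hn⟩
      refine Nat.rfind_dom.2 ⟨n, ?_, fun {m} _ => trivial⟩
      simpa using (hfR _).1 hn

theorem re_comp {p : β → Prop} (hp : REPred p) {f : α → β} (hf : Computable f) :
    REPred fun a => p (f a) := by
  obtain ⟨R, hR, h⟩ := re_iff.1 hp
  refine re_iff.2 ⟨fun q => R (f q.1, q.2), ?_, fun a => h (f a)⟩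
  exact cp_comp hR ((hf.comp Computable.fst).pair Computable.snd)

theorem re_exists {p : α × ℕ → Prop} (hp : REPred p) : REPred fun a => ∃ n, p (a, n) := by
  obtain ⟨R, hR, h⟩ := re_iff.1 hp
  refine re_iff.2 ⟨fun q => R ((q.1, q.2.unpair.1), q.2.unpair.2), ?_, fun a => ?_⟩
  · refine cp_comp hR (Computable.pair (Computable.fst.pair ?_) ?_)
    · exact Computable.fst.comp (Computable.unpair.comp Computable.snd)
    · exact Computable.snd.comp (Computable.unpair.comp Computable.snd)
  · constructor
    · rintro ⟨n, hn⟩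
      obtain ⟨m, hm⟩ := (h _).1 hn
      exact ⟨Nat.pair n m, by simpa using hm⟩
    · rintro ⟨k, hk⟩
      exact ⟨_, (h _).2 ⟨_, hk⟩⟩

theorem re_exists' [Nonempty γ] {p : α × γ → Prop} (hp : REPred p) :
    REPred fun a : α => ∃ n, p (a, n) := by
  have h0 : REPred (fun q : α × ℕ => ∃ c : γ, decode (α := γ) q.2 = some c ∧ p (q.1, c)) := by
    obtain ⟨c0⟩ := (inferInstance : Nonempty γ)
    obtain ⟨R, hR, h⟩ := re_iff.1 hp
    refine re_iff.2 ⟨fun q => (decode (α := γ) q.1.2).isSome = true ∧
      R ((q.1.1, (decode (α := γ) q.1.2).getD c0), q.2), ?_, ?_⟩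
    · refine cp_and ?_ (cp_comp hR ?_)
      · exact cp_iff.2 ⟨_, (Primrec.option_isSome.comp (Primrec.decode.comp
          (Primrec.snd.comp Primrec.fst))).to_comp, fun a => Iff.rfl⟩
      · refine Computable.pair (Computable.pair (Computable.fst.comp Computable.fst) ?_) Computable.snd
        exact (Primrec.option_getD.comp (Primrec.decode.comp (Primrec.snd.comp Primrec.fst))
          (Primrec.const c0)).to_comp
    · rintro ⟨a, n⟩
      constructor
      · rintro ⟨c, hc, hpc⟩
        obtain ⟨m, hm⟩ := (h _).1 hpc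
        refine ⟨m, ?_⟩
        simp only at hc
        simp only [hc]
        exact ⟨rfl, hm⟩
      · rintro ⟨m, h1, h2⟩
        obtain ⟨c, hc⟩ := Option.isSome_iff_exists.1 h1
        refine ⟨c, hc, (h _).2 ⟨m, ?_⟩⟩
        simp only at hc
        simp only [hc] at h2
        exact h2
  refine (re_exists h0).of_eq fun a => ?_
  constructor
  · rintro ⟨n, c, -, hc⟩; exact ⟨c, hc⟩
  · rintro ⟨c, hc⟩; exact ⟨encode c, c, encodek c, hc⟩

theorem re_and {p q : α → Prop} (hp : REPred p) (hq : REPred q) : REPred fun a => p a ∧ q a := by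
  obtain ⟨R, hR, h⟩ := re_iff.1 hp
  obtain ⟨S, hS, h'⟩ := re_iff.1 hq
  refine re_iff.2 ⟨fun t => R (t.1, t.2.unpair.1) ∧ S (t.1, t.2.unpair.2), ?_, fun a => ?_⟩
  · refine cp_and (cp_comp hR (Computable.fst.pair ?_)) (cp_comp hS (Computable.fst.pair ?_))
    · exact Computable.fst.comp (Computable.unpair.comp Computable.snd)
    · exact Computable.snd.comp (Computable.unpair.comp Computable.snd)
  · rw [h, h']
    constructor
    · rintro ⟨⟨n, hn⟩, ⟨m, hm⟩⟩
      exact ⟨Nat.pair n m, by simpa using ⟨hn, hm⟩⟩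
    · rintro ⟨k, hk1, hk2⟩
      exact ⟨⟨_, hk1⟩, ⟨_, hk2⟩⟩

theorem re_or {p q : α → Prop} (hp : REPred p) (hq : REPred q) : REPred fun a => p a ∨ q a := by
  obtain ⟨R, hR, h⟩ := re_iff.1 hp
  obtain ⟨S, hS, h'⟩ := re_iff.1 hq
  refine re_iff.2 ⟨fun t => R t ∨ S t, cp_or hR hS, fun a => ?_⟩
  rw [h, h']
  constructor
  · rintro (⟨n, hn⟩ | ⟨m, hm⟩)
    · exact ⟨n, Or.inl hn⟩
    · exact ⟨m, Or.inr hm⟩
  · rintro ⟨k, hk | hk⟩
    · exact Or.inl ⟨_, hk⟩
    · exact Or.inr ⟨_, hk⟩

theorem re_cp {p : α → Prop} (hp : ComputablePred p) : REPred p := hp.to_re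

end Cp

end Pool.Agent.DPC
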