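import Pool.Agent.DPC.Fin

set_option autoImplicit false

namespace Pool.Agent.DPC

open Nat.Partrec (Code)
open Encodable Cardinal

/-- labels of the nodes of the infinite binary tree; the children of `k` are `2k+1`, `2k+2` -/
def tree {S : Type*} (s0 : S) (sp : Bool → S → S) : ℕ → S
  | 0 => s0
  | n + 1 => sp (decide (n % 2 = 1)) (tree s0 sp (n / 2))
termination_by n => n
decreasing_by omega

theorem tree_zero {S : Type*} (s0 : S) (sp : Bool → S → S) : tree s0 sp 0 = s0 := by
  rw [tree]

theorem tree_left {S : Type*} (s0 : S) (sp : Bool → S → S) (k : ℕ) :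
    tree s0 sp (2 * k + 1) = sp false (tree s0 sp k) := by
  rw [tree]
  congr 1
  · simp
  · congr 1; omega

theorem tree_right {S : Type*} (s0 : S) (sp : Bool → S → S) (k : ℕ) :
    tree s0 sp (2 * k + 2) = sp true (tree s0 sp k) := by
  rw [tree]
  congr 1
  · simp
  · congr 1; omega

theorem tree_induction {S : Type*} {s0 : S} {sp : Bool → S → S} {p : S → Prop} (h0 : p s0)
    (h1 : ∀ b s, p s → p (sp b s)) (k : ℕ) : p (tree s0 sp k) := by
  induction k using Nat.strong_induction_on with
  | _ k ih =>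
    cases k with
    | zero => rw [tree_zero]; exact h0
    | succ n =>
      rw [tree]
      exact h1 _ _ (ih _ (by omega))

/-- node number `n` on the path `g` -/
def nd (g : ℕ → Bool) : ℕ → ℕ
  | 0 => 0
  | n + 1 => 2 * nd g n + (if g n then 2 else 1)

theorem nd_succ (g : ℕ → Bool) (n : ℕ) : nd g (n + 1) = 2 * nd g n + (if g n then 2 else 1) := rfl

/-- A perfect scheme of strings. -/
structure Scheme (b : ℕ) (σ : List Bool) (h : ℕ → List Bool) : Prop where
  ext0 : ∀ k, σ <+: h k
  mem : ∀ k, h k ∈ bU b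
  left : ∀ k, h k <+: h (2 * k + 1)
  right : ∀ k, h k <+: h (2 * k + 2)
  inc1 : ∀ k, ¬ h (2 * k + 1) <+: h (2 * k + 2)
  inc2 : ∀ k, ¬ h (2 * k + 2) <+: h (2 * k + 1)

theorem Scheme.card' {z : ℕ} {σ : List Bool} {h : ℕ → List Bool} (H : Scheme z.unpair.2 σ h)
    (hσ : ∀ x, pre x σ.length = σ → x ∉ Q z.unpair.1) : #(df z) = 𝔠 := by
  refine le_antisymm ?_ ?_
  · refine (Cardinal.mk_set_le _).trans ?_
    simp
  have hstep : ∀ (g : ℕ → Bool) n, h (nd g n) <+: h (nd g (n + 1)) ∧
      (h (nd g n)).length < (h (nd g (n + 1))).length := by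
    intro g n
    have hl : h (nd g n) <+: h (nd g (n + 1)) := by
      rw [nd_succ]
      split_ifs
      · exact H.right _
      · exact H.left _
    refine ⟨hl, lt_of_le_of_ne hl.length_le fun he => ?_⟩
    have heq := hl.eq_of_length he
    rw [nd_succ] at heq
    split_ifs at heq
    · apply H.inc2 (nd g n)
      rw [← heq]
      exact H.left _
    · apply H.inc1 (nd g n)
      rw [← heq]
      exact H.right _
  have hlen : ∀ (g : ℕ → Bool) n, n ≤ (h (nd g n)).length := by
    intro g n
    induction n with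
    | zero => exact Nat.zero_le _
    | succ n ih => exact Nat.succ_le_of_lt (lt_of_le_of_lt ih (hstep g n).2)
  have hmono : ∀ (g : ℕ → Bool) {n m}, n ≤ m → h (nd g n) <+: h (nd g m) := by
    intro g n m hnm
    induction hnm with
    | refl => exact List.prefix_refl _
    | step _ ih => exact ih.trans (hstep g _).1
  let x : (ℕ → Bool) → (ℕ → Bool) := fun g i => (h (nd g (i + 1))).getD i false
  have hx : ∀ g n, pre (x g) (h (nd g n)).length = h (nd g n) := by
    intro g n
    refine List.ext_getElem (length_pre _ _) fun i h1 h2 => ?_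
    rw [length_pre] at h1
    rw [getElem_pre _ h1]
    have h3 : i < (h (nd g (i + 1))).length := lt_of_lt_of_le (Nat.lt_succ_self i) (hlen g _)
    show (h (nd g (i + 1))).getD i false = _
    rw [List.getD_eq_getElem _ _ h3]
    rcases le_total (i + 1) n with h4 | h4
    · exact (hmono g h4).getElem h3
    · exact ((hmono g h4).getElem h2).symm
  have hxd : ∀ g, x g ∈ df z := by
    intro g
    refine ⟨mem_Q.2 fun m => ?_, hσ _ ?_⟩
    · refine bU_of_prefix' (σ := h (nd g m)) ?_ (H.mem _)
      rw [← hx g m, ← take_pre (x g) (show m ≤ (h (nd g m)).length from hlen g m)]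
      exact List.take_prefix _ _
    · have h1 := H.ext0 (nd g 0)
      rw [← take_pre (x g) h1.length_le, hx g 0]
      exact (List.prefix_iff_eq_take.1 h1).symm
  have hinj : Function.Injective fun g => (⟨x g, hxd g⟩ : df z) := by
    intro g g' hgg
    have hgg' : x g = x g' := congrArg Subtype.val hgg
    by_contra hne
    obtain ⟨i, hi⟩ := Function.ne_iff.1 hne
    classical
    have hex : ∃ i, g i ≠ g' i := ⟨i, hi⟩
    set n := Nat.find hex with hn
    have hn1 : g n ≠ g' n := Nat.find_spec hex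
    have hn2 : ∀ i < n, g i = g' i := fun i hi => by
      have := Nat.find_min hex hi
      simpa using this
    have hnd : ∀ m ≤ n, nd g m = nd g' m := by
      intro m
      induction m with
      | zero => intro _; rfl
      | succ m ih =>
        intro hm
        rw [nd_succ, nd_succ, ih (by omega), hn2 m (by omega)]
    have e1 := hx g (n + 1)
    have e2 := hx g' (n + 1)
    have hcomp : h (nd g (n + 1)) <+: h (nd g' (n + 1)) ∨ h (nd g' (n + 1)) <+: h (nd g (n + 1)) := by
      rw [← e1, ← e2, hgg']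
      rcases le_total (h (nd g (n + 1))).length (h (nd g' (n + 1))).length with h3 | h3
      · left
        rw [← take_pre (x g') h3]
        exact List.take_prefix _ _
      · right
        rw [← take_pre (x g') h3]
        exact List.take_prefix _ _
    have e3 := hnd n le_rfl
    cases hb : g n <;> cases hb' : g' n
    · exact hn1 (by rw [hb, hb'])
    · simp only [nd_succ, hb, hb', e3] at hcomp
      rcases hcomp with h4 | h4
      · exact H.inc1 _ h4
      · exact H.inc2 _ h4
    · simp only [nd_succ, hb, hb', e3] at hcomp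
      rcases hcomp with h4 | h4
      · exact H.inc2 _ h4
      · exact H.inc1 _ h4
    · exact hn1 (by rw [hb, hb'])
  have h3 := Cardinal.mk_le_of_injective hinj
  simpa using h3

theorem Scheme.card {z : ℕ} {σ : List Bool} {h : ℕ → List Bool} (H : Scheme z.unpair.2 σ h)
    (hσ : σ ∉ bU z.unpair.1) : #(df z) = 𝔠 := by
  refine H.card' fun x hx hcon => hσ ?_
  rw [← hx]
  exact mem_Q.1 hcon _

/-- existence of a perfect scheme -/
theorem exists_scheme {z : ℕ} (hz : ℵ₀ < #(df z)) :
    ∃ σ h, Scheme z.unpair.2 σ h ∧ σ ∉ bU z.unpair.1 := by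
  set b := z.unpair.2
  set a := z.unpair.1
  have hunc : ¬ (df z).Countable := by
    rw [← Cardinal.le_aleph0_iff_set_countable]
    exact not_le.2 hz
  have h1 : ∃ σ, σ ∉ bU a ∧ ¬ {x | x ∈ Q b ∧ pre x σ.length = σ}.Countable := by
    by_contra hcon
    push Not at hcon
    apply hunc
    have hsub : df z ⊆ ⋃ σ : List Bool, ⋃ _ : σ ∉ bU a, {x | x ∈ Q b ∧ pre x σ.length = σ} := by
      rintro x ⟨hx1, hx2⟩
      have hx2' : ¬ ∀ m, pre x m ∈ bU a := fun h => hx2 (mem_Q.2 h)
      push Not at hx2'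
      obtain ⟨m, hm⟩ := hx2'
      refine Set.mem_iUnion.2 ⟨pre x m, Set.mem_iUnion.2 ⟨hm, hx1, ?_⟩⟩
      rw [length_pre]
    refine Set.Countable.mono hsub (Set.countable_iUnion fun σ => Set.countable_iUnion fun hσ => ?_)
    exact hcon σ hσ
  obtain ⟨σ, hσ, hσu⟩ := h1
  let Big : List Bool → Prop := fun τ => σ <+: τ ∧ ¬ {x | x ∈ Q b ∧ pre x τ.length = τ}.Countable
  have hsplit : ∀ τ, Big τ → ∃ τ0 τ1, Big τ0 ∧ Big τ1 ∧ τ <+: τ0 ∧ τ <+: τ1 ∧
      ¬ τ0 <+: τ1 ∧ ¬ τ1 <+: τ0 := by
    rintro τ ⟨hτ1, hτ2⟩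
    set X := {x | x ∈ Q b ∧ pre x τ.length = τ} with hX
    let Y := {x | x ∈ X ∧ ∀ n, ¬ {y | y ∈ Q b ∧ pre y n = pre x n}.Countable}
    have hY : ¬ Y.Countable := by
      intro hYc
      apply hτ2
      have hsub : X ⊆ Y ∪ ⋃ ρ : List Bool, ⋃ _ : {y | y ∈ Q b ∧ pre y ρ.length = ρ}.Countable,
          {y | y ∈ Q b ∧ pre y ρ.length = ρ} := by
        intro x hx
        by_cases hxY : x ∈ Y
        · exact Or.inl hxY
        · right
          have : ∃ n, {y | y ∈ Q b ∧ pre y n = pre x n}.Countable := by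
            by_contra hcon
            push Not at hcon
            exact hxY ⟨hx, hcon⟩
          obtain ⟨n, hn⟩ := this
          refine Set.mem_iUnion.2 ⟨pre x n, Set.mem_iUnion.2 ⟨?_, hx.1, ?_⟩⟩
          · rw [length_pre]; exact hn
          · rw [length_pre]
      refine Set.Countable.mono hsub (hYc.union ?_)
      exact Set.countable_iUnion fun ρ => Set.countable_iUnion fun hρ => hρ
    have hYnt : Y.Nontrivial := by
      by_contra hcon
      rw [Set.not_nontrivial_iff] at hcon
      exact hY hcon.countable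
    obtain ⟨x, hx, y, hy, hxy⟩ := hYnt
    obtain ⟨i, hi⟩ := Function.ne_iff.1 hxy
    set n := max τ.length (i + 1) with hn
    have hτx : τ <+: pre x n := by
      rw [← hx.1.2, ← take_pre x (show τ.length ≤ n from le_max_left _ _)]
      exact List.take_prefix _ _
    have hτy : τ <+: pre y n := by
      rw [← hy.1.2, ← take_pre y (show τ.length ≤ n from le_max_left _ _)]
      exact List.take_prefix _ _
    have hne : pre x n ≠ pre y n := fun h =>
      hi (pre_eq_iff.1 h i (lt_of_lt_of_le (Nat.lt_succ_self i) (le_max_right _ _)))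
    refine ⟨pre x n, pre y n, ⟨hτ1.trans hτx, ?_⟩, ⟨hτ1.trans hτy, ?_⟩, hτx, hτy, ?_, ?_⟩
    · rw [length_pre]; exact hx.2 n
    · rw [length_pre]; exact hy.2 n
    · intro h
      exact hne (h.eq_of_length (by rw [length_pre, length_pre]))
    · intro h
      exact hne (h.eq_of_length (by rw [length_pre, length_pre])).symm
  choose t0 t1 ht using hsplit
  let sp : Bool → {τ // Big τ} → {τ // Big τ} := fun c τ =>
    if c then ⟨t1 τ.1 τ.2, (ht τ.1 τ.2).2.1⟩ else ⟨t0 τ.1 τ.2, (ht τ.1 τ.2).1⟩
  let h : ℕ → {τ // Big τ} := tree ⟨σ, List.prefix_refl _, hσu⟩ sp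
  have hl : ∀ k, h (2 * k + 1) = ⟨t0 (h k).1 (h k).2, (ht _ _).1⟩ := fun k => tree_left _ _ k
  have hr : ∀ k, h (2 * k + 2) = ⟨t1 (h k).1 (h k).2, (ht _ _).2.1⟩ := fun k => tree_right _ _ k
  refine ⟨σ, fun k => (h k).1, ⟨fun k => (h k).2.1, fun k => ?_, fun k => ?_, fun k => ?_,
    fun k => ?_, fun k => ?_⟩, hσ⟩
  · have h2 := (h k).2.2
    have h3 : {x | x ∈ Q b ∧ pre x (h k).1.length = (h k).1}.Nonempty := by
      by_contra hcon
      rw [Set.not_nonempty_iff_eq_empty] at hcon
      apply h2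
      rw [hcon]
      exact Set.countable_empty
    obtain ⟨x, hx, hx'⟩ := h3
    rw [← hx']
    exact mem_Q.1 hx _
  · simp only [hl]; exact (ht _ _).2.2.1
  · simp only [hr]; exact (ht _ _).2.2.2.1
  · simp only [hl, hr]; exact (ht _ _).2.2.2.2.1
  · simp only [hl, hr]; exact (ht _ _).2.2.2.2.2

theorem uncountable_iff {z : ℕ} : ℵ₀ < #(df z) ↔
    ∃ σ h, Scheme z.unpair.2 σ h ∧ σ ∉ bU z.unpair.1 := by
  constructor
  · exact exists_scheme
  · rintro ⟨σ, h, H, hσ⟩
    rw [H.card hσ]
    exact Cardinal.aleph0_lt_continuum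

theorem card_eq_continuum {z : ℕ} (h : ℵ₀ < #(df z)) : #(df z) = 𝔠 := by
  obtain ⟨σ, h, H, hσ⟩ := uncountable_iff.1 h
  exact H.card hσ

end Pool.Agent.DPC
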