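import Mathlib

/-!
# Differences of two `Π⁰₁` classes: definitions
-/

set_option autoImplicit false

namespace Pool.Agent.DPC

open Nat.Partrec (Code)
open Encodable Cardinal MeasureTheory

/-- The primitive recursive function computed by the program `c`. Programs that use unbounded
search are read as the constant `0`, so every program computes a primitive recursive function, and
every primitive recursive function has a program. -/
def ev : Code → ℕ → ℕ
  | Code.zero => fun _ => 0
  | Code.succ => fun n => n + 1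
  | Code.left => fun n => n.unpair.1
  | Code.right => fun n => n.unpair.2
  | Code.pair c d => fun n => Nat.pair (ev c n) (ev d n)
  | Code.comp c d => fun n => ev c (ev d n)
  | Code.prec c d => fun n =>
      Nat.rec (motive := fun _ => ℕ) (ev c n.unpair.1)
        (fun y i => ev d (Nat.pair n.unpair.1 (Nat.pair y i))) n.unpair.2
  | Code.rfind' _ => fun _ => 0

/-- The `e`-th primitive recursive function `π_e` from `ω^{<ω}` to `{0, 1}`. -/
def prf (e : ℕ) (σ : List ℕ) : ℕ :=
  if ev (Denumerable.ofNat Code e) (encode σ) = 0 then 0 else 1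

/-- The `e`-th primitive recursive tree `U_e`. -/
def U (e : ℕ) : Set (List ℕ) := {σ | ∀ τ, τ <+: σ → prf e τ = 1}

/-- The `e`-th `Π⁰₁` class `P_e = [U_e]`. -/
def P (e : ℕ) : Set (ℕ → ℕ) := {f | ∀ n, (List.range n).map f ∈ U e}

/-- `Q_e = P_e ∩ 2^ω`, as a subset of Cantor space `ℕ → Bool`. -/
def Q (e : ℕ) : Set (ℕ → Bool) := {x | (fun n => (x n).toNat) ∈ P e}

/-- `D(R)`, the set of codes of pairs `⟨a, b⟩` such that `Q_b \ Q_a` has the property `R`. -/
def D (R : Set (ℕ → Bool) → Prop) : Set ℕ := {z | R (Q z.unpair.2 \ Q z.unpair.1)}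

/-- The uniform product measure on Cantor space. -/
noncomputable def mu : Measure (ℕ → Bool) :=
  Measure.infinitePi fun _ => (PMF.uniformOfFintype Bool).toMeasure

/-- `Σ⁰_n` sets: `Σ⁰_0` sets are the computable sets, and `Σ⁰_{n+1}` sets are the projections of
complements of `Σ⁰_n` sets. -/
def SigmaN : ℕ → Set ℕ → Prop
  | 0, A => ComputablePred (· ∈ A)
  | n + 1, A => ∃ B : Set ℕ, SigmaN n B ∧ ∀ x, x ∈ A ↔ ∃ y, Nat.pair x y ∉ B

/-- `Π⁰_n` sets. -/
def PiN (n : ℕ) (A : Set ℕ) : Prop := SigmaN n Aᶜ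

/-- `D⁰_n` sets: differences of two `Σ⁰_n` sets. -/
def DiffN (n : ℕ) (A : Set ℕ) : Prop := ∃ B C : Set ℕ, SigmaN n B ∧ SigmaN n C ∧ A = B \ C

/-- `Π¹₁` sets of natural numbers. -/
def Pi11 (A : Set ℕ) : Prop := ∃ B : Set ℕ, ComputablePred (· ∈ B) ∧
  ∀ x, x ∈ A ↔ ∀ f : ℕ → ℕ, ∃ n, Nat.pair x (encode ((List.range n).map f)) ∈ B

/-- `Σ¹₁` sets of natural numbers. -/
def Sigma11 (A : Set ℕ) : Prop := Pi11 Aᶜ

/-- `Γ`-hard sets. -/
def Hard (Γ : Set ℕ → Prop) (A : Set ℕ) : Prop := ∀ B, Γ B → (· ∈ B) ≤₀ (· ∈ A)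

/-- `Γ`-complete sets. -/
def Complete (Γ : Set ℕ → Prop) (A : Set ℕ) : Prop := Γ A ∧ Hard Γ A

/-- Nonnegative left-c.e. reals: suprema of computable sequences of nonnegative rationals. -/
def LeftCE (α : ℝ) : Prop := ∃ f g : ℕ → ℕ, Computable f ∧ Computable g ∧
  IsLUB (Set.range fun n => (f n : ℝ) / (g n + 1)) α

/-- d.c.e. reals: differences of two left-c.e. reals. -/
def DCE (r : ℝ) : Prop := ∃ α β : ℝ, LeftCE α ∧ LeftCE β ∧ r = α - β

/-- The real with digit set `A`. -/
noncomputable def digitReal (A : Set ℕ) : ℝ := ∑' i, A.indicator (fun i => (1 / 2 : ℝ) ^ (i + 1)) i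

/-- Uniformly left-c.e. sequences of reals: the relation expressing that the rational `i/(k+1)` is less than
`v n` is r.e. -/
def Lower (v : ℕ → ℝ) : Prop :=
  REPred fun p : ℕ × (ℕ × ℕ) => (p.2.1 : ℝ) / (p.2.2 + 1) < v p.1

/-- `k`-c.e. sets: only the empty set is `0`-c.e., and the `(k+1)`-c.e. sets are the differences
`B \ C` of an r.e. set `B` and a `k`-c.e. set `C`. -/
def NCE : ℕ → Set ℕ → Prop
  | 0, A => A = ∅
  | k + 1, A => ∃ B C : Set ℕ, REPred (· ∈ B) ∧ NCE k C ∧ A = B \ C

/-- The characteristic function of a set of natural numbers. -/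
noncomputable def chi (A : Set ℕ) : ℕ →. ℕ := fun n =>
  open Classical in Part.some (if n ∈ A then 1 else 0)

/-- The left cut of a real, as a set of (codes of) nonnegative rationals. -/
def cut (r : ℝ) : Set ℕ := {n | (n.unpair.1 : ℝ) / (n.unpair.2 + 1) < r}

/-- The halting set. -/
def halt : Set ℕ := {n | (Code.eval (Denumerable.ofNat Code n) 0).Dom}

end Pool.Agent.DPC
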