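import Pool.Agent.DPC.Defs
import Pool.Agent.DPC.Comp

set_option autoImplicit false

namespace Pool.Agent.DPC

open Nat.Partrec (Code)
open Encodable

/-- replace unbounded search by zero -/
def strip (c : Code) : Code :=
  Code.recOn c Code.zero Code.succ Code.left Code.right
    (fun _ _ hf hg => Code.pair hf hg) (fun _ _ hf hg => Code.comp hf hg)
    (fun _ _ hf hg => Code.prec hf hg) (fun _ _ => Code.zero)

theorem strip_computable : Computable strip := by
  unfold strip
  refine Code.computable_recOn (α := Code) (σ := Code) Computable.id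
    (Computable.const _) (Computable.const _) (Computable.const _) (Computable.const _)
    (pr := fun _ q => Code.pair q.2.2.1 q.2.2.2) ?_ (co := fun _ q => Code.comp q.2.2.1 q.2.2.2) ?_
    (pc := fun _ q => Code.prec q.2.2.1 q.2.2.2) ?_ (rf := fun _ _ => Code.zero) ?_
  · exact (Code.primrec₂_pair.to_comp.comp
      (Computable.fst.comp (Computable.snd.comp (Computable.snd.comp Computable.snd)))
      (Computable.snd.comp (Computable.snd.comp (Computable.snd.comp Computable.snd))))
  · exact (Code.primrec₂_comp.to_comp.comp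
      (Computable.fst.comp (Computable.snd.comp (Computable.snd.comp Computable.snd)))
      (Computable.snd.comp (Computable.snd.comp (Computable.snd.comp Computable.snd))))
  · exact (Code.primrec₂_prec.to_comp.comp
      (Computable.fst.comp (Computable.snd.comp (Computable.snd.comp Computable.snd)))
      (Computable.snd.comp (Computable.snd.comp (Computable.snd.comp Computable.snd))))
  · exact Computable.const _

theorem eval_strip (c : Code) : ∀ n, Code.eval (strip c) n = Part.some (ev c n) := by
  induction c with
  | zero => intro n; rfl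
  | succ => intro n; rfl
  | left => intro n; rfl
  | right => intro n; rfl
  | pair cf cg hf hg =>
    intro n
    show (Nat.pair <$> Code.eval (strip cf) n <*> Code.eval (strip cg) n) = _
    rw [hf, hg]
    simp [Seq.seq, ev]
  | comp cf cg hf hg =>
    intro n
    show (Code.eval (strip cg) n >>= Code.eval (strip cf)) = _
    rw [hg]
    simp [hf, ev]
  | prec cf cg hf hg =>
    intro n
    show Code.eval (Code.prec (strip cf) (strip cg)) n = _
    have key : ∀ a m, Code.eval (Code.prec (strip cf) (strip cg)) (Nat.pair a m) =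
        Part.some (Nat.rec (motive := fun _ => ℕ) (ev cf a)
          (fun y i => ev cg (Nat.pair a (Nat.pair y i))) m) := by
      intro a m
      induction m with
      | zero => rw [Code.eval_prec_zero, hf]; rfl
      | succ m ih =>
        rw [Code.eval_prec_succ, ih]
        simp [hg]
    have := key n.unpair.1 n.unpair.2
    rw [Nat.pair_unpair] at this
    rw [this]
    rfl
  | rfind' cf _ => intro n; rfl

theorem ev_computable : Computable₂ ev := by
  have h : Partrec₂ fun (c : Code) (n : ℕ) => Code.eval (strip c) n :=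
    Code.eval_part.comp (strip_computable.comp Computable.fst) Computable.snd
  exact h.of_eq fun p => eval_strip p.1 p.2

theorem ev_const (m n : ℕ) : ev (Code.const m) n = m := by
  induction m with
  | zero => rfl
  | succ m ih =>
    show ev (Code.comp Code.succ (Code.const m)) n = _
    simp [ev, ih]

theorem ev_id (n : ℕ) : ev Code.id n = n := by
  show Nat.pair n.unpair.1 n.unpair.2 = n
  exact Nat.pair_unpair n

theorem ev_curry (c : Code) (m n : ℕ) : ev (Code.curry c m) n = ev c (Nat.pair m n) := by
  show ev c (Nat.pair (ev (Code.const m) n) (ev Code.id n)) = _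
  rw [ev_const, ev_id]

theorem exists_ev {f : ℕ → ℕ} (hf : Nat.Primrec f) : ∃ c : Code, ∀ n, ev c n = f n := by
  induction hf with
  | zero => exact ⟨Code.zero, fun _ => rfl⟩
  | succ => exact ⟨Code.succ, fun _ => rfl⟩
  | left => exact ⟨Code.left, fun _ => rfl⟩
  | right => exact ⟨Code.right, fun _ => rfl⟩
  | pair _ _ hf hg =>
    obtain ⟨c, hc⟩ := hf
    obtain ⟨d, hd⟩ := hg
    exact ⟨Code.pair c d, fun n => by simp [ev, hc, hd]⟩
  | comp _ _ hf hg =>
    obtain ⟨c, hc⟩ := hf
    obtain ⟨d, hd⟩ := hg
    exact ⟨Code.comp c d, fun n => by simp [ev, hc, hd]⟩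
  | prec _ _ hf hg =>
    obtain ⟨c, hc⟩ := hf
    obtain ⟨d, hd⟩ := hg
    exact ⟨Code.prec c d, fun n => by simp [ev, hc, hd, Nat.unpaired]⟩

theorem prf_eq_one {e : ℕ} {σ : List ℕ} :
    prf e σ = 1 ↔ ev (Denumerable.ofNat Code e) (encode σ) ≠ 0 := by
  unfold prf
  split_ifs with h
  · simp [h]
  · simp [h]

theorem prf_cp : ComputablePred fun p : ℕ × List ℕ => prf p.1 p.2 = 1 := by
  have h1 : Computable fun p : ℕ × List ℕ => ev (Denumerable.ofNat Code p.1) (encode p.2) :=
    ev_computable.comp ((Computable.ofNat Code).comp Computable.fst)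
      (Computable.encode.comp Computable.snd)
  refine (cp_not (cp_eq h1 (Computable.const 0))).of_eq fun p => ?_
  rw [prf_eq_one]

theorem mem_U_iff {e : ℕ} {σ : List ℕ} : σ ∈ U e ↔ ∀ i < σ.length + 1, prf e (σ.take i) = 1 := by
  constructor
  · intro h i _
    exact h _ (List.take_prefix i σ)
  · intro h τ hτ
    obtain ⟨ρ, rfl⟩ := hτ
    have := h τ.length (by simp)
    rwa [List.take_left' rfl] at this

theorem U_cp : ComputablePred fun p : ℕ × List ℕ => p.2 ∈ U p.1 := by
  have h0 : Computable fun q : (ℕ × List ℕ) × ℕ => (q.1.1, q.1.2.take q.2) :=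
    (Computable.fst.comp Computable.fst).pair
      (Primrec.list_take.to_comp.comp Computable.snd (Computable.snd.comp Computable.fst))
  have h1 : ComputablePred fun q : (ℕ × List ℕ) × ℕ => prf q.1.1 (q.1.2.take q.2) = 1 :=
    cp_comp prf_cp h0
  have h2 : Computable fun p : ℕ × List ℕ => p.2.length + 1 :=
    Computable.succ.comp (Computable.list_length.comp Computable.snd)
  exact (cp_forall_lt h1 h2).of_eq fun p => (mem_U_iff (e := p.1) (σ := p.2)).symm

theorem take_mem_U {e : ℕ} {σ τ : List ℕ} (h : τ <+: σ) (hσ : σ ∈ U e) : τ ∈ U e :=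
  fun _ hρ => hσ _ (hρ.trans h)

end Pool.Agent.DPC
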