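import Pool.Agent.DPC.Upper

set_option autoImplicit false

namespace Pool.Agent.DPC

open Nat.Partrec (Code)
open Encodable Cardinal

/-- preimages of `Σ⁰_2` sets under computable functions -/
theorem sigma2_comp {A : Set ℕ} (hA : SigmaN 2 A) {f : ℕ → ℕ} (hf : Computable f) :
    SigmaN 2 {x | f x ∈ A} := by
  obtain ⟨q, hq, h⟩ := sigma2_iff.1 hA
  exact sigma2_iff.2 ⟨fun p => q (f p.1, p.2),
    re_comp hq ((hf.comp Computable.fst).pair Computable.snd), fun x => h (f x)⟩

theorem sigma2_gt (n : ℕ) : SigmaN 2 (D fun X => (n : Cardinal) < #X) := by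
  have h := sigma2_comp sigma2_card (f := fun z => Nat.pair z n)
    (pair_computable.comp Computable.id (Computable.const n))
  have e : (D fun X => (n : Cardinal) < #X) =
      {x | Nat.pair x n ∈ {p : ℕ | (p.unpair.2 : Cardinal) < #(df p.unpair.1)}} := by
    ext z
    simp only [Set.mem_ofPred_eq, Nat.unpair_pair]
    exact Iff.rfl
  rw [e]; exact h

/-- reduction to the gadget -/
theorem hard_of_gadget {Γ : Set ℕ → Prop} {R : Set (ℕ → Bool) → Prop}
    {T : Cardinal.{0} → Prop} (hRT : ∀ X, R X ↔ T #X)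
    (h : ∀ A, Γ A → ∃ V : ℕ × ℕ → Prop, REPred V ∧ ∀ x, x ∈ A ↔ T #{v : ℕ | ¬ V (x, v)}) :
    Hard Γ (D R) := by
  intro A hA
  obtain ⟨V, hV, hAV⟩ := h A hA
  obtain ⟨g, hg, hgV⟩ := gadget hV
  refine ⟨g, hg, fun x => ?_⟩
  show x ∈ A ↔ R (df (g x))
  rw [hAV, hRT, hgV]

theorem card_Iio (n : ℕ) : #{v : ℕ | v < n} = n := by
  have : {v : ℕ | v < n} = (Finset.range n : Set ℕ) := by ext; simp
  rw [this]
  simp

theorem card_insert_Iio {n m : ℕ} (h : n ≤ m) : #(insert m {v : ℕ | v < n} : Set ℕ) = n + 1 := by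
  rw [Cardinal.mk_insert (by simp; exact h), card_Iio]

theorem hard_gt (n : ℕ) : Hard (SigmaN 2) (D fun X => (n : Cardinal) < #X) := by
  refine hard_of_gadget (T := fun c => (n : Cardinal) < c) (fun X => Iff.rfl) ?_
  intro A hA
  obtain ⟨q, hq, h⟩ := sigma2_iff.1 hA
  refine ⟨fun p => n ≤ p.2 ∧ q (p.1, p.2 - n), ?_, ?_⟩
  · refine re_and (re_cp (cp_le (Computable.const n) Computable.snd)) (re_comp hq ?_)
    exact Computable.fst.pair (Primrec.nat_sub.to_comp.comp Computable.snd (Computable.const n))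
  · intro x
    rw [h]
    constructor
    · rintro ⟨y, hy⟩
      have h1 : (insert (n + y) {v : ℕ | v < n} : Set ℕ) ⊆ {v | ¬ (n ≤ v ∧ q (x, v - n))} := by
        rintro v (rfl | hv)
        · rintro ⟨-, h2⟩
          rw [Nat.add_sub_cancel_left] at h2
          exact hy h2
        · rintro ⟨h2, -⟩
          exact absurd h2 (not_le.2 hv)
      have h2 := Cardinal.mk_le_mk_of_subset h1
      rw [card_insert_Iio (Nat.le_add_right n y)] at h2
      refine lt_of_lt_of_le ?_ h2
      exact_mod_cast Nat.lt_succ_self n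
    · intro hlt
      by_contra hcon
      push Not at hcon
      have h1 : {v | ¬ (n ≤ v ∧ q (x, v - n))} ⊆ {v : ℕ | v < n} := by
        intro v hv
        by_contra h2
        exact hv ⟨not_lt.1 h2, hcon _⟩
      have h2 := Cardinal.mk_le_mk_of_subset h1
      rw [card_Iio] at h2
      exact absurd hlt (not_lt.2 h2)

theorem complete_gt (n : ℕ) : Complete (SigmaN 2) (D fun X => (n : Cardinal) < #X) :=
  ⟨sigma2_gt n, hard_gt n⟩

theorem D_compl (R : Set (ℕ → Bool) → Prop) : (D R)ᶜ = D fun X => ¬ R X := rfl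

theorem D_congr {R S : Set (ℕ → Bool) → Prop} (h : ∀ X, R X ↔ S X) : D R = D S := by
  ext z; exact h _

theorem hard_compl {Γ : Set ℕ → Prop} {A : Set ℕ} (h : Hard Γ A) :
    Hard (fun B => Γ Bᶜ) Aᶜ := by
  intro B hB
  obtain ⟨f, hf, h1⟩ := h Bᶜ hB
  refine ⟨f, hf, fun x => ?_⟩
  have h2 : ¬ (x ∈ B) ↔ f x ∈ A := h1 x
  show x ∈ B ↔ ¬ (f x ∈ A)
  rw [← h2, not_not]

theorem complete_compl {n : ℕ} {A : Set ℕ} (h : Complete (SigmaN n) A) :
    Complete (PiN n) Aᶜ := by
  refine ⟨?_, hard_compl h.2⟩
  show SigmaN n Aᶜᶜ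
  rw [compl_compl]
  exact h.1

theorem complete_compl' {n : ℕ} {A : Set ℕ} (h : Complete (PiN n) A) :
    Complete (SigmaN n) Aᶜ := by
  refine ⟨h.1, ?_⟩
  intro B hB
  refine hard_compl h.2 B ?_
  show SigmaN n Bᶜᶜ
  rw [compl_compl]
  exact hB

theorem complete_ge {n : ℕ} (hn : 1 ≤ n) :
    Complete (SigmaN 2) (D fun X => (n : Cardinal) ≤ #X) := by
  have h := complete_gt (n - 1)
  have e : (D fun X => (n : Cardinal) ≤ #X) = D fun X => ((n - 1 : ℕ) : Cardinal) < #X := by
    refine D_congr fun X => ?_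
    rw [← Order.succ_le_iff, Cardinal.succ_natCast]
    have : ((n - 1 : ℕ) : Cardinal) + 1 = (n : Cardinal) := by
      exact_mod_cast Nat.sub_add_cancel hn
    rw [this]
  rw [e]; exact h

theorem complete_le (n : ℕ) : Complete (PiN 2) (D fun X => #X ≤ (n : Cardinal)) := by
  have h := complete_compl (complete_gt n)
  rw [D_compl] at h
  have e : (D fun X => #X ≤ (n : Cardinal)) = D fun X => ¬ (n : Cardinal) < #X :=
    D_congr fun X => not_lt.symm
  rw [e]; exact h

theorem complete_lt {n : ℕ} (hn : 1 ≤ n) :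
    Complete (PiN 2) (D fun X => #X < (n : Cardinal)) := by
  have h := complete_compl (complete_ge hn)
  rw [D_compl] at h
  have e : (D fun X => #X < (n : Cardinal)) = D fun X => ¬ (n : Cardinal) ≤ #X :=
    D_congr fun X => not_le.symm
  rw [e]; exact h

theorem complete_zero : Complete (PiN 2) (D fun X => #X = ((0 : ℕ) : Cardinal)) := by
  have h := complete_le 0
  have e : (D fun X => #X = ((0 : ℕ) : Cardinal)) = D fun X => #X ≤ ((0 : ℕ) : Cardinal) := by
    refine D_congr fun X => ?_
    rw [Nat.cast_zero]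
    exact ⟨fun h => h.le, fun h => le_antisymm h zero_le⟩
  rw [e]; exact h

theorem complete_eq {n : ℕ} (hn : 1 ≤ n) :
    Complete (DiffN 2) (D fun X => #X = (n : Cardinal)) := by
  refine ⟨⟨D fun X => (n : Cardinal) ≤ #X, D fun X => (n : Cardinal) < #X, (complete_ge hn).1,
    (complete_gt n).1, ?_⟩, ?_⟩
  · ext z
    show #(df z) = n ↔ (n : Cardinal) ≤ #(df z) ∧ ¬ (n : Cardinal) < #(df z)
    constructor
    · intro h; rw [h]; exact ⟨le_rfl, lt_irrefl _⟩
    · rintro ⟨h1, h2⟩; exact le_antisymm (not_lt.1 h2) h1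
  · refine hard_of_gadget (T := fun c => c = (n : Cardinal)) (fun X => Iff.rfl) ?_
    rintro A ⟨S, T, hS, hT, rfl⟩
    obtain ⟨VS, hVS, hS1, hS2⟩ := exists_unique_witness hS
    obtain ⟨VT, hVT, hT1, hT2⟩ := exists_unique_witness hT
    obtain ⟨k, rfl⟩ : ∃ k, n = k + 1 := ⟨n - 1, by omega⟩
    -- `v < k` free; `k + 3 i` for `VS`; `k + 3 i + 1`, `k + 3 i + 2` for `VT`
    let V : ℕ × ℕ → Prop := fun p => k ≤ p.2 ∧
      (((p.2 - k) % 3 = 0 ∧ VS (p.1, (p.2 - k) / 3)) ∨
        (¬ (p.2 - k) % 3 = 0 ∧ VT (p.1, (p.2 - k) / 3)))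
    have hsub : Computable fun p : ℕ × ℕ => p.2 - k :=
      Primrec.nat_sub.to_comp.comp Computable.snd (Computable.const k)
    have hmod : Computable fun p : ℕ × ℕ => (p.2 - k) % 3 :=
      Primrec.nat_mod.to_comp.comp hsub (Computable.const 3)
    have hdiv : Computable fun p : ℕ × ℕ => (p.1, (p.2 - k) / 3) :=
      Computable.fst.pair (Primrec.nat_div.to_comp.comp hsub (Computable.const 3))
    have hc : ComputablePred fun p : ℕ × ℕ => (p.2 - k) % 3 = 0 := cp_eq hmod (Computable.const 0)
    refine ⟨V, re_and (re_cp (cp_le (Computable.const k) Computable.snd))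
      (re_or (re_and (re_cp hc) (re_comp hVS hdiv))
        (re_and (re_cp (cp_not hc)) (re_comp hVT hdiv))), ?_⟩
    intro x
    by_cases hxT : x ∈ T
    · -- too many
      obtain ⟨i, hi⟩ := (hT1 x).1 hxT
      have h1 : (insert (k + 3 * i + 2) (insert (k + 3 * i + 1) {v : ℕ | v < k}) : Set ℕ) ⊆
          {v | ¬ V (x, v)} := by
        rintro v (rfl | rfl | hv)
        · rintro ⟨-, ⟨h2, -⟩ | ⟨-, h2⟩⟩
          · simp only at h2; omega
          · apply hi
            have : (k + 3 * i + 2 - k) / 3 = i := by omega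
            simpa [this] using h2
        · rintro ⟨-, ⟨h2, -⟩ | ⟨-, h2⟩⟩
          · simp only at h2; omega
          · apply hi
            have : (k + 3 * i + 1 - k) / 3 = i := by omega
            simpa [this] using h2
        · rintro ⟨h2, -⟩
          exact absurd h2 (not_le.2 hv)
      have h2 := Cardinal.mk_le_mk_of_subset h1
      rw [Cardinal.mk_insert (by simp; omega), card_insert_Iio (by omega)] at h2
      constructor
      · rintro ⟨-, h3⟩; exact absurd hxT h3
      · intro h3
        rw [h3] at h2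
        exfalso
        have : k + 1 + 1 ≤ k + 1 := by exact_mod_cast h2
        omega
    · have hVT' : ∀ i, VT (x, i) := by
        intro i
        by_contra h
        exact hxT ((hT1 x).2 ⟨i, h⟩)
      have hE : ∀ v, ¬ V (x, v) ↔ v < k ∨ ∃ i, v = k + 3 * i ∧ ¬ VS (x, i) := by
        intro v
        constructor
        · intro hv
          by_cases hvk : v < k
          · exact Or.inl hvk
          · right
            by_cases hm : (v - k) % 3 = 0
            · refine ⟨(v - k) / 3, by omega, fun h => hv ⟨not_lt.1 hvk, Or.inl ⟨hm, h⟩⟩⟩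
            · exact absurd ⟨not_lt.1 hvk, Or.inr ⟨hm, hVT' _⟩⟩ hv
        · rintro (hv | ⟨i, rfl, hi⟩)
          · rintro ⟨h2, -⟩
            exact absurd h2 (not_le.2 hv)
          · rintro ⟨-, ⟨-, h2⟩ | ⟨h2, -⟩⟩
            · apply hi
              have : (k + 3 * i - k) / 3 = i := by omega
              simpa [this] using h2
            · apply h2
              show (k + 3 * i - k) % 3 = 0
              omega
      by_cases hxS : x ∈ S
      · obtain ⟨i, hi⟩ := (hS1 x).1 hxS
        have h1 : {v | ¬ V (x, v)} = (insert (k + 3 * i) {v : ℕ | v < k} : Set ℕ) := by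
          ext v
          rw [Set.mem_ofPred_eq, hE, Set.mem_insert_iff]
          constructor
          · rintro (hv | ⟨j, rfl, hj⟩)
            · exact Or.inr hv
            · rw [hS2 x _ _ hi hj]; exact Or.inl rfl
          · rintro (rfl | hv)
            · exact Or.inr ⟨i, rfl, hi⟩
            · exact Or.inl hv
        rw [h1, card_insert_Iio (Nat.le_add_right _ _)]
        constructor
        · intro _; push_cast; rfl
        · intro _; exact ⟨hxS, hxT⟩
      · have h1 : {v | ¬ V (x, v)} = {v : ℕ | v < k} := by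
          ext v
          rw [Set.mem_ofPred_eq, hE]
          constructor
          · rintro (hv | ⟨j, rfl, hj⟩)
            · exact hv
            · exact absurd ((hS1 x).2 ⟨j, hj⟩) hxS
          · exact Or.inl
        rw [h1, card_Iio]
        constructor
        · rintro ⟨h2, -⟩; exact absurd h2 hxS
        · intro h2
          exfalso
          have : k = k + 1 := by exact_mod_cast h2
          omega

theorem sigma3_iff {A : Set ℕ} : SigmaN 3 A ↔ ∃ B : Set ℕ, SigmaN 2 B ∧
    ∀ x, x ∈ A ↔ ∃ y, Nat.pair x y ∉ B := Iff.rfl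

/-- `Σ⁰₂` sets are closed under bounded universal quantification -/
theorem sigma2_forall_le {B : Set ℕ} (hB : SigmaN 2 B) :
    SigmaN 2 {n : ℕ | ∀ y ≤ n.unpair.2, Nat.pair n.unpair.1 y ∈ B} := by
  obtain ⟨q, hq, h⟩ := sigma2_iff.1 hB
  let q' : ℕ × List ℕ → Prop := fun p =>
    ∃ y, y ≤ p.1.unpair.2 ∧ q (Nat.pair p.1.unpair.1 y, p.2.getD y 0)
  have hq' : REPred q' := by
    have e1 : Computable fun t : (ℕ × List ℕ) × ℕ => t.1.1.unpair.2 :=
      Computable.snd.comp (Computable.unpair.comp (Computable.fst.comp Computable.fst))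
    have e2 : Computable fun t : (ℕ × List ℕ) × ℕ =>
        (Nat.pair t.1.1.unpair.1 t.2, t.1.2.getD t.2 0) :=
      (pair_computable.comp (Computable.fst.comp (Computable.unpair.comp
        (Computable.fst.comp Computable.fst))) Computable.snd).pair
        ((Primrec.list_getD 0).to_comp.comp (Computable.snd.comp Computable.fst) Computable.snd)
    exact re_exists (re_and (re_cp (cp_le Computable.snd e1)) (re_comp hq e2))
  refine sigma2_of (γ := List ℕ) (r := fun _ => True) (q := q') (re_cp (cp_const True)) hq' fun n => ?_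
  simp only [Set.mem_ofPred_eq, true_and]
  constructor
  · intro hn
    have h1 : ∀ y, ∃ w, y ≤ n.unpair.2 → ¬ q (Nat.pair n.unpair.1 y, w) := by
      intro y
      by_cases hy : y ≤ n.unpair.2
      · obtain ⟨w, hw⟩ := (h _).1 (hn y hy)
        exact ⟨w, fun _ => hw⟩
      · exact ⟨0, fun hy' => absurd hy' hy⟩
    choose w hw using h1
    refine ⟨(List.range (n.unpair.2 + 1)).map w, ?_⟩
    rintro ⟨y, hy, hq⟩
    apply hw y hy
    have e : ((List.range (n.unpair.2 + 1)).map w).getD y 0 = w y := by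
      rw [List.getD_eq_getElem _ _ (by simp; omega)]
      simp
    rw [← e]; exact hq
  · rintro ⟨L, hL⟩ y hy
    rw [h]
    exact ⟨_, fun hq => hL ⟨y, hy, hq⟩⟩

theorem complete_finite : Complete (SigmaN 3) (D fun X => #X < ℵ₀) := by
  refine ⟨?_, ?_⟩
  · refine sigma3_iff.2 ⟨_, sigma2_card, fun z => ?_⟩
    simp only [Set.mem_ofPred_eq, Nat.unpair_pair, not_lt]
    show #(df z) < ℵ₀ ↔ _
    rw [Cardinal.lt_aleph0]
    constructor
    · rintro ⟨n, hn⟩; exact ⟨n, hn.le⟩
    · rintro ⟨n, hn⟩
      exact Cardinal.lt_aleph0.1 (lt_of_le_of_lt hn (Cardinal.natCast_lt_aleph0))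
  · refine hard_of_gadget (T := fun c => c < ℵ₀) (fun X => Iff.rfl) ?_
    intro A hA
    obtain ⟨B, hB, h⟩ := sigma3_iff.1 hA
    obtain ⟨V, hV, hV1, hV2⟩ := exists_unique_witness (sigma2_forall_le hB)
    refine ⟨fun p => V (Nat.pair p.1 p.2.unpair.1, p.2.unpair.2), ?_, ?_⟩
    · refine re_comp hV (Computable.pair (pair_computable.comp Computable.fst ?_) ?_)
      · exact Computable.fst.comp (Computable.unpair.comp Computable.snd)
      · exact Computable.snd.comp (Computable.unpair.comp Computable.snd)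
    · intro x
      rw [h, Cardinal.lt_aleph0_iff_set_finite]
      constructor
      · rintro ⟨y, hy⟩
        have hinj : Set.InjOn (fun v : ℕ => v.unpair.1)
            {v : ℕ | ¬ V (Nat.pair x v.unpair.1, v.unpair.2)} := by
          intro v hv w hw hvw
          simp only at hvw
          have hv' : ¬ V (Nat.pair x v.unpair.1, v.unpair.2) := hv
          have hw' : ¬ V (Nat.pair x w.unpair.1, w.unpair.2) := hw
          rw [← hvw] at hw'
          have := hV2 _ _ _ hv' hw'
          rw [← Nat.pair_unpair v, ← Nat.pair_unpair w, this, hvw]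
        refine Set.Finite.of_finite_image ((Set.finite_Iio y).subset ?_) hinj
        rintro _ ⟨v, hv, rfl⟩
        have hv' := (hV1 _).2 ⟨_, hv⟩
        simp only [Set.mem_ofPred_eq, Nat.unpair_pair] at hv'
        by_contra hcon
        exact hy (hv' y (not_lt.1 hcon))
      · intro hfin
        by_contra hcon
        push Not at hcon
        have h1 : ∀ k, ∃ v, ¬ V (Nat.pair x k, v) := by
          intro k
          refine (hV1 _).1 ?_
          simp only [Set.mem_ofPred_eq, Nat.unpair_pair]
          exact fun y _ => hcon y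
        choose v hv using h1
        have h2 : Set.Infinite {v : ℕ | ¬ V (Nat.pair x v.unpair.1, v.unpair.2)} := by
          refine Set.infinite_of_injective_forall_mem (f := fun k => Nat.pair k (v k)) ?_ ?_
          · intro k l hkl
            exact (Nat.pair_eq_pair.1 hkl).1
          · intro k
            show ¬ V (Nat.pair x (Nat.pair k (v k)).unpair.1, (Nat.pair k (v k)).unpair.2)
            rw [Nat.unpair_pair]
            exact hv k
        exact h2 hfin

theorem complete_infinite : Complete (PiN 3) (D fun X => ℵ₀ ≤ #X) := by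
  have h := complete_compl complete_finite
  rw [D_compl] at h
  have e : (D fun X => ℵ₀ ≤ #X) = D fun X => ¬ #X < ℵ₀ := D_congr fun X => not_lt.symm
  rw [e]; exact h

end Pool.Agent.DPC
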