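import Pool.Agent.DPC.Ev

set_option autoImplicit false

namespace Pool.Agent.DPC

open Nat.Partrec (Code)

theorem ev_primrec (c : Code) : Nat.Primrec (ev c) := by
  induction c with
  | zero => exact Nat.Primrec.zero
  | succ => exact Nat.Primrec.succ
  | left => exact Nat.Primrec.left
  | right => exact Nat.Primrec.right
  | pair c d hc hd => exact (Nat.Primrec.pair hc hd).of_eq fun n => rfl
  | comp c d hc hd => exact (Nat.Primrec.comp hc hd).of_eq fun n => rfl
  | prec c d hc hd =>
    refine (Nat.Primrec.prec hc hd).of_eq fun n => ?_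
    rfl
  | rfind' c _ => exact Nat.Primrec.zero

theorem ev_range (f : ℕ → ℕ) : Nat.Primrec f ↔ ∃ c : Code, ev c = f := by
  constructor
  · intro h
    obtain ⟨c, hc⟩ := exists_ev h
    exact ⟨c, funext hc⟩
  · rintro ⟨c, rfl⟩
    exact ev_primrec c

end Pool.Agent.DPC
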