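import Pool.Agent.DPC.Ev

set_option autoImplicit false

namespace Pool.Agent.DPC

open Nat.Partrec (Code)
open Encodable

/-- initial segment of a point of Cantor space -/
def pre (x : ℕ → Bool) (m : ℕ) : List Bool := (List.range m).map x

theorem length_pre (x : ℕ → Bool) (m : ℕ) : (pre x m).length = m := by simp [pre]

theorem take_pre (x : ℕ → Bool) {i m : ℕ} (h : i ≤ m) : (pre x m).take i = pre x i := by
  unfold pre
  rw [← List.map_take, List.take_range, min_eq_left h]

theorem pre_succ (x : ℕ → Bool) (m : ℕ) : pre x (m + 1) = pre x m ++ [x m] := by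
  simp [pre, List.range_succ]

theorem getElem_pre (x : ℕ → Bool) {i m : ℕ} (h : i < m) :
    (pre x m)[i]'(by rw [length_pre]; exact h) = x i := by simp [pre]

theorem pre_eq_iff {x y : ℕ → Bool} {m : ℕ} : pre x m = pre y m ↔ ∀ i < m, x i = y i := by
  constructor
  · intro h i hi
    rw [← getElem_pre x hi, ← getElem_pre y hi]
    simp only [h]
  · intro h
    unfold pre
    refine List.map_congr_left fun i hi => h i (List.mem_range.1 hi)

theorem re_code {α : Type*} [Primcodable α] {p : α → Prop} (hp : REPred p) :
    ∃ c : Code, ∀ a, p a ↔ (Code.eval c (encode a)).Dom := by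
  have h1 : Nat.Partrec fun n => Part.bind (decode (α := α) n) fun a =>
    (Part.assert (p a) fun _ => Part.some ()).map encode := hp
  obtain ⟨c, hc⟩ := Code.exists_code.1 h1
  refine ⟨c, fun a => ?_⟩
  rw [hc]
  simp [Part.assert]

/-- natural number string to binary string -/
def toB (σ : List ℕ) : List Bool := σ.map fun n => decide (n = 1)

theorem toB_pre (x : ℕ → Bool) (m : ℕ) :
    toB ((List.range m).map fun n => (x n).toNat) = pre x m := by
  unfold toB pre
  rw [List.map_map]
  refine List.map_congr_left fun i _ => ?_
  cases h : x i <;> simp [h]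

theorem toB_primrec : Primrec toB :=
  Primrec.list_map Primrec.id
    ((Primrec.eq.comp (Primrec.snd) (Primrec.const 1)).decide.to₂)

/-- **Uniformly `Π⁰₁` classes have computable indices.** -/
theorem exists_class {W : ℕ × List Bool → Prop} (hW : REPred W) :
    ∃ g : ℕ → ℕ, Computable g ∧ ∀ n x, x ∈ Q (g n) ↔ ∀ m, ¬ W (n, pre x m) := by
  obtain ⟨c, hc⟩ := re_code hW
  let R : ℕ → (ℕ × List ℕ) → Prop := fun i p =>
    (Code.evaln p.2.length c (encode (p.1, toB (p.2.take i)))).isNone = true
  have hR : PrimrecRel R := by
    have h1 : Primrec fun q : ℕ × (ℕ × List ℕ) =>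
        (Code.evaln q.2.2.length c (encode (q.2.1, toB (q.2.2.take q.1)))).isNone := by
      have h2 : Primrec fun q : ℕ × (ℕ × List ℕ) =>
        (Code.evaln q.2.2.length c (encode (q.2.1, toB (q.2.2.take q.1)))) := by
        refine Code.primrec_evaln.comp (((Primrec.list_length.comp
          (Primrec.snd.comp Primrec.snd)).pair (Primrec.const c)).pair
          (Primrec.encode.comp ((Primrec.fst.comp Primrec.snd).pair (toB_primrec.comp
          (Primrec.list_take.comp Primrec.fst (Primrec.snd.comp Primrec.snd))))))
      refine (Primrec.not.comp (Primrec.option_isSome.comp h2)).of_eq fun q => ?_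
      cases (Code.evaln q.2.2.length c (encode (q.2.1, toB (q.2.2.take q.1)))) <;> rfl
    exact Primrec.primrecPred (p := fun q : ℕ × (ℕ × List ℕ) => R q.1 q.2) (by
      refine h1.of_eq fun q => ?_
      exact (Bool.decide_coe _).symm)
  have hR' := hR.forall_mem_list
  let PR : ℕ × List ℕ → Prop := fun p => ∀ i < p.2.length + 1, R i p
  have hPR : PrimrecPred PR := by
    have := hR'.comp (f := fun p : ℕ × List ℕ => List.range (p.2.length + 1)) (g := fun p => p)
      (Primrec.list_range.comp (Primrec.succ.comp (Primrec.list_length.comp Primrec.snd))) Primrec.id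
    refine this.of_eq fun p => ?_
    simp only [List.mem_range, PR]
  have : DecidablePred PR := Classical.decPred _
  have hh : Nat.Primrec fun q : ℕ =>
      if PR (q.unpair.1, Denumerable.ofNat (List ℕ) q.unpair.2) then 1 else 0 := by
    rw [← Primrec.nat_iff]
    refine Primrec.ite ?_ (Primrec.const 1) (Primrec.const 0)
    exact hPR.comp ((Primrec.fst.comp Primrec.unpair).pair
      ((Primrec.ofNat (List ℕ)).comp (Primrec.snd.comp Primrec.unpair)))
  obtain ⟨d, hd⟩ := exists_ev hh
  refine ⟨fun n => encode (Code.curry d n), ?_, ?_⟩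
  · exact (Primrec.encode.comp (Code.primrec₂_curry.comp (Primrec.const d) Primrec.id)).to_comp
  intro n x
  have h1 : ∀ τ, prf (encode (Code.curry d n)) τ = 1 ↔ PR (n, τ) := by
    intro τ
    rw [prf_eq_one, Denumerable.ofNat_encode, ev_curry, hd, Nat.unpair_pair]
    simp
  set s : ℕ → List ℕ := fun m => (List.range m).map fun n => (x n).toNat with hs
  have hs1 : ∀ {i m}, i ≤ m → (s m).take i = s i := by
    intro i m h
    rw [hs]
    simp only
    rw [← List.map_take, List.take_range, min_eq_left h]
  have hs2 : ∀ m, (s m).length = m := fun m => by simp [hs]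
  have h2 : x ∈ Q (encode (Code.curry d n)) ↔ ∀ m, PR (n, s m) := by
    constructor
    · intro h m
      exact (h1 _).1 (h m _ (List.prefix_refl _))
    · intro h m τ hτ
      have : τ = s τ.length := by
        have h3 : τ.length ≤ m := by
          have := hτ.length_le
          rwa [show (List.map (fun n => (x n).toNat) (List.range m)).length = m by simp] at this
        rw [← hs1 h3]
        exact List.prefix_iff_eq_take.1 hτ
      rw [this, h1]
      exact h _
  rw [h2]
  constructor
  · intro h m hWm
    obtain ⟨v, hv⟩ := Part.dom_iff_mem.1 ((hc _).1 hWm)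
    obtain ⟨k, hk⟩ := Code.evaln_complete.1 hv
    have h3 := h (max k m) m (by rw [hs2]; exact Nat.lt_succ_of_le (le_max_right _ _))
    have h4 := Code.evaln_mono (le_max_left k m) hk
    have h5 : (Code.evaln (s (max k m)).length c
        (encode (n, toB ((s (max k m)).take m)))).isNone = true := h3
    rw [hs2, hs1 (le_max_right _ _), toB_pre, Option.mem_def.1 h4] at h5
    simp at h5
  · intro h m i hi
    have h6 : i ≤ m := by rw [hs2] at hi; omega
    show (Code.evaln (s m).length c (encode (n, toB ((s m).take i)))).isNone = true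
    rw [hs1 h6, toB_pre]
    by_contra hcon
    rw [Bool.not_eq_true, Option.isNone_eq_false_iff] at hcon
    obtain ⟨v, hv⟩ := Option.isSome_iff_exists.1 hcon
    exact h i ((hc _).2 (Part.dom_iff_mem.2 ⟨v, Code.evaln_sound hv⟩))

end Pool.Agent.DPC
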