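import Pool.Agent.DPC.Meas2

set_option autoImplicit false

namespace Pool.Agent.DPC

open Nat.Partrec (Code)
open Encodable MeasureTheory Filter Topology

/-- the number with a given binary expansion -/
def bv (σ : List Bool) : ℕ := σ.foldl (fun a b => 2 * a + b.toNat) 0

theorem bv_append (σ : List Bool) (b : Bool) : bv (σ ++ [b]) = 2 * bv σ + b.toNat := by
  simp [bv]

theorem bv_primrec : Primrec bv := by
  unfold bv
  have h : Primrec₂ fun (_ : List Bool) (p : ℕ × Bool) => 2 * p.1 + p.2.toNat :=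
    Primrec.nat_add.comp (Primrec.nat_mul.comp (Primrec.const 2) (Primrec.fst.comp Primrec.snd))
      ((Primrec.dom_finite Bool.toNat).comp (Primrec.snd.comp Primrec.snd))
  exact Primrec.list_foldl Primrec.id (Primrec.const 0) h

theorem range_double (n : ℕ) :
    (List.range n).flatMap (fun j => [2 * j, 2 * j + 1]) = List.range (2 * n) := by
  induction n with
  | zero => rfl
  | succ n ih =>
    rw [List.range_succ, List.flatMap_append, ih]
    have : 2 * (n + 1) = 2 * n + 1 + 1 := by ring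
    rw [this, List.range_succ, List.range_succ]
    simp

theorem map_bv_allS (m : ℕ) : (allS m).map bv = List.range (2 ^ m) := by
  induction m with
  | zero => rfl
  | succ m ih =>
    rw [allS, List.map_flatMap]
    have h1 : (fun s : List Bool => [s ++ [false], s ++ [true]].map bv) =
        fun s => (fun j => [2 * j, 2 * j + 1]) (bv s) := by
      funext s
      simp [bv_append]
    have h2 : (allS m).flatMap (fun s => (fun j => [2 * j, 2 * j + 1]) (bv s)) =
        ((allS m).map bv).flatMap (fun j => [2 * j, 2 * j + 1]) := by rw [List.flatMap_map]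
    rw [h1, h2, ih, range_double, pow_succ, mul_comm]

theorem count_ge (k N : ℕ) : (List.range N).countP (fun j => decide (k ≤ j + 1)) = N - (k - 1) := by
  induction N with
  | zero => simp
  | succ N ih =>
    rw [List.range_succ, List.countP_append, ih, List.countP_singleton]
    by_cases h : k ≤ N + 1
    · simp [h]; omega
    · simp [h]; omega

/-- strings above the threshold `θ` -/
def SL (θ : ℝ) : Set (List Bool) := {σ | θ ≤ ((bv σ : ℝ) + 1) / 2 ^ σ.length}

/-- points above the threshold `θ` -/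
def Ln (θ : ℝ) : Set (ℕ → Bool) := {x | ∀ m, pre x m ∈ SL θ}

theorem Ln_anti {θ θ' : ℝ} (h : θ ≤ θ') : Ln θ' ⊆ Ln θ := fun _ hx m => h.trans (hx m)

theorem SL_prefix {θ : ℝ} : ∀ σ τ : List Bool, σ <+: τ → τ ∈ SL θ → σ ∈ SL θ := by
  rintro σ _ ⟨ρ, rfl⟩
  induction ρ using List.reverseRecOn with
  | nil => intro h; rwa [List.append_nil] at h
  | append_singleton ρ b ih =>
    intro h
    apply ih
    rw [← List.append_assoc] at h
    have h1 : θ ≤ ((bv (σ ++ ρ ++ [b]) : ℝ) + 1) / 2 ^ (σ ++ ρ ++ [b]).length := h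
    refine h1.trans ?_
    rw [bv_append]
    have h2 : (σ ++ ρ ++ [b]).length = (σ ++ ρ).length + 1 := by simp [add_assoc]
    rw [h2, pow_succ, div_le_div_iff₀ (by positivity) (by positivity)]
    have h3 : (b.toNat : ℝ) ≤ 1 := by cases b <;> simp
    push_cast
    have h4 : (0 : ℝ) < 2 ^ (σ ++ ρ).length := by positivity
    nlinarith

theorem cnt_SL {θ : ℝ} (h0 : 0 ≤ θ) (h1 : θ ≤ 1) (m : ℕ) :
    (1 - θ) ≤ (cnt (SL θ) m : ℝ) / 2 ^ m ∧ (cnt (SL θ) m : ℝ) / 2 ^ m ≤ 1 - θ + (1 / 2) ^ m := by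
  set c : ℝ := θ * 2 ^ m with hc
  have hpos : (0 : ℝ) < 2 ^ m := by positivity
  have hc0 : 0 ≤ c := by positivity
  have hc1 : c ≤ ((2 ^ m : ℕ) : ℝ) := by
    push_cast
    nlinarith
  have h2 : cnt (SL θ) m = 2 ^ m - (⌈c⌉₊ - 1) := by
    rw [← count_ge, ← map_bv_allS, List.countP_map]
    unfold cnt
    refine List.countP_congr fun τ hτ => ?_
    rw [mem_allS] at hτ
    simp only [SL, Set.mem_ofPred_eq, decide_eq_true_eq, Function.comp, hτ]
    rw [le_div_iff₀ hpos, Nat.ceil_le]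
    push_cast
    rfl
  have h3 : ⌈c⌉₊ ≤ 2 ^ m := Nat.ceil_le.2 hc1
  have h4 : ((⌈c⌉₊ - 1 : ℕ) : ℝ) ≤ c := by
    rcases Nat.eq_zero_or_pos ⌈c⌉₊ with h | h
    · rw [h]; simpa using hc0
    · have := Nat.ceil_lt_add_one hc0
      rw [Nat.cast_sub h]
      push_cast
      linarith
  have h5 : c - 1 ≤ ((⌈c⌉₊ - 1 : ℕ) : ℝ) := by
    have := Nat.le_ceil c
    have h6 : (⌈c⌉₊ : ℝ) ≤ ((⌈c⌉₊ - 1 : ℕ) : ℝ) + 1 := by
      exact_mod_cast (by omega : ⌈c⌉₊ ≤ (⌈c⌉₊ - 1) + 1)
    linarith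
  have h6 : (cnt (SL θ) m : ℝ) = 2 ^ m - ((⌈c⌉₊ - 1 : ℕ) : ℝ) := by
    rw [h2, Nat.cast_sub (by omega)]
    push_cast
    rfl
  rw [h6]
  constructor
  · rw [le_div_iff₀ hpos]
    nlinarith
  · rw [div_le_iff₀ hpos]
    have : (1 - θ + (1 / 2) ^ m) * (2 : ℝ) ^ m = 2 ^ m - c + 1 := by
      rw [hc, add_mul, ← mul_pow]
      norm_num
      ring
    rw [this]
    linarith

theorem mu_Ln {θ : ℝ} (h0 : 0 ≤ θ) (h1 : θ ≤ 1) : mu.real (Ln θ) = 1 - θ := by
  obtain ⟨h2, -⟩ := mu_tendsto (S := SL θ) SL_prefix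
  have h3 : Tendsto (fun m : ℕ => 1 - θ + (1 / 2 : ℝ) ^ m) atTop (𝓝 (1 - θ + 0)) :=
    tendsto_const_nhds.add (tendsto_pow_atTop_nhds_zero_of_lt_one (by norm_num) (by norm_num))
  rw [add_zero] at h3
  have h4 := tendsto_of_tendsto_of_tendsto_of_le_of_le tendsto_const_nhds h3
    (fun m => (cnt_SL h0 h1 m).1) (fun m => (cnt_SL h0 h1 m).2)
  exact tendsto_nhds_unique h2 h4

theorem re_forall_lt {α : Type*} [Primcodable α] {p : α × ℕ → Prop} (hp : REPred p) {n : α → ℕ}
    (hn : Computable n) : REPred fun a : α => ∀ i < n a, p (a, i) := by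
  obtain ⟨R, hR, h⟩ := re_iff.1 hp
  have e1 : Computable fun q : ((α × ℕ) × ℕ) × ℕ => ((q.1.1.1, q.1.2), q.2) :=
    ((Computable.fst.comp (Computable.fst.comp Computable.fst)).pair
      (Computable.snd.comp Computable.fst)).pair Computable.snd
  have e2 := cp_comp hR e1
  have e3 : Computable fun q : (α × ℕ) × ℕ => q.1.2 := Computable.snd.comp Computable.fst
  have e4 := cp_exists_lt e2 e3
  have e5 : Computable fun q : α × ℕ => n q.1 := hn.comp Computable.fst
  have e6 := cp_forall_lt e4 e5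
  refine (re_exists (re_cp e6)).of_eq fun a => ?_
  simp only
  constructor
  · rintro ⟨s, hs⟩ i hi
    obtain ⟨t, -, ht⟩ := hs i hi
    exact (h _).2 ⟨t, ht⟩
  · intro hall
    have key : ∀ k ≤ n a, ∃ s, ∀ i < k, ∃ t < s, R ((a, i), t) := by
      intro k
      induction k with
      | zero => intro _; exact ⟨0, fun i hi => absurd hi (by omega)⟩
      | succ k ih =>
        intro hk
        obtain ⟨s, hs⟩ := ih (by omega)
        obtain ⟨t, ht⟩ := (h _).1 (hall k (by omega))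
        refine ⟨max s (t + 1), fun i hi => ?_⟩
        rcases Nat.lt_succ_iff_lt_or_eq.1 hi with h' | rfl
        · obtain ⟨t', ht', hR'⟩ := hs i h'
          exact ⟨t', lt_of_lt_of_le ht' (le_max_left _ _), hR'⟩
        · exact ⟨t, lt_of_lt_of_le (Nat.lt_succ_self _) (le_max_right _ _), ht⟩
    exact key _ le_rfl

theorem line_arith (b l e f g : ℕ) :
    ((b : ℝ) + 1) / 2 ^ l + 1 / 2 ^ e < f / (g + 1) ↔
      ((b + 1) * 2 ^ e + 2 ^ l) * (g + 1) < f * (2 ^ l * 2 ^ e) := by
  have h1 : ((b : ℝ) + 1) / 2 ^ l + 1 / 2 ^ e = ((b + 1) * 2 ^ e + 2 ^ l) / (2 ^ l * 2 ^ e) := by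
    field_simp
  rw [h1, div_lt_div_iff₀ (by positivity) (by positivity)]
  exact_mod_cast Iff.rfl

/-- Number line classes with uniformly left-c.e. thresholds. -/
theorem exists_line {δ : ℝ} (hδ : LeftCE δ) (K : ℕ) {V : ℕ × ℕ → Prop} (hV : REPred V) :
    ∃ (G : ℕ → ℕ) (a : ℕ → ℝ), Computable G ∧ ∀ n, 0 ≤ a n ∧ a n ≤ 1 / 2 ^ K ∧
      (0 < a n ↔ ∃ w, ¬ V (n, w)) ∧ Q (G n) = Ln (δ - a n) := by
  classical
  obtain ⟨f, g, hf, hg, hlub⟩ := hδ
  let W : ℕ × List Bool → Prop := fun p => ∃ t, ∃ w, (∀ i < w, V (p.1, i)) ∧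
    ((bv p.2 : ℝ) + 1) / 2 ^ p.2.length + 1 / 2 ^ (w + K) < f t / (g t + 1)
  have hW : REPred W := by
    have e1 : Computable fun t : ((ℕ × List Bool) × ℕ) × ℕ => bv t.1.1.2 + 1 :=
      Computable.succ.comp (bv_primrec.to_comp.comp (Computable.snd.comp
        (Computable.fst.comp Computable.fst)))
    have e2 : Computable fun t : ((ℕ × List Bool) × ℕ) × ℕ => 2 ^ t.1.1.2.length :=
      pow_computable.comp (Computable.list_length.comp (Computable.snd.comp
        (Computable.fst.comp Computable.fst)))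
    have e3 : Computable fun t : ((ℕ × List Bool) × ℕ) × ℕ => 2 ^ (t.2 + K) :=
      pow_computable.comp (Primrec.nat_add.to_comp.comp Computable.snd (Computable.const K))
    have e4 : Computable fun t : ((ℕ × List Bool) × ℕ) × ℕ => f t.1.2 :=
      hf.comp (Computable.snd.comp Computable.fst)
    have e5 : Computable fun t : ((ℕ × List Bool) × ℕ) × ℕ => g t.1.2 + 1 :=
      Computable.succ.comp (hg.comp (Computable.snd.comp Computable.fst))
    have add := Primrec.nat_add.to_comp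
    have mul := Primrec.nat_mul.to_comp
    have e6 := mul.comp (add.comp (mul.comp e1 e3) e2) e5
    have e7 := mul.comp e4 (mul.comp e2 e3)
    have e8 := re_cp (cp_lt e6 e7)
    have e9 : Computable fun t : (((ℕ × List Bool) × ℕ) × ℕ) × ℕ => (t.1.1.1.1, t.2) :=
      (Computable.fst.comp (Computable.fst.comp (Computable.fst.comp Computable.fst))).pair
        Computable.snd
    have e10 := re_comp hV e9
    have e11 : Computable fun t : ((ℕ × List Bool) × ℕ) × ℕ => t.2 := Computable.snd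
    have e12 := re_forall_lt e10 e11
    have e13 := re_exists (re_exists (re_and e12 e8))
    refine e13.of_eq fun p => ?_
    refine exists_congr fun t => exists_congr fun w => and_congr Iff.rfl ?_
    exact (line_arith (bv p.2) p.2.length (w + K) (f t) (g t)).symm
  obtain ⟨G, hG, hGQ⟩ := exists_class hW
  let a : ℕ → ℝ := fun n => if h : ∃ w, ¬ V (n, w) then 1 / 2 ^ (Nat.find h + K) else 0
  refine ⟨G, a, hG, fun n => ?_⟩
  have ha : ∀ n w, (∀ i < w, V (n, i)) → a n ≤ 1 / 2 ^ (w + K) := by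
    intro n w hw
    simp only [a]
    split_ifs with h
    · have : w ≤ Nat.find h := by
        by_contra hcon
        exact Nat.find_spec h (hw _ (not_le.1 hcon))
      exact one_div_pow_le_one_div_pow_of_le (by norm_num) (by omega)
    · positivity
  have hpos : 0 < a n ↔ ∃ w, ¬ V (n, w) := by
    simp only [a]
    split_ifs with h
    · exact ⟨fun _ => h, fun _ => by positivity⟩
    · exact ⟨fun h' => absurd h' (lt_irrefl _), fun h' => absurd h' h⟩
  have h0 : 0 ≤ a n := by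
    simp only [a]
    split_ifs <;> positivity
  refine ⟨h0, ?_, hpos, ?_⟩
  · have := ha n 0 (fun i hi => absurd hi (by omega))
    simpa using this
  ext x
  rw [hGQ]
  constructor
  · intro h m
    show δ - a n ≤ ((bv (pre x m) : ℝ) + 1) / 2 ^ (pre x m).length
    have h1 : ∀ w, (∀ i < w, V (n, i)) →
        δ ≤ ((bv (pre x m) : ℝ) + 1) / 2 ^ (pre x m).length + 1 / 2 ^ (w + K) := by
      intro w hw
      refine hlub.2 ?_
      rintro _ ⟨t, rfl⟩
      by_contra hcon
      exact h m ⟨t, w, hw, not_le.1 hcon⟩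
    by_cases hex : ∃ w, ¬ V (n, w)
    · have h2 := h1 (Nat.find hex) (fun i hi => by
        have := Nat.find_min hex hi
        rwa [not_not] at this)
      have h3 : a n = 1 / 2 ^ (Nat.find hex + K) := by simp only [a]; rw [dif_pos hex]
      rw [h3]
      linarith
    · have h3 : a n = 0 := by simp only [a]; rw [dif_neg hex]
      rw [h3, sub_zero]
      push Not at hex
      have h4 : Tendsto (fun w : ℕ => ((bv (pre x m) : ℝ) + 1) / 2 ^ (pre x m).length +
          1 / 2 ^ (w + K)) atTop (𝓝 (((bv (pre x m) : ℝ) + 1) / 2 ^ (pre x m).length + 0)) := by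
        refine tendsto_const_nhds.add ?_
        have h5 : Tendsto (fun w : ℕ => (1 / 2 : ℝ) ^ w) atTop (𝓝 0) :=
          tendsto_pow_atTop_nhds_zero_of_lt_one (by norm_num) (by norm_num)
        refine squeeze_zero (fun w => by positivity) (fun w => ?_) h5
        rw [one_div_pow]
        exact one_div_pow_le_one_div_pow_of_le (by norm_num) (by omega)
      rw [add_zero] at h4
      exact ge_of_tendsto' h4 fun w => h1 w fun i _ => hex i
  · rintro h m ⟨t, w, hw, hlt⟩
    have h1 : δ - a n ≤ ((bv (pre x m) : ℝ) + 1) / 2 ^ (pre x m).length := h m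
    have h2 : (f t : ℝ) / (g t + 1) ≤ δ := hlub.1 ⟨t, rfl⟩
    have h3 := ha n w hw
    simp only at hlt
    linarith

theorem leftCE_of_const {i k : ℕ} : LeftCE ((i : ℝ) / (k + 1)) := by
  refine ⟨fun _ => i, fun _ => k, Computable.const _, Computable.const _, ?_⟩
  rw [Set.range_const]
  exact isLUB_singleton

theorem LeftCE.shift {α : ℝ} (h : LeftCE α) (i j k : ℕ) (h0 : 0 ≤ α + ((i : ℝ) - j) / (k + 1)) :
    LeftCE (α + ((i : ℝ) - j) / (k + 1)) := by
  obtain ⟨f, g, hf, hg, hlub⟩ := h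
  let f' : ℕ → ℕ := fun t => (f t * (k + 1) + i * (g t + 1)) - j * (g t + 1)
  let g' : ℕ → ℕ := fun t => (g t + 1) * (k + 1) - 1
  have add := Primrec.nat_add.to_comp
  have mul := Primrec.nat_mul.to_comp
  have sub := Primrec.nat_sub.to_comp
  have hg1 : Computable fun t => g t + 1 := Computable.succ.comp hg
  have hf' : Computable f' :=
    sub.comp (add.comp (mul.comp hf (Computable.const (k + 1)))
      (mul.comp (Computable.const i) hg1)) (mul.comp (Computable.const j) hg1)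
  have hg' : Computable g' :=
    sub.comp (mul.comp hg1 (Computable.const (k + 1))) (Computable.const 1)
  have key : ∀ t, (f' t : ℝ) / (g' t + 1) = max 0 ((f t : ℝ) / (g t + 1) + ((i : ℝ) - j) / (k + 1)) := by
    intro t
    have e1 : (g' t : ℝ) + 1 = ((g t : ℝ) + 1) * (k + 1) := by
      have : g' t + 1 = (g t + 1) * (k + 1) := by
        show (g t + 1) * (k + 1) - 1 + 1 = _
        exact Nat.sub_add_cancel (Nat.mul_pos (Nat.succ_pos _) (Nat.succ_pos _))
      exact_mod_cast this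
    have e2 : (f t : ℝ) / (g t + 1) + ((i : ℝ) - j) / (k + 1) =
        ((f t * (k + 1) + i * (g t + 1)) - j * (g t + 1)) / (((g t : ℝ) + 1) * (k + 1)) := by
      field_simp
      ring
    rw [e1, e2]
    have hpos : (0 : ℝ) < ((g t : ℝ) + 1) * (k + 1) := by positivity
    rcases le_total (j * (g t + 1)) (f t * (k + 1) + i * (g t + 1)) with h1 | h1
    · have e3 : (f' t : ℝ) = (f t * (k + 1) + i * (g t + 1)) - j * (g t + 1) := by
        show (((f t * (k + 1) + i * (g t + 1)) - j * (g t + 1) : ℕ) : ℝ) = _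
        rw [Nat.cast_sub h1]
        push_cast
        rfl
      rw [e3, max_eq_right]
      refine div_nonneg ?_ hpos.le
      rw [← e3]
      positivity
    · have e3 : f' t = 0 := Nat.sub_eq_zero_of_le h1
      rw [e3, max_eq_left]
      · simp
      · refine div_nonpos_of_nonpos_of_nonneg ?_ hpos.le
        have : ((f t * (k + 1) + i * (g t + 1) : ℕ) : ℝ) ≤ ((j * (g t + 1) : ℕ) : ℝ) := by
          exact_mod_cast h1
        push_cast at this
        linarith
  refine ⟨f', g', hf', hg', ?_, ?_⟩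
  · rintro _ ⟨t, rfl⟩
    simp only
    rw [key]
    refine max_le h0 ?_
    have := hlub.1 ⟨t, rfl⟩
    simp only at this
    linarith
  · intro u hu
    have h1 : α ≤ u - ((i : ℝ) - j) / (k + 1) := by
      refine hlub.2 ?_
      rintro _ ⟨t, rfl⟩
      have h2 := hu ⟨t, rfl⟩
      simp only at h2
      rw [key] at h2
      have h3 := (le_max_right _ _).trans h2
      simp only
      linarith
    linarith

/-- normalisation of d.c.e. representations -/
theorem DCE.normalize {r : ℝ} (hr : DCE r) (h0 : 0 ≤ r) {u v : ℝ} (hu : 0 ≤ u) (huv : u < v) :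
    ∃ γ δ, LeftCE γ ∧ LeftCE δ ∧ r = γ - δ ∧ u < δ ∧ δ < v := by
  obtain ⟨γ', δ', hγ, hδ, rfl⟩ := hr
  obtain ⟨q, h1, h2⟩ := exists_rat_btwn (show u - δ' < v - δ' by linarith)
  have hq : ((q.num.toNat : ℝ) - ((-q.num).toNat : ℝ)) / ((q.den - 1 : ℕ) + 1) = (q : ℝ) := by
    have e2 : ((q.den - 1 : ℕ) : ℝ) + 1 = (q.den : ℝ) := by
      have : (q.den - 1) + 1 = q.den := Nat.sub_add_cancel q.pos
      exact_mod_cast congrArg (fun z : ℕ => (z : ℝ)) this
    have e1 : ((q.num.toNat : ℝ) - ((-q.num).toNat : ℝ)) = (q.num : ℝ) := by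
      have : ((q.num.toNat : ℤ) - ((-q.num).toNat : ℤ)) = q.num := by omega
      exact_mod_cast congrArg (fun z : ℤ => (z : ℝ)) this
    have e3 : (q.num : ℝ) / (q.den : ℝ) = (q : ℝ) := by
      exact_mod_cast congrArg (fun z : ℚ => (z : ℝ)) (Rat.num_div_den q)
    rw [e1, e2, e3]
  have g1 := hγ.shift q.num.toNat (-q.num).toNat (q.den - 1)
  have d1 := hδ.shift q.num.toNat (-q.num).toNat (q.den - 1)
  rw [hq] at g1 d1
  refine ⟨γ' + q, δ' + q, g1 (by linarith), d1 (by linarith), by ring, by linarith, by linarith⟩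

theorem exists_pow_le {ε : ℝ} (h : 0 < ε) : ∃ K : ℕ, 1 / 2 ^ K ≤ ε := by
  obtain ⟨K, hK⟩ := exists_pow_lt_of_lt_one h (show (1 / 2 : ℝ) < 1 by norm_num)
  refine ⟨K, ?_⟩
  rw [← one_div_pow]
  exact hK.le

theorem mu_diff_line {a b : ℕ} {θ θ' : ℝ} (h0 : 0 ≤ θ) (h : θ ≤ θ') (h1 : θ' ≤ 1)
    (hb : Q b = Ln θ) (ha : Q a = Ln θ') : mu.real (df (Nat.pair a b)) = θ' - θ := by
  rw [mu_df]
  unfold al be
  rw [Nat.unpair_pair]
  simp only
  rw [ha, hb, Set.inter_eq_left.2 (Ln_anti h), mu_Ln h0 (h.trans h1), mu_Ln (h0.trans h) h1]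
  ring

theorem hard_plus {r : ℝ} (hr : DCE r) (h0 : 0 ≤ r) (h1 : r < 1) {A : Set ℕ} (hA : SigmaN 2 A) :
    ∃ g : ℕ → ℕ, Computable g ∧ ∀ n, ∃ a : ℝ, 0 ≤ a ∧ (0 < a ↔ n ∈ A) ∧
      mu.real (df (g n)) = r + a := by
  obtain ⟨q, hq, hAq⟩ := sigma2_iff.1 hA
  obtain ⟨γ, δ, hγ, hδ, hrr, hδ0, hδ1⟩ := hr.normalize h0 le_rfl (show (0 : ℝ) < 1 - r by linarith)
  obtain ⟨K, hK⟩ := exists_pow_le hδ0
  obtain ⟨G, a, hG, hGa⟩ := exists_line hδ K hq
  obtain ⟨G', a', -, hG'⟩ := exists_line hγ 0 (V := fun _ => True) (re_cp (cp_const True))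
  have ha' : a' 0 = 0 := by
    obtain ⟨h2, -, h3, -⟩ := hG' 0
    by_contra hne
    have : 0 < a' 0 := lt_of_le_of_ne h2 (Ne.symm hne)
    obtain ⟨w, hw⟩ := h3.1 this
    exact hw trivial
  refine ⟨fun n => Nat.pair (G' 0) (G n), pair_computable.comp (Computable.const _) hG, fun n => ?_⟩
  obtain ⟨h2, h3, h4, h5⟩ := hGa n
  have h6 := (hG' 0).2.2.2
  rw [ha', sub_zero] at h6
  refine ⟨a n, h2, h4.trans (hAq n).symm, ?_⟩
  rw [mu_diff_line (by linarith) (by linarith) (by linarith) h5 h6]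
  linarith

theorem hard_minus {r : ℝ} (hr : DCE r) (h0 : 0 < r) (h1 : r ≤ 1) {A : Set ℕ} (hA : SigmaN 2 A) :
    ∃ g : ℕ → ℕ, Computable g ∧ ∀ n, ∃ a : ℝ, 0 ≤ a ∧ (0 < a ↔ n ∈ A) ∧
      mu.real (df (g n)) = r - a := by
  obtain ⟨q, hq, hAq⟩ := sigma2_iff.1 hA
  obtain ⟨γ, δ, hγ, hδ, hrr, hδ0, hδ1⟩ : ∃ γ δ, LeftCE γ ∧ LeftCE δ ∧ r = γ - δ ∧ 0 ≤ δ ∧
      γ ≤ 1 := by
    rcases lt_or_eq_of_le h1 with h | h
    · obtain ⟨γ, δ, hγ, hδ, hrr, hδ0, hδ1⟩ :=
        hr.normalize h0.le le_rfl (show (0 : ℝ) < 1 - r by linarith)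
      exact ⟨γ, δ, hγ, hδ, hrr, hδ0.le, by linarith⟩
    · refine ⟨1, 0, ?_, ?_, by linarith, le_rfl, le_rfl⟩
      · have := leftCE_of_const (i := 1) (k := 0)
        simpa using this
      · have := leftCE_of_const (i := 0) (k := 0)
        simpa using this
  obtain ⟨K, hK⟩ := exists_pow_le h0
  obtain ⟨G, a, hG, hGa⟩ := exists_line hγ K hq
  obtain ⟨G', a', -, hG'⟩ := exists_line hδ 0 (V := fun _ => True) (re_cp (cp_const True))
  have ha' : a' 0 = 0 := by
    obtain ⟨h2, -, h3, -⟩ := hG' 0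
    by_contra hne
    have : 0 < a' 0 := lt_of_le_of_ne h2 (Ne.symm hne)
    obtain ⟨w, hw⟩ := h3.1 this
    exact hw trivial
  refine ⟨fun n => Nat.pair (G n) (G' 0), pair_computable.comp hG (Computable.const _), fun n => ?_⟩
  obtain ⟨h2, h3, h4, h5⟩ := hGa n
  have h6 := (hG' 0).2.2.2
  rw [ha', sub_zero] at h6
  refine ⟨a n, h2, h4.trans (hAq n).symm, ?_⟩
  rw [mu_diff_line hδ0 (by linarith) (by linarith) h6 h5]
  linarith

end Pool.Agent.DPC
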