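import Pool.Agent.DPC.Card

set_option autoImplicit false

namespace Pool.Agent.DPC

open Nat.Partrec (Code)
open Encodable MeasureTheory Filter Topology

instance : IsProbabilityMeasure mu := by unfold mu; infer_instance

theorem coin_apply (b : Bool) :
    (PMF.uniformOfFintype Bool).toMeasure {b} = (2 : ENNReal)⁻¹ := by
  rw [PMF.toMeasure_apply_singleton _ _ (MeasurableSet.singleton b)]
  simp

theorem allS_nodup : ∀ m, (allS m).Nodup := by
  intro m
  induction m with
  | zero => simp [allS]
  | succ m ih =>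
    rw [allS, List.nodup_flatMap]
    refine ⟨fun s _ => ?_, ih.imp ?_⟩
    · simp
    · intro s t hst
      rw [Function.onFun, List.disjoint_left]
      intro u hu hu'
      simp only [List.mem_cons, List.not_mem_nil, or_false] at hu hu'
      apply hst
      rcases hu with rfl | rfl <;> rcases hu' with h | h <;>
        exact (List.append_inj' h rfl).1

theorem mu_cylinder {m : ℕ} {τ : List Bool} (hτ : τ.length = m) :
    mu.real {x | pre x m = τ} = (2 : ℝ)⁻¹ ^ m := by
  have h1 : {x : ℕ → Bool | pre x m = τ} =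
      Set.pi (Finset.range m : Set ℕ) (fun i => {τ.getD i false}) := by
    ext x
    simp only [Set.mem_ofPred_eq, Set.mem_pi, Finset.coe_range, Set.mem_Iio, Set.mem_singleton_iff]
    constructor
    · rintro h i hi
      have h2 : i < τ.length := by omega
      rw [List.getD_eq_getElem _ _ h2, ← getElem_pre x hi]
      simp only [h]
    · intro h
      refine List.ext_getElem (by rw [length_pre, hτ]) fun i h2 h3 => ?_
      rw [length_pre] at h2
      rw [getElem_pre x h2, h i h2, List.getD_eq_getElem _ _ h3]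
  have h2 : mu {x | pre x m = τ} = (2 : ENNReal)⁻¹ ^ m := by
    rw [h1]
    unfold mu
    rw [Measure.infinitePi_pi _ (fun i _ => MeasurableSet.singleton _)]
    simp
  rw [Measure.real, h2]
  simp

/-- the number of strings of length `m` in `S` -/
noncomputable def cnt (S : Set (List Bool)) (m : ℕ) : ℕ :=
  open Classical in (allS m).countP fun τ => decide (τ ∈ S)

theorem mu_pre (S : Set (List Bool)) (m : ℕ) :
    mu.real {x | pre x m ∈ S} = (cnt S m : ℝ) / 2 ^ m := by
  classical
  let F : Finset (List Bool) := (allS m).toFinset.filter (· ∈ S)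
  have h1 : {x : ℕ → Bool | pre x m ∈ S} = ⋃ τ ∈ F, {x | pre x m = τ} := by
    ext x
    simp only [Set.mem_ofPred_eq, Set.mem_iUnion, exists_prop, F, Finset.mem_filter,
      List.mem_toFinset, mem_allS]
    constructor
    · intro h; exact ⟨pre x m, ⟨length_pre x m, h⟩, rfl⟩
    · rintro ⟨τ, ⟨-, h⟩, rfl⟩; exact h
  have hmeas : ∀ τ, MeasurableSet {x : ℕ → Bool | pre x m = τ} := fun τ =>
    (isClosed_pre m {τ}).measurableSet
  rw [h1, measureReal_biUnion_finset ?_ (fun τ _ => hmeas τ)]
  · have h2 : ∀ τ ∈ F, mu.real {x | pre x m = τ} = (2 : ℝ)⁻¹ ^ m := fun τ hτ =>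
      mu_cylinder (mem_allS.1 (List.mem_toFinset.1 (Finset.mem_filter.1 hτ).1))
    rw [Finset.sum_congr rfl h2, Finset.sum_const, nsmul_eq_mul]
    have h3 : F.card = cnt S m := by
      have h4 : F = ((allS m).filter fun τ => decide (τ ∈ S)).toFinset := by
        ext τ; simp [F]
      rw [h4, List.toFinset_card_of_nodup ((allS_nodup m).filter _)]
      unfold cnt
      rw [List.countP_eq_length_filter]
    rw [h3, inv_pow, div_eq_mul_inv]
  · intro τ _ τ' _ hne
    rw [Function.onFun, Set.disjoint_left]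
    intro x hx hx'
    exact hne (hx.symm.trans hx')

/-- Measures of closed sets given by decreasing conditions on initial segments. -/
theorem mu_tendsto {S : Set (List Bool)} (hS : ∀ σ τ : List Bool, σ <+: τ → τ ∈ S → σ ∈ S) :
    Tendsto (fun m => (cnt S m : ℝ) / 2 ^ m) atTop (𝓝 (mu.real {x | ∀ m, pre x m ∈ S})) ∧
      Antitone (fun m => (cnt S m : ℝ) / 2 ^ m) := by
  have hanti : Antitone fun m => {x : ℕ → Bool | pre x m ∈ S} := by
    intro m n hmn x hx
    refine hS _ _ ?_ hx
    rw [← take_pre x hmn]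
    exact List.take_prefix _ _
  have h1 : {x : ℕ → Bool | ∀ m, pre x m ∈ S} = ⋂ m, {x | pre x m ∈ S} := by
    ext x; simp
  have h2 := tendsto_measure_iInter_atTop (μ := mu)
    (fun m => ((isClosed_pre m S).measurableSet).nullMeasurableSet) hanti ⟨0, measure_ne_top _ _⟩
  constructor
  · have h3 := (ENNReal.tendsto_toReal (measure_ne_top mu _)).comp h2
    rw [← h1] at h3
    refine Tendsto.congr (fun m => ?_) h3
    exact mu_pre S m
  · intro m n hmn
    simp only
    rw [← mu_pre, ← mu_pre]
    exact measureReal_mono (hanti hmn)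

theorem mu_lt_iff {S : Set (List Bool)} (hS : ∀ σ τ : List Bool, σ <+: τ → τ ∈ S → σ ∈ S)
    {q : ℝ} : mu.real {x | ∀ m, pre x m ∈ S} < q ↔ ∃ m, (cnt S m : ℝ) / 2 ^ m < q := by
  obtain ⟨h1, h2⟩ := mu_tendsto hS
  constructor
  · intro h
    exact (h1.eventually (gt_mem_nhds h)).exists
  · rintro ⟨m, hm⟩
    exact lt_of_le_of_lt (h2.le_of_tendsto h1 m) hm

/-- the measure of `Q_b`, for `z = ⟨a, b⟩` -/
noncomputable def al (z : ℕ) : ℝ := mu.real (Q z.unpair.2)

/-- the measure of `Q_a ∩ Q_b`, for `z = ⟨a, b⟩` -/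
noncomputable def be (z : ℕ) : ℝ := mu.real (Q z.unpair.1 ∩ Q z.unpair.2)

theorem Q_eq (e : ℕ) : Q e = {x | ∀ m, pre x m ∈ bU e} := by
  ext x; exact mem_Q

theorem Q_inter (a b : ℕ) : Q a ∩ Q b = {x | ∀ m, pre x m ∈ bU a ∩ bU b} := by
  ext x
  rw [Set.mem_inter_iff, mem_Q, mem_Q]
  exact ⟨fun h m => ⟨h.1 m, h.2 m⟩, fun h => ⟨fun m => (h m).1, fun m => (h m).2⟩⟩

theorem Q_closed (e : ℕ) : IsClosed (Q e) := by
  have : Q e = ⋂ m, {x | pre x m ∈ bU e} := by
    ext x; rw [Q_eq]; simp
  rw [this]
  exact isClosed_iInter fun m => isClosed_pre m _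

theorem mu_df (z : ℕ) : mu.real (df z) = al z - be z := by
  unfold df al be
  rw [Set.inter_comm]
  have h2 := measureReal_inter_add_sdiff (μ := mu) (s := Q z.unpair.2)
    (Q_closed z.unpair.1).measurableSet
  linarith

end Pool.Agent.DPC
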