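import Pool.Agent.DPC.Meas

set_option autoImplicit false

namespace Pool.Agent.DPC

open Nat.Partrec (Code)
open Encodable MeasureTheory Filter Topology

theorem pow_computable : Computable fun m : ℕ => 2 ^ m := by
  have h : Primrec₂ fun a b : ℕ => a ^ b := Primrec₂.unpaired'.1 Nat.Primrec.pow
  exact (h.comp (Primrec.const 2) Primrec.id).to_comp

theorem countP_computable {α β : Type*} [Primcodable α] [Primcodable β] [Inhabited β]
    {f : α × β → Bool} (hf : Computable f) {L : α → List β} (hL : Computable L) :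
    Computable fun a => (L a).countP fun b => f (a, b) := by
  have h1 : Computable fun q : α × ℕ => (q.1, (L q.1).getD q.2 default) :=
    Computable.fst.pair ((Primrec.list_getD default).to_comp.comp (hL.comp Computable.fst)
      Computable.snd)
  have h2 : Computable fun q : α × ℕ => (f (q.1, (L q.1).getD q.2 default)).toNat :=
    (Primrec.dom_finite Bool.toNat).to_comp.comp (hf.comp h1)
  have h3 : Computable₂ fun (a : α) (q : ℕ × ℕ) =>
      q.2 + (f (a, (L a).getD q.1 default)).toNat :=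
    Primrec.nat_add.to_comp.comp (Computable.snd.comp Computable.snd)
      (h2.comp (Computable.fst.pair (Computable.fst.comp Computable.snd)))
  have h4 := Computable.nat_rec (Computable.list_length.comp hL)
    (Computable.const (α := α) (0 : ℕ)) h3
  refine h4.of_eq fun a => ?_
  have key : ∀ n ≤ (L a).length, (Nat.rec (motive := fun _ => ℕ) 0
      (fun y IH => IH + (f (a, (L a).getD y default)).toNat) n : ℕ) =
      ((L a).take n).countP fun b => f (a, b) := by
    intro n
    induction n with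
    | zero => intro _; simp
    | succ n ih =>
      intro hn
      have hn' : n < (L a).length := hn
      rw [List.take_succ_eq_append_getElem hn', List.countP_append, ← ih (by omega)]
      simp only [List.countP_singleton]
      rw [List.getD_eq_getElem _ _ hn']
      cases f (a, (L a)[n]) <;> rfl
  have := key _ le_rfl
  rw [List.take_length] at this
  exact this

theorem cnt_computable {p : ℕ × List Bool → Prop} (hp : ComputablePred p) :
    Computable fun q : ℕ × ℕ => cnt {σ | p (q.1, σ)} q.2 := by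
  obtain ⟨f, hf, h⟩ := cp_iff.1 hp
  have h1 : Computable fun q : (ℕ × ℕ) × List Bool => f (q.1.1, q.2) :=
    hf.comp ((Computable.fst.comp Computable.fst).pair Computable.snd)
  have h2 : Computable fun q : ℕ × ℕ => allS q.2 := allS_primrec.to_comp.comp Computable.snd
  refine (countP_computable h1 h2).of_eq fun q => ?_
  unfold cnt
  congr 1
  funext τ
  have h3 := h (q.1, τ)
  rw [eq_comm]
  classical
  by_cases h4 : p (q.1, τ)
  · simp [h4, h3.1 h4]
  · have h5 : f (q.1, τ) = false := by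
      rw [← Bool.not_eq_true, ← h3]; exact h4
    simp [h4, h5]

/-- `v` is a real-valued function, uniformly approximated from above by a computable sequence. -/
def Upper (v : ℕ → ℝ) : Prop := ∃ N : ℕ × ℕ → ℕ, Computable N ∧
  ∀ z (q : ℝ), v z < q ↔ ∃ m, (N (z, m) : ℝ) / 2 ^ m < q

theorem al_upper : Upper al := by
  have h1 : ComputablePred fun p : ℕ × List Bool => p.2 ∈ bU p.1.unpair.2 := by
    have e : Computable fun p : ℕ × List Bool => (p.1.unpair.2, p.2) :=
      (Computable.snd.comp (Computable.unpair.comp Computable.fst)).pair Computable.snd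
    have := cp_comp bU_cp e
    exact this
  refine ⟨_, cnt_computable h1, fun z q => ?_⟩
  unfold al
  rw [Q_eq]
  exact mu_lt_iff fun σ τ h hτ => bU_of_prefix' h hτ

theorem be_upper : Upper be := by
  have h1 : ComputablePred fun p : ℕ × List Bool => p.2 ∈ bU p.1.unpair.1 ∧ p.2 ∈ bU p.1.unpair.2 := by
    have e : Computable fun p : ℕ × List Bool => (p.1.unpair.2, p.2) :=
      (Computable.snd.comp (Computable.unpair.comp Computable.fst)).pair Computable.snd
    have e' : Computable fun p : ℕ × List Bool => (p.1.unpair.1, p.2) :=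
      (Computable.fst.comp (Computable.unpair.comp Computable.fst)).pair Computable.snd
    have f1 := cp_comp bU_cp e
    have f2 := cp_comp bU_cp e'
    exact cp_and f2 f1
  refine ⟨_, cnt_computable h1, fun z q => ?_⟩
  unfold be
  rw [Q_inter]
  exact mu_lt_iff (S := bU z.unpair.1 ∩ bU z.unpair.2)
    fun σ τ h hτ => ⟨bU_of_prefix' h hτ.1, bU_of_prefix' h hτ.2⟩

theorem al_nonneg (z : ℕ) : 0 ≤ al z := measureReal_nonneg
theorem be_nonneg (z : ℕ) : 0 ≤ be z := measureReal_nonneg
theorem al_le_one (z : ℕ) : al z ≤ 1 := measureReal_le_one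
theorem be_le_one (z : ℕ) : be z ≤ 1 := measureReal_le_one

theorem frac_lt_iff (N C i k f g m : ℕ) :
    (N : ℝ) / 2 ^ m + C < i / (k + 1) + f / (g + 1) ↔
      (N + C * 2 ^ m) * ((k + 1) * (g + 1)) < (i * (g + 1) + f * (k + 1)) * 2 ^ m := by
  have h1 : (N : ℝ) / 2 ^ m + C = (N + C * 2 ^ m) / 2 ^ m := by field_simp
  have h2 : (i : ℝ) / (k + 1) + f / (g + 1) = (i * (g + 1) + f * (k + 1)) / ((k + 1) * (g + 1)) := by
    field_simp
  rw [h1, h2, div_lt_div_iff₀ (by positivity) (by positivity)]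
  exact_mod_cast Iff.rfl

/-- comparison of `v z + C` with `q + δ` is r.e. for `v` approximated from above and `δ` from
below -/
theorem re_compare {v : ℕ → ℝ} (hv : Upper v) {δ : ℝ} (hδ : LeftCE δ) (C : ℕ) :
    REPred fun p : ℕ × (ℕ × ℕ) => v p.1 + C < p.2.1 / (p.2.2 + 1) + δ := by
  obtain ⟨N, hN, hvN⟩ := hv
  obtain ⟨f, g, hf, hg, hlub⟩ := hδ
  have e1 : Computable fun t : ((ℕ × (ℕ × ℕ)) × ℕ) × ℕ => N (t.1.1.1, t.1.2) :=
    hN.comp ((Computable.fst.comp (Computable.fst.comp Computable.fst)).pair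
      (Computable.snd.comp Computable.fst))
  have e2 : Computable fun t : ((ℕ × (ℕ × ℕ)) × ℕ) × ℕ => 2 ^ t.1.2 :=
    pow_computable.comp (Computable.snd.comp Computable.fst)
  have e3 : Computable fun t : ((ℕ × (ℕ × ℕ)) × ℕ) × ℕ => t.1.1.2.1 :=
    Computable.fst.comp (Computable.snd.comp (Computable.fst.comp Computable.fst))
  have e4 : Computable fun t : ((ℕ × (ℕ × ℕ)) × ℕ) × ℕ => t.1.1.2.2 + 1 :=
    Computable.succ.comp (Computable.snd.comp (Computable.snd.comp
      (Computable.fst.comp Computable.fst)))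
  have e5 : Computable fun t : ((ℕ × (ℕ × ℕ)) × ℕ) × ℕ => f t.2 := hf.comp Computable.snd
  have e6 : Computable fun t : ((ℕ × (ℕ × ℕ)) × ℕ) × ℕ => g t.2 + 1 :=
    Computable.succ.comp (hg.comp Computable.snd)
  have add := Primrec.nat_add.to_comp
  have mul := Primrec.nat_mul.to_comp
  have e7 := mul.comp (add.comp e1 (mul.comp (Computable.const C) e2)) (mul.comp e4 e6)
  have e8 := mul.comp (add.comp (mul.comp e3 e6) (mul.comp e5 e4)) e2
  have e9 := re_exists (re_exists (re_cp (cp_lt e7 e8)))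
  refine e9.of_eq fun p => ?_
  constructor
  · rintro ⟨m, t, h⟩
    have h1 := (frac_lt_iff (N (p.1, m)) C p.2.1 p.2.2 (f t) (g t) m).2 h
    have h2 : (f t : ℝ) / (g t + 1) ≤ δ := hlub.1 ⟨t, rfl⟩
    have h3 := (hvN p.1 ((p.2.1 : ℝ) / (p.2.2 + 1) + (f t : ℝ) / (g t + 1) - C)).2
      ⟨m, by linarith⟩
    linarith
  · intro h
    have h1 : v p.1 + C - p.2.1 / (p.2.2 + 1) < δ := by linarith
    obtain ⟨_, ⟨t, rfl⟩, ht⟩ := (lt_isLUB_iff hlub).1 h1
    simp only at ht
    obtain ⟨m, hm⟩ := (hvN p.1 ((p.2.1 : ℝ) / (p.2.2 + 1) + (f t : ℝ) / (g t + 1) - C)).1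
      (by linarith)
    refine ⟨m, t, ?_⟩
    exact (frac_lt_iff (N (p.1, m)) C p.2.1 p.2.2 (f t) (g t) m).1 (by linarith)

theorem exists_frac_btwn {a b : ℝ} (h0 : 0 ≤ a) (h : a < b) :
    ∃ i k : ℕ, a < (i : ℝ) / (k + 1) ∧ (i : ℝ) / (k + 1) < b := by
  obtain ⟨q, h1, h2⟩ := exists_rat_btwn h
  have hq : 0 < q := by
    have : (0 : ℝ) < q := lt_of_le_of_lt h0 h1
    exact_mod_cast this
  have hnum : 0 < q.num := Rat.num_pos.2 hq
  refine ⟨q.num.toNat, q.den - 1, ?_⟩
  have e1 : ((q.num.toNat : ℕ) : ℝ) = (q.num : ℝ) := by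
    have : ((q.num.toNat : ℕ) : ℤ) = q.num := Int.toNat_of_nonneg hnum.le
    exact_mod_cast congrArg (fun z : ℤ => (z : ℝ)) this
  have e2 : ((q.den - 1 : ℕ) : ℝ) + 1 = (q.den : ℝ) := by
    have : (q.den - 1) + 1 = q.den := Nat.sub_add_cancel q.pos
    exact_mod_cast congrArg (fun z : ℕ => (z : ℝ)) this
  have e3 : (q.num : ℝ) / (q.den : ℝ) = (q : ℝ) := by
    exact_mod_cast congrArg (fun z : ℚ => (z : ℝ)) (Rat.num_div_den q)
  rw [e1, e2, e3]
  exact ⟨h1, h2⟩

theorem LeftCE.nonneg {α : ℝ} (h : LeftCE α) : 0 ≤ α := by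
  obtain ⟨f, g, -, -, hlub⟩ := h
  exact le_trans (by positivity) (hlub.1 ⟨0, rfl⟩)

theorem sigma2_compare {v w : ℕ → ℝ} (hv : Upper v) (hw : Upper w) (hv0 : ∀ z, 0 ≤ v z)
    {γ δ : ℝ} (hγ : LeftCE γ) (hδ : LeftCE δ) : SigmaN 2 {z | v z - δ < w z - γ} := by
  obtain ⟨C, hC⟩ := exists_nat_ge δ
  have h1 := re_compare hv hδ C
  have h2 := re_compare hw hγ C
  refine sigma2_of (γ := ℕ × ℕ) h1 h2 fun z => ?_
  simp only [Set.mem_ofPred_eq, not_lt]
  constructor
  · intro h
    obtain ⟨i, k, h3, h4⟩ := exists_frac_btwn (a := v z + C - δ) (b := w z + C - γ)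
      (by have := hv0 z; linarith) (by linarith)
    exact ⟨(i, k), by linarith, by linarith⟩
  · rintro ⟨⟨i, k⟩, h3, h4⟩
    simp only at h3 h4
    linarith

theorem sigma2_mu_gt {r : ℝ} (hr : DCE r) : SigmaN 2 (D fun X => r < mu.real X) := by
  obtain ⟨γ, δ, hγ, hδ, rfl⟩ := hr
  have h := sigma2_compare be_upper al_upper be_nonneg hγ hδ
  have e : (D fun X => γ - δ < mu.real X) = {z | be z - δ < al z - γ} := by
    ext z
    show γ - δ < mu.real (df z) ↔ be z - δ < al z - γ
    rw [mu_df]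
    constructor <;> intro h <;> linarith
  rw [e]; exact h

theorem sigma2_mu_lt {r : ℝ} (hr : DCE r) : SigmaN 2 (D fun X => mu.real X < r) := by
  obtain ⟨γ, δ, hγ, hδ, rfl⟩ := hr
  have h := sigma2_compare al_upper be_upper al_nonneg hδ hγ
  have e : (D fun X => mu.real X < γ - δ) = {z | al z - γ < be z - δ} := by
    ext z
    show mu.real (df z) < γ - δ ↔ al z - γ < be z - δ
    rw [mu_df]
    constructor <;> intro h <;> linarith
  rw [e]; exact h

end Pool.Agent.DPC
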