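import Pool.Agent.DPC.Line

set_option autoImplicit false

namespace Pool.Agent.DPC

open Nat.Partrec (Code)
open Encodable MeasureTheory Filter Topology

theorem sigma2_union {A1 A2 : Set ℕ} (h1 : SigmaN 2 A1) (h2 : SigmaN 2 A2) :
    SigmaN 2 (A1 ∪ A2) := by
  obtain ⟨q1, hq1, H1⟩ := sigma2_iff.1 h1
  obtain ⟨q2, hq2, H2⟩ := sigma2_iff.1 h2
  have e1 : Computable fun p : ℕ × ℕ => p.2 % 2 :=
    Primrec.nat_mod.to_comp.comp Computable.snd (Computable.const 2)
  have e2 : Computable fun p : ℕ × ℕ => (p.1, p.2 / 2) :=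
    Computable.fst.pair (Primrec.nat_div.to_comp.comp Computable.snd (Computable.const 2))
  have e3 := cp_eq e1 (Computable.const 0)
  have e4 := re_or (re_and (re_cp e3) (re_comp hq1 e2)) (re_and (re_cp (cp_not e3)) (re_comp hq2 e2))
  refine sigma2_iff.2 ⟨_, e4, fun x => ?_⟩
  simp only
  constructor
  · rintro (hx | hx)
    · obtain ⟨y, hy⟩ := (H1 x).1 hx
      refine ⟨2 * y, ?_⟩
      rintro (⟨-, h⟩ | ⟨h, -⟩)
      · have : 2 * y / 2 = y := by omega
        rw [this] at h
        exact hy h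
      · exact h (by omega)
    · obtain ⟨y, hy⟩ := (H2 x).1 hx
      refine ⟨2 * y + 1, ?_⟩
      rintro (⟨h, -⟩ | ⟨-, h⟩)
      · omega
      · have : (2 * y + 1) / 2 = y := by omega
        rw [this] at h
        exact hy h
  · rintro ⟨y, hy⟩
    rw [not_or] at hy
    obtain ⟨h3, h4⟩ := hy
    by_cases h5 : y % 2 = 0
    · exact Or.inl ((H1 x).2 ⟨_, fun h => h3 ⟨h5, h⟩⟩)
    · exact Or.inr ((H2 x).2 ⟨_, fun h => h4 ⟨h5, h⟩⟩)

theorem complete_mu_gt {r : ℝ} (hr : DCE r) (h0 : 0 ≤ r) (h1 : r < 1) :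
    Complete (SigmaN 2) (D fun X => r < mu.real X) := by
  refine ⟨sigma2_mu_gt hr, fun A hA => ?_⟩
  obtain ⟨g, hg, h⟩ := hard_plus hr h0 h1 hA
  refine ⟨g, hg, fun n => ?_⟩
  obtain ⟨a, ha0, ha, hmu⟩ := h n
  show n ∈ A ↔ r < mu.real (df (g n))
  rw [hmu, ← ha]
  constructor <;> intro h <;> linarith

theorem complete_mu_lt {r : ℝ} (hr : DCE r) (h0 : 0 < r) (h1 : r ≤ 1) :
    Complete (SigmaN 2) (D fun X => mu.real X < r) := by
  refine ⟨sigma2_mu_lt hr, fun A hA => ?_⟩
  obtain ⟨g, hg, h⟩ := hard_minus hr h0 h1 hA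
  refine ⟨g, hg, fun n => ?_⟩
  obtain ⟨a, ha0, ha, hmu⟩ := h n
  show n ∈ A ↔ mu.real (df (g n)) < r
  rw [hmu, ← ha]
  constructor <;> intro h <;> linarith

theorem complete_mu_le {r : ℝ} (hr : DCE r) (h0 : 0 ≤ r) (h1 : r < 1) :
    Complete (PiN 2) (D fun X => mu.real X ≤ r) := by
  have h := complete_compl (complete_mu_gt hr h0 h1)
  rw [D_compl] at h
  have e : (D fun X => mu.real X ≤ r) = D fun X => ¬ r < mu.real X := D_congr fun X => not_lt.symm
  rw [e]; exact h

theorem complete_mu_ge {r : ℝ} (hr : DCE r) (h0 : 0 < r) (h1 : r ≤ 1) :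
    Complete (PiN 2) (D fun X => r ≤ mu.real X) := by
  have h := complete_compl (complete_mu_lt hr h0 h1)
  rw [D_compl] at h
  have e : (D fun X => r ≤ mu.real X) = D fun X => ¬ mu.real X < r := D_congr fun X => not_lt.symm
  rw [e]; exact h

theorem complete_mu_eq {r : ℝ} (hr : DCE r) (h0 : 0 ≤ r) (h1 : r ≤ 1) :
    Complete (PiN 2) (D fun X => mu.real X = r) := by
  constructor
  · show SigmaN 2 (D fun X => mu.real X = r)ᶜ
    have h := sigma2_union (sigma2_mu_lt hr) (sigma2_mu_gt hr)
    have e : (D fun X => mu.real X = r)ᶜ =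
        (D fun X => mu.real X < r) ∪ (D fun X => r < mu.real X) := by
      ext z
      show ¬ (mu.real (df z) = r) ↔ (mu.real (df z) < r ∨ r < mu.real (df z))
      exact lt_or_lt_iff_ne.symm
    rw [e]; exact h
  · intro B hB
    have hB' : SigmaN 2 Bᶜ := hB
    rcases lt_or_eq_of_le h1 with h2 | h2
    · obtain ⟨g, hg, h⟩ := hard_plus hr h0 h2 hB'
      refine ⟨g, hg, fun n => ?_⟩
      obtain ⟨a, ha0, ha, hmu⟩ := h n
      show n ∈ B ↔ mu.real (df (g n)) = r
      rw [hmu]
      constructor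
      · intro hn
        have : ¬ 0 < a := fun h => (ha.1 h) hn
        linarith
      · intro h
        by_contra hn
        have := ha.2 hn
        linarith
    · obtain ⟨g, hg, h⟩ := hard_minus hr (by linarith) h1 hB'
      refine ⟨g, hg, fun n => ?_⟩
      obtain ⟨a, ha0, ha, hmu⟩ := h n
      show n ∈ B ↔ mu.real (df (g n)) = r
      rw [hmu]
      constructor
      · intro hn
        have : ¬ 0 < a := fun h => (ha.1 h) hn
        linarith
      · intro h
        by_contra hn
        have := ha.2 hn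
        linarith

/-! ### Reals given by their digits -/

theorem summable_digits (A : Set ℕ) :
    Summable fun i => A.indicator (fun i => (1 / 2 : ℝ) ^ (i + 1)) i := by
  refine Summable.indicator ?_ A
  have h : Summable fun i : ℕ => (1 / 2 : ℝ) ^ i := summable_geometric_two
  exact (summable_nat_add_iff 1).2 h

theorem digitReal_compl (A : Set ℕ) : digitReal A + digitReal Aᶜ = 1 := by
  unfold digitReal
  rw [← (summable_digits A).tsum_add (summable_digits Aᶜ)]
  have h1 : (fun i => A.indicator (fun i => (1 / 2 : ℝ) ^ (i + 1)) i +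
      Aᶜ.indicator (fun i => (1 / 2 : ℝ) ^ (i + 1)) i) = fun i : ℕ => (1 / 2 : ℝ) ^ (i + 1) := by
    funext i
    exact congrFun (Set.indicator_self_add_compl A _) i
  rw [h1]
  have h2 : (fun i : ℕ => (1 / 2 : ℝ) ^ (i + 1)) = fun i : ℕ => (1 / 2 : ℝ) * (1 / 2) ^ i := by
    funext i; rw [pow_succ, mul_comm]
  rw [h2, tsum_mul_left, tsum_geometric_two]
  norm_num

theorem digit_nonneg (A : Set ℕ) (i : ℕ) : 0 ≤ A.indicator (fun i => (1 / 2 : ℝ) ^ (i + 1)) i :=
  Set.indicator_nonneg (fun i _ => by positivity) i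

theorem leftCE_digitReal {A : Set ℕ} (hA : REPred (· ∈ A)) : LeftCE (digitReal A) := by
  obtain ⟨R, hR, hAR⟩ := re_iff.1 hA
  have hcp : ComputablePred fun q : ℕ × ℕ => ∃ t < q.1, R (q.2, t) := by
    have e1 : Computable fun q : (ℕ × ℕ) × ℕ => (q.1.2, q.2) :=
      (Computable.snd.comp Computable.fst).pair Computable.snd
    have e2 := cp_comp hR e1
    have e3 : Computable fun q : ℕ × ℕ => q.1 := Computable.fst
    exact cp_exists_lt e2 e3
  obtain ⟨c, hc, hcR⟩ := cp_iff.1 hcp
  let F : ℕ → ℕ → ℕ := fun s k => Nat.rec (motive := fun _ => ℕ) 0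
    (fun i acc => 2 * acc + (c (s, i)).toNat) k
  have hF : ∀ s k : ℕ, (Nat.cast (F s k) : ℝ) / 2 ^ k =
      ∑ i ∈ Finset.range k, (if c (s, i) = true then (1 / 2 : ℝ) ^ (i + 1) else 0) := by
    intro s k
    induction k with
    | zero => simp [F]
    | succ k ih =>
      rw [Finset.sum_range_succ, ← ih]
      have e : F s (k + 1) = 2 * F s k + (c (s, k)).toNat := rfl
      rw [e]
      push_cast
      cases hck : c (s, k)
      · simp
        field_simp
        ring
      · simp
        field_simp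
        ring
  have hcomp : Computable fun s => F s s := by
    have h3 : Computable₂ fun (s : ℕ) (q : ℕ × ℕ) => 2 * q.2 + (c (s, q.1)).toNat :=
      Primrec.nat_add.to_comp.comp (Primrec.nat_mul.to_comp.comp (Computable.const 2)
        (Computable.snd.comp Computable.snd)) ((Primrec.dom_finite Bool.toNat).to_comp.comp
          (hc.comp (Computable.fst.pair (Computable.fst.comp Computable.snd))))
    exact Computable.nat_rec Computable.id (Computable.const 0) h3
  have hg : Computable fun s : ℕ => 2 ^ s - 1 :=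
    Primrec.nat_sub.to_comp.comp pow_computable (Computable.const 1)
  have hg1 : ∀ s : ℕ, ((2 ^ s - 1 : ℕ) : ℝ) + 1 = 2 ^ s := by
    intro s
    have : (2 ^ s - 1) + 1 = 2 ^ s := Nat.sub_add_cancel (Nat.one_le_two_pow)
    exact_mod_cast this
  have hcA : ∀ s i, c (s, i) = true → i ∈ A := by
    intro s i h
    obtain ⟨t, -, ht⟩ := (hcR (s, i)).2 h
    exact (hAR i).2 ⟨t, ht⟩
  refine ⟨fun s => F s s, fun s => 2 ^ s - 1, hcomp, hg, ?_, ?_⟩
  · rintro _ ⟨s, rfl⟩
    simp only
    rw [hg1, hF]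
    refine le_trans ?_ ((summable_digits A).sum_le_tsum (Finset.range s)
      (fun i _ => digit_nonneg A i))
    refine Finset.sum_le_sum fun i _ => ?_
    split_ifs with h
    · rw [Set.indicator_of_mem (hcA s i h)]
    · exact digit_nonneg A i
  · intro u hu
    refine Real.tsum_le_of_sum_range_le (digit_nonneg A) fun k => ?_
    -- find a stage
    have hs : ∀ k, ∃ s0, ∀ i < k, i ∈ A → ∃ t < s0, R (i, t) := by
      intro k
      induction k with
      | zero => exact ⟨0, fun i hi => absurd hi (by omega)⟩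
      | succ k ih =>
        obtain ⟨s0, hs0⟩ := ih
        by_cases hk : k ∈ A
        · obtain ⟨t, ht⟩ := (hAR k).1 hk
          refine ⟨max s0 (t + 1), fun i hi hiA => ?_⟩
          rcases Nat.lt_succ_iff_lt_or_eq.1 hi with h' | rfl
          · obtain ⟨t', ht', hR'⟩ := hs0 i h' hiA
            exact ⟨t', lt_of_lt_of_le ht' (le_max_left _ _), hR'⟩
          · exact ⟨t, lt_of_lt_of_le (Nat.lt_succ_self _) (le_max_right _ _), ht⟩
        · refine ⟨s0, fun i hi hiA => ?_⟩
          rcases Nat.lt_succ_iff_lt_or_eq.1 hi with h' | rfl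
          · exact hs0 i h' hiA
          · exact absurd hiA hk
    obtain ⟨s0, hs0⟩ := hs k
    have h1 := hu ⟨max s0 k, rfl⟩
    simp only at h1
    rw [hg1, hF] at h1
    refine le_trans ?_ h1
    have hsub : Finset.range k ⊆ Finset.range (max s0 k) :=
      Finset.range_mono (le_max_right _ _)
    refine le_trans ?_ (Finset.sum_le_sum_of_subset_of_nonneg hsub fun i _ _ => ?_)
    · refine Finset.sum_le_sum fun i hi => ?_
      by_cases hiA : i ∈ A
      · rw [Set.indicator_of_mem hiA]
        obtain ⟨t, ht, hRt⟩ := hs0 i (Finset.mem_range.1 hi) hiA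
        have : c (max s0 k, i) = true :=
          (hcR _).1 ⟨t, lt_of_lt_of_le ht (le_max_left _ _), hRt⟩
        rw [if_pos this]
      · rw [Set.indicator_of_notMem hiA]
        split_ifs <;> positivity
    · split_ifs <;> positivity

theorem leftCE_one : LeftCE 1 := by
  have := leftCE_of_const (i := 1) (k := 0)
  simpa using this

theorem leftCE_zero : LeftCE 0 := by
  have := leftCE_of_const (i := 0) (k := 0)
  simpa using this

/-- reals with computable, c.e. or co-c.e. digit set are d.c.e. -/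
theorem dce_digitReal {A : Set ℕ} (hA : SigmaN 0 A ∨ SigmaN 1 A ∨ PiN 1 A) : DCE (digitReal A) := by
  rcases hA with hA | hA | hA
  · have hA' : ComputablePred (· ∈ A) := hA
    exact ⟨_, 0, leftCE_digitReal hA'.to_re, leftCE_zero, by ring⟩
  · exact ⟨_, 0, leftCE_digitReal (sigma1_iff.1 hA), leftCE_zero, by ring⟩
  · refine ⟨1, _, leftCE_one, leftCE_digitReal (sigma1_iff.1 hA), ?_⟩
    have := digitReal_compl A
    linarith

end Pool.Agent.DPC
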