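import Pool.Agent.DPC.Meas3

set_option autoImplicit false

namespace Pool.Agent.DPC

open Nat.Partrec (Code)
open Encodable MeasureTheory Filter Topology

/-- the graph of the universal partial computable function is r.e. -/
theorem re_graph : REPred fun p : (ℕ × ℕ) × ℕ =>
    p.2 ∈ Code.eval (Denumerable.ofNat Code p.1.1) p.1.2 := by
  refine re_iff.2 ⟨fun q => Code.evaln q.2 (Denumerable.ofNat Code q.1.1.1) q.1.1.2 = some q.1.2,
    ?_, fun p => Code.evaln_complete⟩
  have e1 : Computable fun q : ((ℕ × ℕ) × ℕ) × ℕ =>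
      Code.evaln q.2 (Denumerable.ofNat Code q.1.1.1) q.1.1.2 :=
    Code.primrec_evaln.to_comp.comp ((Computable.snd.pair ((Computable.ofNat Code).comp
      (Computable.fst.comp (Computable.fst.comp Computable.fst)))).pair
        (Computable.snd.comp (Computable.fst.comp Computable.fst)))
  have e2 : Computable fun q : ((ℕ × ℕ) × ℕ) × ℕ => (some q.1.2 : Option ℕ) :=
    Computable.option_some.comp (Computable.snd.comp Computable.fst)
  exact cp_eq e1 e2

theorem computable_index {f : ℕ → ℕ} (hf : Computable f) :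
    ∃ e : ℕ, ∀ m n, n ∈ Code.eval (Denumerable.ofNat Code e) m ↔ n = f m := by
  have h1 : Nat.Partrec fun n => Part.some (f n) := by
    have := hf.partrec
    exact Partrec.nat_iff.1 this
  obtain ⟨c, hc⟩ := Code.exists_code.1 h1
  refine ⟨encode c, fun m n => ?_⟩
  rw [Denumerable.ofNat_encode, hc]
  exact Part.mem_some_iff

/-- If the sets `v a < v b` and `v b < v a + 1/(u+1)` are uniformly `Σ⁰₂` and `{z | r < v z}` is
`Σ⁰₂`-hard, then `r` is a value of `v`. -/
theorem value_of_hard {v : ℕ → ℝ} {r : ℝ}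
    (h1 : SigmaN 2 {n | v n.unpair.1 < v n.unpair.2})
    (h2 : SigmaN 2 {n | v n.unpair.1.unpair.2 < v n.unpair.1.unpair.1 + 1 / ((n.unpair.2 : ℝ) + 1)})
    (hard : Hard (SigmaN 2) {z | r < v z}) : ∃ z, v z = r := by
  classical
  obtain ⟨q1, hq1, H1⟩ := sigma2_iff.1 h1
  obtain ⟨q2, hq2, H2⟩ := sigma2_iff.1 h2
  -- graph predicate
  let Gr : ℕ → ℕ → ℕ → ℕ → Prop := fun e u a b =>
    a ∈ Code.eval (Denumerable.ofNat Code e) (Nat.pair e 0) ∧
      b ∈ Code.eval (Denumerable.ofNat Code e) (Nat.pair e (u + 1))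
  let P1 : Set ℕ := {n | ∃ c : ℕ × ℕ × ℕ, Gr n.unpair.1 n.unpair.2 c.1 c.2.1 ∧
    ¬ q1 (Nat.pair c.1 c.2.1, c.2.2)}
  let P2 : Set ℕ := {n | ∃ c : ℕ × ℕ × ℕ, Gr n.unpair.1 n.unpair.2 c.1 c.2.1 ∧
    ¬ q2 (Nat.pair (Nat.pair c.1 c.2.1) n.unpair.2, c.2.2)}
  have hGr : REPred fun p : ℕ × (ℕ × ℕ × ℕ) => Gr p.1.unpair.1 p.1.unpair.2 p.2.1 p.2.2.1 := by
    have a1 : Computable fun p : ℕ × (ℕ × ℕ × ℕ) =>
        ((p.1.unpair.1, Nat.pair p.1.unpair.1 0), p.2.1) := by
      have e : Computable fun p : ℕ × (ℕ × ℕ × ℕ) => p.1.unpair.1 :=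
        Computable.fst.comp (Computable.unpair.comp Computable.fst)
      exact (e.pair (pair_computable.comp e (Computable.const 0))).pair
        (Computable.fst.comp Computable.snd)
    have a2 : Computable fun p : ℕ × (ℕ × ℕ × ℕ) =>
        ((p.1.unpair.1, Nat.pair p.1.unpair.1 (p.1.unpair.2 + 1)), p.2.2.1) := by
      have e : Computable fun p : ℕ × (ℕ × ℕ × ℕ) => p.1.unpair.1 :=
        Computable.fst.comp (Computable.unpair.comp Computable.fst)
      have e' : Computable fun p : ℕ × (ℕ × ℕ × ℕ) => p.1.unpair.2 + 1 :=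
        Computable.succ.comp (Computable.snd.comp (Computable.unpair.comp Computable.fst))
      exact (e.pair (pair_computable.comp e e')).pair
        (Computable.fst.comp (Computable.snd.comp Computable.snd))
    have b1 := re_comp re_graph a1
    have b2 := re_comp re_graph a2
    exact re_and b1 b2
  have hP1 : SigmaN 2 P1 := by
    have a1 : Computable fun p : ℕ × (ℕ × ℕ × ℕ) => (Nat.pair p.2.1 p.2.2.1, p.2.2.2) :=
      (pair_computable.comp (Computable.fst.comp Computable.snd)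
        (Computable.fst.comp (Computable.snd.comp Computable.snd))).pair
        (Computable.snd.comp (Computable.snd.comp Computable.snd))
    have b1 := re_comp hq1 a1
    exact sigma2_of hGr b1 fun n => Iff.rfl
  have hP2 : SigmaN 2 P2 := by
    have a1 : Computable fun p : ℕ × (ℕ × ℕ × ℕ) =>
        (Nat.pair (Nat.pair p.2.1 p.2.2.1) p.1.unpair.2, p.2.2.2) :=
      (pair_computable.comp (pair_computable.comp (Computable.fst.comp Computable.snd)
        (Computable.fst.comp (Computable.snd.comp Computable.snd)))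
        (Computable.snd.comp (Computable.unpair.comp Computable.fst))).pair
        (Computable.snd.comp (Computable.snd.comp Computable.snd))
    have b1 := re_comp hq2 a1
    exact sigma2_of hGr b1 fun n => Iff.rfl
  obtain ⟨p1, hp1, G1⟩ := sigma2_iff.1 hP1
  obtain ⟨p2, hp2, G2⟩ := sigma2_iff.1 hP2
  -- the reduced sets
  let A : Set ℕ := {n | ∃ w, (∀ i < w + 1, p2 (n, i)) ∧ ¬ p1 (n, w)}
  let B : Set ℕ := {n | ∃ w, (∀ i < w, p1 (n, i)) ∧ ¬ p2 (n, w)}
  have hdisj : ∀ n, n ∈ A → n ∉ B := by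
    rintro n ⟨w, hw1, hw2⟩ ⟨w', hw1', hw2'⟩
    rcases lt_or_ge w w' with h | h
    · exact hw2 (hw1' w h)
    · exact hw2' (hw1 w' (by omega))
  have hcover : ∀ n, n ∈ P1 ∪ P2 → n ∈ A ∨ n ∈ B := by
    intro n hn
    have hex : ∃ w, ¬ p1 (n, w) ∨ ¬ p2 (n, w) := by
      rcases hn with hn | hn
      · obtain ⟨w, hw⟩ := (G1 n).1 hn; exact ⟨w, Or.inl hw⟩
      · obtain ⟨w, hw⟩ := (G2 n).1 hn; exact ⟨w, Or.inr hw⟩
    have hmin : ∀ i < Nat.find hex, p1 (n, i) ∧ p2 (n, i) := by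
      intro i hi
      have := Nat.find_min hex hi
      rw [not_or, not_not, not_not] at this
      exact this
    by_cases h : p2 (n, Nat.find hex)
    · left
      refine ⟨Nat.find hex, fun i hi => ?_, ?_⟩
      · rcases Nat.lt_succ_iff_lt_or_eq.1 hi with h' | h'
        · exact (hmin i h').2
        · rw [h']; exact h
      · rcases Nat.find_spec hex with h' | h'
        · exact h'
        · exact absurd h h'
    · exact Or.inr ⟨Nat.find hex, fun i hi => (hmin i hi).1, h⟩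
  have hA1 : ∀ n ∈ A, n ∈ P1 := fun n ⟨w, _, hw⟩ => (G1 n).2 ⟨w, hw⟩
  have hB2 : ∀ n ∈ B, n ∈ P2 := fun n ⟨w, _, hw⟩ => (G2 n).2 ⟨w, hw⟩
  -- the set `S`
  let S1 : Set ℕ := {m | m.unpair.2 = 0 ∧ ∃ u, Nat.pair m.unpair.1 u ∈ A}
  let S2 : Set ℕ := {m | ¬ m.unpair.2 = 0 ∧ Nat.pair m.unpair.1 (m.unpair.2 - 1) ∈ B}
  have hS1 : SigmaN 2 S1 := by
    have f1 : Computable fun p : (ℕ × (ℕ × ℕ)) × ℕ => (Nat.pair p.1.1.unpair.1 p.1.2.1, p.2) :=
      (pair_computable.comp (Computable.fst.comp (Computable.unpair.comp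
        (Computable.fst.comp Computable.fst))) (Computable.fst.comp
          (Computable.snd.comp Computable.fst))).pair Computable.snd
    have f2 : Computable fun p : ℕ × (ℕ × ℕ) => p.2.2 + 1 :=
      Computable.succ.comp (Computable.snd.comp Computable.snd)
    have f3 := re_forall_lt (re_comp hp2 f1) f2
    have f4 : Computable fun p : ℕ × (ℕ × ℕ) => p.1.unpair.2 :=
      Computable.snd.comp (Computable.unpair.comp Computable.fst)
    have f5 := re_and (re_cp (cp_eq f4 (Computable.const 0))) f3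
    have f6 : Computable fun p : ℕ × (ℕ × ℕ) => (Nat.pair p.1.unpair.1 p.2.1, p.2.2) :=
      (pair_computable.comp (Computable.fst.comp (Computable.unpair.comp Computable.fst))
        (Computable.fst.comp Computable.snd)).pair (Computable.snd.comp Computable.snd)
    have f7 := re_comp hp1 f6
    refine sigma2_of f5 f7 fun m => ?_
    constructor
    · rintro ⟨h0, u, w, hw1, hw2⟩
      exact ⟨(u, w), ⟨h0, hw1⟩, hw2⟩
    · rintro ⟨⟨u, w⟩, ⟨h0, hw1⟩, hw2⟩
      exact ⟨h0, u, w, hw1, hw2⟩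
  have hS2 : SigmaN 2 S2 := by
    have g0 : Computable fun m : ℕ => Nat.pair m.unpair.1 (m.unpair.2 - 1) :=
      pair_computable.comp (Computable.fst.comp Computable.unpair)
        (Primrec.nat_sub.to_comp.comp (Computable.snd.comp Computable.unpair) (Computable.const 1))
    have f1 : Computable fun p : (ℕ × ℕ) × ℕ =>
        (Nat.pair p.1.1.unpair.1 (p.1.1.unpair.2 - 1), p.2) :=
      (g0.comp (Computable.fst.comp Computable.fst)).pair Computable.snd
    have f2 : Computable fun p : ℕ × ℕ => p.2 := Computable.snd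
    have f3 := re_forall_lt (re_comp hp1 f1) f2
    have f4 : Computable fun p : ℕ × ℕ => p.1.unpair.2 :=
      Computable.snd.comp (Computable.unpair.comp Computable.fst)
    have f5 := re_and (re_cp (cp_not (cp_eq f4 (Computable.const 0)))) f3
    have f6 : Computable fun p : ℕ × ℕ => (Nat.pair p.1.unpair.1 (p.1.unpair.2 - 1), p.2) :=
      (g0.comp Computable.fst).pair Computable.snd
    have f7 := re_comp hp2 f6
    refine sigma2_of f5 f7 fun m => ?_
    constructor
    · rintro ⟨h0, w, hw1, hw2⟩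
      exact ⟨w, ⟨h0, hw1⟩, hw2⟩
    · rintro ⟨w, ⟨h0, hw1⟩, hw2⟩
      exact ⟨h0, w, hw1, hw2⟩
  obtain ⟨f, hf, hfS⟩ := hard (S1 ∪ S2) (sigma2_union hS1 hS2)
  have hfS' : ∀ m, m ∈ S1 ∪ S2 ↔ r < v (f m) := hfS
  obtain ⟨e, he⟩ := computable_index hf
  have hx : Nat.pair e 0 ∈ S1 ∪ S2 ↔ ∃ u, Nat.pair e u ∈ A := by
    simp only [S1, S2, Set.mem_union, Set.mem_ofPred_eq, Nat.unpair_pair]
    simp
  have hz : ∀ u, Nat.pair e (u + 1) ∈ S1 ∪ S2 ↔ Nat.pair e u ∈ B := by
    intro u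
    simp only [S1, S2, Set.mem_union, Set.mem_ofPred_eq, Nat.unpair_pair]
    simp
  have hPP1 : ∀ u, Nat.pair e u ∈ P1 ↔ v (f (Nat.pair e 0)) < v (f (Nat.pair e (u + 1))) := by
    intro u
    have hq : ∀ a b : ℕ, v a < v b ↔ ∃ w, ¬ q1 (Nat.pair a b, w) := by
      intro a b
      have := H1 (Nat.pair a b)
      simp only [Set.mem_ofPred_eq, Nat.unpair_pair] at this
      exact this
    rw [hq]
    simp only [P1, Gr, Set.mem_ofPred_eq, Nat.unpair_pair, he]
    constructor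
    · rintro ⟨⟨a, b, w⟩, ⟨rfl, rfl⟩, h⟩
      exact ⟨w, h⟩
    · rintro ⟨w, h⟩
      exact ⟨(_, _, w), ⟨rfl, rfl⟩, h⟩
  have hPP2 : ∀ u, Nat.pair e u ∈ P2 ↔
      v (f (Nat.pair e (u + 1))) < v (f (Nat.pair e 0)) + 1 / ((u : ℝ) + 1) := by
    intro u
    have hq : ∀ a b : ℕ, v b < v a + 1 / ((u : ℝ) + 1) ↔
        ∃ w, ¬ q2 (Nat.pair (Nat.pair a b) u, w) := by
      intro a b
      have := H2 (Nat.pair (Nat.pair a b) u)
      simp only [Set.mem_ofPred_eq, Nat.unpair_pair] at this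
      exact this
    rw [hq]
    simp only [P2, Gr, Set.mem_ofPred_eq, Nat.unpair_pair, he]
    constructor
    · rintro ⟨⟨a, b, w⟩, ⟨rfl, rfl⟩, h⟩
      exact ⟨w, h⟩
    · rintro ⟨w, h⟩
      exact ⟨(_, _, w), ⟨rfl, rfl⟩, h⟩
  have hxS : Nat.pair e 0 ∉ S1 ∪ S2 := by
    intro hmem
    have h3 := (hfS' _).1 hmem
    obtain ⟨u, hu⟩ := hx.1 hmem
    have h4 := (hPP1 u).1 (hA1 _ hu)
    have h5 := (hfS' (Nat.pair e (u + 1))).2 (h3.trans h4)
    exact hdisj _ hu ((hz u).1 h5)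
  have hxA : ∀ u, Nat.pair e u ∉ A := fun u hu => hxS (hx.2 ⟨u, hu⟩)
  have hzB : ∀ u, Nat.pair e u ∈ B := by
    intro u
    have hpos : (0 : ℝ) < 1 / ((u : ℝ) + 1) := by positivity
    have : Nat.pair e u ∈ P1 ∪ P2 := by
      rcases lt_or_ge (v (f (Nat.pair e 0))) (v (f (Nat.pair e (u + 1)))) with h | h
      · exact Or.inl ((hPP1 u).2 h)
      · exact Or.inr ((hPP2 u).2 (by linarith))
    rcases hcover _ this with h | h
    · exact absurd h (hxA u)
    · exact h
  refine ⟨f (Nat.pair e 0), le_antisymm ?_ ?_⟩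
  · exact not_lt.1 fun h => hxS ((hfS' _).2 h)
  · have h6 : ∀ u : ℕ, r < v (f (Nat.pair e 0)) + 1 / ((u : ℝ) + 1) := by
      intro u
      have h7 := (hfS' _).1 ((hz u).2 (hzB u))
      have h8 := (hPP2 u).1 (hB2 _ (hzB u))
      exact h7.trans h8
    have h9 : Tendsto (fun u : ℕ => v (f (Nat.pair e 0)) + 1 / ((u : ℝ) + 1)) atTop
        (𝓝 (v (f (Nat.pair e 0)) + 0)) :=
      tendsto_const_nhds.add tendsto_one_div_add_atTop_nhds_zero_nat
    rw [add_zero] at h9
    exact ge_of_tendsto' h9 fun u => (h6 u).le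

end Pool.Agent.DPC
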