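import Pool.Agent.DPC.Non

set_option autoImplicit false

namespace Pool.Agent.DPC

open Nat.Partrec (Code)
open Encodable MeasureTheory Filter Topology

theorem Upper.comp {v : ℕ → ℝ} (hv : Upper v) {g : ℕ → ℕ} (hg : Computable g) :
    Upper fun n => v (g n) := by
  obtain ⟨N, hN, h⟩ := hv
  refine ⟨fun p => N (g p.1, p.2), hN.comp ((hg.comp Computable.fst).pair Computable.snd),
    fun z q => h (g z) q⟩

theorem Upper.add {v w : ℕ → ℝ} (hv : Upper v) (hw : Upper w) : Upper fun n => v n + w n := by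
  obtain ⟨N, hN, h⟩ := hv
  obtain ⟨M, hM, h'⟩ := hw
  have add := Primrec.nat_add.to_comp
  have mul := Primrec.nat_mul.to_comp
  have sub := Primrec.nat_sub.to_comp
  have u1 : Computable fun p : ℕ × ℕ => p.2.unpair.1 :=
    Computable.fst.comp (Computable.unpair.comp Computable.snd)
  have u2 : Computable fun p : ℕ × ℕ => p.2.unpair.2 :=
    Computable.snd.comp (Computable.unpair.comp Computable.snd)
  have c : Computable fun p : ℕ × ℕ => N (p.1, p.2.unpair.1) * 2 ^ (p.2 - p.2.unpair.1) +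
      M (p.1, p.2.unpair.2) * 2 ^ (p.2 - p.2.unpair.2) :=
    add.comp (mul.comp (hN.comp (Computable.fst.pair u1))
      (pow_computable.comp (sub.comp Computable.snd u1)))
      (mul.comp (hM.comp (Computable.fst.pair u2)) (pow_computable.comp (sub.comp Computable.snd u2)))
  have key : ∀ z m1 m2 : ℕ, ((N (z, m1) * 2 ^ (Nat.pair m1 m2 - m1) +
      M (z, m2) * 2 ^ (Nat.pair m1 m2 - m2) : ℕ) : ℝ) / 2 ^ (Nat.pair m1 m2) =
      (N (z, m1) : ℝ) / 2 ^ m1 + (M (z, m2) : ℝ) / 2 ^ m2 := by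
    intro z m1 m2
    have e1 : (2 : ℝ) ^ (Nat.pair m1 m2) = 2 ^ (Nat.pair m1 m2 - m1) * 2 ^ m1 := by
      rw [← pow_add, Nat.sub_add_cancel (Nat.left_le_pair _ _)]
    have e2 : (2 : ℝ) ^ (Nat.pair m1 m2) = 2 ^ (Nat.pair m1 m2 - m2) * 2 ^ m2 := by
      rw [← pow_add, Nat.sub_add_cancel (Nat.right_le_pair _ _)]
    push_cast
    rw [add_div]
    congr 1
    · rw [e1]; field_simp
    · rw [e2]; field_simp
  refine ⟨_, c, fun z q => ?_⟩
  simp only
  constructor
  · intro hlt
    have h1 := (h z (v z + (q - v z - w z) / 2)).1 (by linarith)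
    have h2 := (h' z (w z + (q - v z - w z) / 2)).1 (by linarith)
    obtain ⟨m1, hm1⟩ := h1
    obtain ⟨m2, hm2⟩ := h2
    refine ⟨Nat.pair m1 m2, ?_⟩
    rw [Nat.unpair_pair]
    simp only
    rw [key]
    linarith
  · rintro ⟨m, hm⟩
    rw [← Nat.pair_unpair m] at hm
    rw [Nat.unpair_pair] at hm
    simp only at hm
    rw [key] at hm
    have h3 : v z ≤ (N (z, m.unpair.1) : ℝ) / 2 ^ m.unpair.1 := by
      by_contra hcon
      exact lt_irrefl _ ((h z (v z)).2 ⟨_, not_le.1 hcon⟩)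
    have h4 : w z ≤ (M (z, m.unpair.2) : ℝ) / 2 ^ m.unpair.2 := by
      by_contra hcon
      exact lt_irrefl _ ((h' z (w z)).2 ⟨_, not_le.1 hcon⟩)
    linarith

theorem upper_inv : Upper fun n => 1 / ((n : ℝ) + 1) := by
  have c : Computable fun p : ℕ × ℕ => (2 ^ p.2 + p.1) / (p.1 + 1) :=
    Primrec.nat_div.to_comp.comp (Primrec.nat_add.to_comp.comp
      (pow_computable.comp Computable.snd) Computable.fst) (Computable.succ.comp Computable.fst)
  refine ⟨_, c, fun z q => ?_⟩
  simp only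
  have hp : ∀ m : ℕ, (0 : ℝ) < 2 ^ m := fun m => by positivity
  have hz : (0 : ℝ) < (z : ℝ) + 1 := by positivity
  have lo : ∀ m : ℕ, 1 / ((z : ℝ) + 1) ≤ (((2 ^ m + z) / (z + 1) : ℕ) : ℝ) / 2 ^ m := by
    intro m
    rw [div_le_div_iff₀ hz (hp m), one_mul]
    have h1 : 2 ^ m ≤ ((2 ^ m + z) / (z + 1)) * (z + 1) := by
      have h2 := Nat.div_add_mod (2 ^ m + z) (z + 1)
      have h3 := Nat.mod_lt (2 ^ m + z) (Nat.succ_pos z)
      have h4 : (z + 1) * ((2 ^ m + z) / (z + 1)) = ((2 ^ m + z) / (z + 1)) * (z + 1) := mul_comm _ _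
      have h5 : (2 ^ m + z) % (z + 1) ≤ z := Nat.lt_succ_iff.1 h3
      omega
    exact_mod_cast h1
  have hi : ∀ m : ℕ, (((2 ^ m + z) / (z + 1) : ℕ) : ℝ) / 2 ^ m ≤ 1 / ((z : ℝ) + 1) + (1 / 2) ^ m := by
    intro m
    have h1 : (((2 ^ m + z) / (z + 1) : ℕ) : ℝ) ≤ ((2 ^ m + z : ℕ) : ℝ) / ((z + 1 : ℕ) : ℝ) :=
      Nat.cast_div_le
    have h2 : ((2 ^ m + z : ℕ) : ℝ) / ((z + 1 : ℕ) : ℝ) ≤ (1 / ((z : ℝ) + 1) + (1 / 2) ^ m) * 2 ^ m := by
      have e : (1 / ((z : ℝ) + 1) + (1 / 2) ^ m) * 2 ^ m = (2 ^ m + (z + 1)) / (z + 1) := by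
        rw [add_mul, ← mul_pow]
        norm_num
        field_simp
      rw [e]
      push_cast
      rw [div_le_div_iff_of_pos_right hz]
      linarith
    rw [div_le_iff₀ (hp m)]
    exact h1.trans h2
  constructor
  · intro hlt
    have h1 : Tendsto (fun m : ℕ => 1 / ((z : ℝ) + 1) + (1 / 2 : ℝ) ^ m) atTop
        (𝓝 (1 / ((z : ℝ) + 1) + 0)) :=
      tendsto_const_nhds.add (tendsto_pow_atTop_nhds_zero_of_lt_one (by norm_num) (by norm_num))
    rw [add_zero] at h1
    obtain ⟨m, hm⟩ := (h1.eventually (gt_mem_nhds hlt)).exists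
    exact ⟨m, lt_of_le_of_lt (hi m) hm⟩
  · rintro ⟨m, hm⟩
    exact lt_of_le_of_lt (lo m) hm

theorem sigma2_upper_lt {v w : ℕ → ℝ} (hv : Upper v) (hw : Upper w) (h0 : ∀ z, 0 ≤ v z) :
    SigmaN 2 {z | v z < w z} := by
  have h := sigma2_compare hv hw h0 leftCE_zero leftCE_zero
  simpa using h

theorem mu_lt_mu {a b : ℕ} : mu.real (df a) < mu.real (df b) ↔ al a + be b < al b + be a := by
  rw [mu_df, mu_df]
  constructor <;> intro h <;> linarith

theorem sigma2_mu_lt_mu : SigmaN 2 {n | mu.real (df n.unpair.1) < mu.real (df n.unpair.2)} := by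
  have c1 : Computable fun n : ℕ => n.unpair.1 := Computable.fst.comp Computable.unpair
  have c2 : Computable fun n : ℕ => n.unpair.2 := Computable.snd.comp Computable.unpair
  have h := sigma2_upper_lt ((al_upper.comp c1).add (be_upper.comp c2))
    ((al_upper.comp c2).add (be_upper.comp c1)) (fun z => add_nonneg (al_nonneg _) (be_nonneg _))
  have e : {n : ℕ | mu.real (df n.unpair.1) < mu.real (df n.unpair.2)} =
      {z | al z.unpair.1 + be z.unpair.2 < al z.unpair.2 + be z.unpair.1} := by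
    ext n; exact mu_lt_mu
  rw [e]; exact h

theorem sigma2_mu_lt_mu_add : SigmaN 2 {n | mu.real (df n.unpair.1.unpair.2) <
    mu.real (df n.unpair.1.unpair.1) + 1 / ((n.unpair.2 : ℝ) + 1)} := by
  have c0 : Computable fun n : ℕ => n.unpair.1 := Computable.fst.comp Computable.unpair
  have c1 : Computable fun n : ℕ => n.unpair.1.unpair.1 :=
    Computable.fst.comp (Computable.unpair.comp c0)
  have c2 : Computable fun n : ℕ => n.unpair.1.unpair.2 :=
    Computable.snd.comp (Computable.unpair.comp c0)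
  have c3 : Computable fun n : ℕ => n.unpair.2 := Computable.snd.comp Computable.unpair
  have h := sigma2_upper_lt ((al_upper.comp c2).add (be_upper.comp c1))
    (((al_upper.comp c1).add (be_upper.comp c2)).add (upper_inv.comp c3))
    (fun z => add_nonneg (al_nonneg _) (be_nonneg _))
  have e : {n : ℕ | mu.real (df n.unpair.1.unpair.2) <
      mu.real (df n.unpair.1.unpair.1) + 1 / ((n.unpair.2 : ℝ) + 1)} =
      {z : ℕ | al z.unpair.1.unpair.2 + be z.unpair.1.unpair.1 <
        al z.unpair.1.unpair.1 + be z.unpair.1.unpair.2 + 1 / ((z.unpair.2 : ℝ) + 1)} := by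
    ext n
    simp only [Set.mem_ofPred_eq]
    rw [mu_df, mu_df]
    constructor <;> intro h <;> linarith
  rw [e]; exact h

/-- If `r` is not the measure of any difference of two `Π⁰₁` classes then `D(μ > r)` is not
`Σ⁰₂`-hard. -/
theorem not_hard_gt {r : ℝ} (hr : ∀ z, mu.real (df z) ≠ r) :
    ¬ Hard (SigmaN 2) (D fun X => r < mu.real X) := by
  intro hard
  obtain ⟨z, hz⟩ := value_of_hard (v := fun z => mu.real (df z)) sigma2_mu_lt_mu
    sigma2_mu_lt_mu_add hard
  exact hr z hz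

theorem not_hard_lt {r : ℝ} (hr : ∀ z, mu.real (df z) ≠ r) :
    ¬ Hard (SigmaN 2) (D fun X => mu.real X < r) := by
  intro hard
  have c1 : Computable fun n : ℕ => Nat.pair n.unpair.2 n.unpair.1 :=
    pair_computable.comp (Computable.snd.comp Computable.unpair)
      (Computable.fst.comp Computable.unpair)
  have h1 := sigma2_comp sigma2_mu_lt_mu c1
  have c2 : Computable fun n : ℕ => Nat.pair (Nat.pair n.unpair.1.unpair.2 n.unpair.1.unpair.1)
      n.unpair.2 :=
    pair_computable.comp (c1.comp (Computable.fst.comp Computable.unpair))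
      (Computable.snd.comp Computable.unpair)
  have h2 := sigma2_comp sigma2_mu_lt_mu_add c2
  obtain ⟨z, hz⟩ := value_of_hard (v := fun z => - mu.real (df z)) (r := -r) (by
      have e : {n : ℕ | - mu.real (df n.unpair.1) < - mu.real (df n.unpair.2)} =
          {x | Nat.pair x.unpair.2 x.unpair.1 ∈
            {n : ℕ | mu.real (df n.unpair.1) < mu.real (df n.unpair.2)}} := by
        ext n
        simp only [Set.mem_ofPred_eq, Nat.unpair_pair, neg_lt_neg_iff]
      rw [e]; exact h1) (by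
      have e : {n : ℕ | - mu.real (df n.unpair.1.unpair.2) <
          - mu.real (df n.unpair.1.unpair.1) + 1 / ((n.unpair.2 : ℝ) + 1)} =
          {x | Nat.pair (Nat.pair x.unpair.1.unpair.2 x.unpair.1.unpair.1) x.unpair.2 ∈
            {n : ℕ | mu.real (df n.unpair.1.unpair.2) <
              mu.real (df n.unpair.1.unpair.1) + 1 / ((n.unpair.2 : ℝ) + 1)}} := by
        ext n
        simp only [Set.mem_ofPred_eq, Nat.unpair_pair]
        constructor <;> intro h <;> linarith
      rw [e]; exact h2) (by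
      have e : {z : ℕ | -r < - mu.real (df z)} = D fun X => mu.real X < r := by
        ext z
        show -r < - mu.real (df z) ↔ mu.real (df z) < r
        rw [neg_lt_neg_iff]
      rw [e]; exact hard)
  exact hr z (by simpa using hz)

theorem Upper.leftCE {v : ℕ → ℝ} (hv : Upper v) {z : ℕ} (h1 : v z ≤ 1) : LeftCE (1 - v z) := by
  obtain ⟨N, hN, h⟩ := hv
  have hf : Computable fun m => 2 ^ m - N (z, m) :=
    Primrec.nat_sub.to_comp.comp pow_computable (hN.comp ((Computable.const z).pair Computable.id))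
  have hg : Computable fun s : ℕ => 2 ^ s - 1 :=
    Primrec.nat_sub.to_comp.comp pow_computable (Computable.const 1)
  have hg1 : ∀ s : ℕ, ((2 ^ s - 1 : ℕ) : ℝ) + 1 = 2 ^ s := by
    intro s
    have : (2 ^ s - 1) + 1 = 2 ^ s := Nat.sub_add_cancel (Nat.one_le_two_pow)
    exact_mod_cast this
  have hlo : ∀ m, v z ≤ (N (z, m) : ℝ) / 2 ^ m := by
    intro m
    by_contra hcon
    exact lt_irrefl _ ((h z (v z)).2 ⟨_, not_le.1 hcon⟩)
  have hp : ∀ m : ℕ, (0 : ℝ) < 2 ^ m := fun m => by positivity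
  refine ⟨_, _, hf, hg, ?_, ?_⟩
  · rintro _ ⟨m, rfl⟩
    simp only
    rw [hg1]
    rcases le_total (N (z, m)) (2 ^ m) with h2 | h2
    · rw [Nat.cast_sub h2, sub_div]
      push_cast
      rw [div_self (hp m).ne']
      linarith [hlo m]
    · rw [Nat.sub_eq_zero_of_le h2]
      simp
      exact h1
  · intro u hu
    by_contra hcon
    have h3 : v z < 1 - u := by linarith [not_le.1 hcon]
    obtain ⟨m, hm⟩ := (h z _).1 h3
    have h4 := hu ⟨m, rfl⟩
    simp only at h4
    rw [hg1] at h4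
    have h5 : ((2 : ℝ) ^ m - N (z, m)) / 2 ^ m ≤ ((2 ^ m - N (z, m) : ℕ) : ℝ) / 2 ^ m := by
      rw [div_le_div_iff_of_pos_right (hp m)]
      have h6 : ((2 ^ m : ℕ) : ℝ) ≤ ((2 ^ m - N (z, m) : ℕ) : ℝ) + N (z, m) := by
        exact_mod_cast (by omega : 2 ^ m ≤ (2 ^ m - N (z, m)) + N (z, m))
      push_cast at h6
      linarith
    rw [sub_div, div_self (hp m).ne'] at h5
    linarith

/-- the measure of a difference of two `Π⁰₁` classes is d.c.e. -/
theorem dce_mu (z : ℕ) : DCE (mu.real (df z)) := by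
  refine ⟨1 - be z, 1 - al z, be_upper.leftCE (be_le_one z), al_upper.leftCE (al_le_one z), ?_⟩
  rw [mu_df]
  ring

theorem ne_of_not_dce {r : ℝ} (hr : ¬ DCE r) (z : ℕ) : mu.real (df z) ≠ r := by
  intro h
  rw [← h] at hr
  exact hr (dce_mu z)

end Pool.Agent.DPC
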