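import Pool.Agent.DPC.Non2

set_option autoImplicit false

namespace Pool.Agent.DPC

open Nat.Partrec (Code)
open Encodable MeasureTheory Filter Topology

theorem thr_arith (b l i k : ℕ) :
    ((b : ℝ) + 1) / 2 ^ l < i / (k + 1) ↔ (b + 1) * (k + 1) < i * 2 ^ l := by
  rw [div_lt_div_iff₀ (by positivity) (by positivity)]
  exact_mod_cast Iff.rfl

theorem re_thr (F G : ℕ → ℕ) (hF : Computable F) (hG : Computable G) :
    ComputablePred fun p : ℕ × List Bool =>
      ((bv p.2 : ℝ) + 1) / 2 ^ p.2.length < F p.1 / (G p.1 + 1) := by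
  have mul := Primrec.nat_mul.to_comp
  have e1 : Computable fun p : ℕ × List Bool => (bv p.2 + 1) * (G p.1 + 1) :=
    mul.comp (Computable.succ.comp (bv_primrec.to_comp.comp Computable.snd))
      (Computable.succ.comp (hG.comp Computable.fst))
  have e2 : Computable fun p : ℕ × List Bool => F p.1 * 2 ^ p.2.length :=
    mul.comp (hF.comp Computable.fst)
      (pow_computable.comp (Computable.list_length.comp Computable.snd))
  exact (cp_lt e1 e2).of_eq fun p => (thr_arith _ _ _ _).symm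

/-- number line classes with computable rational thresholds -/
theorem exists_line_rat (F G : ℕ → ℕ) (hF : Computable F) (hG : Computable G) :
    ∃ g : ℕ → ℕ, Computable g ∧ ∀ n, Q (g n) = Ln ((F n : ℝ) / (G n + 1)) := by
  obtain ⟨g, hg, h⟩ := exists_class (re_cp (re_thr F G hF hG))
  refine ⟨g, hg, fun n => ?_⟩
  ext x
  rw [h]
  exact ⟨fun h m => not_lt.1 (h m), fun h m => not_lt.2 (h m)⟩

/-- number line classes whose threshold jumps up when `n` is enumerated -/
theorem exists_line_jump {A : ℕ → Prop} (hA : REPred A) {i j k : ℕ} (hij : i ≤ j) :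
    ∃ g : ℕ → ℕ, Computable g ∧ ∀ n, (A n → Q (g n) = Ln ((j : ℝ) / (k + 1))) ∧
      (¬ A n → Q (g n) = Ln ((i : ℝ) / (k + 1))) := by
  have h1 := re_thr (fun _ => i) (fun _ => k) (Computable.const i) (Computable.const k)
  have h2 := re_thr (fun _ => j) (fun _ => k) (Computable.const j) (Computable.const k)
  have h3 : REPred fun p : ℕ × List Bool => A p.1 := re_comp hA Computable.fst
  obtain ⟨g, hg, h⟩ := exists_class (re_or (re_cp h1) (re_and h3 (re_cp h2)))
  have hle : (i : ℝ) / (k + 1) ≤ (j : ℝ) / (k + 1) := by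
    have : (i : ℝ) ≤ j := by exact_mod_cast hij
    gcongr
  refine ⟨g, hg, fun n => ⟨fun hn => ?_, fun hn => ?_⟩⟩
  · ext x
    rw [h]
    constructor
    · intro h m
      have h4 := h m
      rw [not_or] at h4
      exact not_lt.1 fun h5 => h4.2 ⟨hn, h5⟩
    · rintro h m (h4 | ⟨-, h4⟩)
      · exact absurd (lt_of_lt_of_le h4 hle) (not_lt.2 (h m))
      · exact absurd h4 (not_lt.2 (h m))
  · ext x
    rw [h]
    constructor
    · intro h m
      have h4 := h m
      rw [not_or] at h4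
      exact not_lt.1 h4.1
    · rintro h m (h4 | ⟨h4, -⟩)
      · exact absurd h4 (not_lt.2 (h m))
      · exact hn h4

theorem leftCE_rat_ne {r : ℝ} (hr : ¬ DCE r) (i k : ℕ) : r ≠ (i : ℝ) / (k + 1) := by
  intro h
  exact hr ⟨_, 0, leftCE_of_const (i := i) (k := k), leftCE_zero, by rw [h]; ring⟩

/-- a good grid around `r` -/
theorem exists_grid {r : ℝ} (hr : ¬ DCE r) (h0 : 0 ≤ r) (h1 : r ≤ 1) :
    ∃ p k : ℕ, 1 ≤ p ∧ p + 2 ≤ k + 1 ∧ (p : ℝ) / (k + 1) < r ∧ r < ((p + 1 : ℕ) : ℝ) / (k + 1) := by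
  have h0' : 0 < r := by
    refine lt_of_le_of_ne h0 fun h => ?_
    exact leftCE_rat_ne hr 0 0 (by simp [← h])
  have h1' : r < 1 := by
    refine lt_of_le_of_ne h1 fun h => ?_
    exact leftCE_rat_ne hr 1 0 (by simp [h])
  obtain ⟨k, hk⟩ := exists_nat_gt (max (1 / r) (1 / (1 - r)))
  have hk1 : 1 / r < k + 1 := by
    have := (le_max_left (1 / r) (1 / (1 - r))).trans_lt hk
    linarith
  have hk2 : 1 / (1 - r) < k + 1 := by
    have := (le_max_right (1 / r) (1 / (1 - r))).trans_lt hk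
    linarith
  have hkp : (0 : ℝ) < (k : ℝ) + 1 := by positivity
  have h2 : 1 < r * (k + 1) := by
    rw [div_lt_iff₀ h0'] at hk1
    linarith
  have h3 : r * (k + 1) < k := by
    rw [div_lt_iff₀ (by linarith)] at hk2
    nlinarith
  have hp0 : 0 ≤ r * (k + 1) := by positivity
  refine ⟨⌊r * (k + 1)⌋₊, k, ?_, ?_, ?_, ?_⟩
  · exact Nat.le_floor (by exact_mod_cast h2.le)
  · have h4 : ⌊r * (k + 1)⌋₊ < k := (Nat.floor_lt hp0).2 h3
    omega
  · refine lt_of_le_of_ne ?_ (leftCE_rat_ne hr _ _).symm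
    rw [div_le_iff₀ hkp]
    exact Nat.floor_le hp0
  · rw [lt_div_iff₀ hkp]
    push_cast
    exact Nat.lt_floor_add_one _

theorem grid_le {i j k : ℕ} (h : i ≤ j) : (i : ℝ) / (k + 1) ≤ (j : ℝ) / (k + 1) := by
  have : (i : ℝ) ≤ j := by exact_mod_cast h
  gcongr

theorem grid_le_one {i k : ℕ} (h : i ≤ k + 1) : (i : ℝ) / (k + 1) ≤ 1 := by
  rw [div_le_one (by positivity)]
  exact_mod_cast h

theorem mu_grid {a b i j k : ℕ} (hb : Q b = Ln ((i : ℝ) / (k + 1)))
    (ha : Q a = Ln ((j : ℝ) / (k + 1))) (hij : i ≤ j) (hj : j ≤ k + 1) :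
    mu.real (df (Nat.pair a b)) = ((j - i : ℕ) : ℝ) / (k + 1) := by
  rw [mu_diff_line (by positivity) (grid_le hij) (grid_le_one hj) hb ha, Nat.cast_sub hij]
  ring

/-- complements of differences of two c.e. sets reduce to `D(μ > r)` -/
theorem hard_co_gt {r : ℝ} (hr : ¬ DCE r) (h0 : 0 ≤ r) (h1 : r ≤ 1) {A B : ℕ → Prop}
    (hA : REPred A) (hB : REPred B) : ∃ g : ℕ → ℕ, Computable g ∧
      ∀ n, (¬ A n ∨ B n) ↔ r < mu.real (df (g n)) := by
  obtain ⟨p, k, hp, hpk, hr1, hr2⟩ := exists_grid hr h0 h1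
  obtain ⟨gb, hgb, hb⟩ := exists_line_jump hA (i := 0) (j := 1) (k := k) (by omega)
  obtain ⟨ga, hga, ha⟩ := exists_line_jump hB (i := p + 1) (j := p + 2) (k := k) (by omega)
  refine ⟨fun n => Nat.pair (ga n) (gb n), pair_computable.comp hga hgb, fun n => ?_⟩
  have key : ∀ q : ℕ, p + 1 ≤ q → r < ((q : ℕ) : ℝ) / (k + 1) := fun q hq =>
    lt_of_lt_of_le hr2 (grid_le hq)
  by_cases hAn : A n
  · by_cases hBn : B n
    · rw [mu_grid ((hb n).1 hAn) ((ha n).1 hBn) (by omega) (by omega)]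
      exact ⟨fun _ => key _ (by omega), fun _ => Or.inr hBn⟩
    · rw [mu_grid ((hb n).1 hAn) ((ha n).2 hBn) (by omega) (by omega)]
      have e : p + 1 - 1 = p := by omega
      rw [e]
      constructor
      · rintro (h | h)
        · exact absurd hAn h
        · exact absurd h hBn
      · intro h; exact absurd h (not_lt.2 hr1.le)
  · by_cases hBn : B n
    · rw [mu_grid ((hb n).2 hAn) ((ha n).1 hBn) (by omega) (by omega)]
      exact ⟨fun _ => key _ (by omega), fun _ => Or.inr hBn⟩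
    · rw [mu_grid ((hb n).2 hAn) ((ha n).2 hBn) (by omega) (by omega)]
      exact ⟨fun _ => key _ (by omega), fun _ => Or.inl hAn⟩

/-- complements of differences of two c.e. sets reduce to `D(μ < r)` -/
theorem hard_co_lt {r : ℝ} (hr : ¬ DCE r) (h0 : 0 ≤ r) (h1 : r ≤ 1) {A B : ℕ → Prop}
    (hA : REPred A) (hB : REPred B) : ∃ g : ℕ → ℕ, Computable g ∧
      ∀ n, (¬ A n ∨ B n) ↔ mu.real (df (g n)) < r := by
  obtain ⟨p, k, hp, hpk, hr1, hr2⟩ := exists_grid hr h0 h1
  obtain ⟨gb, hgb, hb⟩ := exists_line_jump hB (i := 0) (j := 1) (k := k) (by omega)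
  obtain ⟨ga, hga, ha⟩ := exists_line_jump hA (i := p) (j := p + 1) (k := k) (by omega)
  refine ⟨fun n => Nat.pair (ga n) (gb n), pair_computable.comp hga hgb, fun n => ?_⟩
  have key : ∀ q : ℕ, q ≤ p → ((q : ℕ) : ℝ) / (k + 1) < r := fun q hq =>
    lt_of_le_of_lt (grid_le hq) hr1
  by_cases hAn : A n
  · by_cases hBn : B n
    · rw [mu_grid ((hb n).1 hBn) ((ha n).1 hAn) (by omega) (by omega)]
      exact ⟨fun _ => key _ (by omega), fun _ => Or.inr hBn⟩
    · rw [mu_grid ((hb n).2 hBn) ((ha n).1 hAn) (by omega) (by omega)]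
      have e : p + 1 - 0 = p + 1 := by omega
      rw [e]
      constructor
      · rintro (h | h)
        · exact absurd hAn h
        · exact absurd h hBn
      · intro h; exact absurd h (not_lt.2 hr2.le)
  · by_cases hBn : B n
    · rw [mu_grid ((hb n).1 hBn) ((ha n).2 hAn) (by omega) (by omega)]
      exact ⟨fun _ => key _ (by omega), fun _ => Or.inr hBn⟩
    · rw [mu_grid ((hb n).2 hBn) ((ha n).2 hAn) (by omega) (by omega)]
      exact ⟨fun _ => key _ (by omega), fun _ => Or.inl hAn⟩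

/-- the domain of the universal function is r.e. -/
theorem re_dom : REPred fun p : ℕ × ℕ => (Code.eval (Denumerable.ofNat Code p.1) p.2).Dom := by
  have h : Partrec fun p : ℕ × ℕ => Code.eval (Denumerable.ofNat Code p.1) p.2 :=
    Code.eval_part.comp ((Computable.ofNat Code).comp Computable.fst) Computable.snd
  exact h.dom_re

theorem re_index {p : ℕ → Prop} (hp : REPred p) :
    ∃ e : ℕ, ∀ n, p n ↔ (Code.eval (Denumerable.ofNat Code e) n).Dom := by
  obtain ⟨c, hc⟩ := re_code hp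
  refine ⟨encode c, fun n => ?_⟩
  rw [Denumerable.ofNat_encode]
  exact hc n

/-- a set to which all complements of differences of two c.e. sets reduce is not a difference of
two c.e. sets -/
theorem not_diff1 {E : Set ℕ} (h : ∀ A B : ℕ → Prop, REPred A → REPred B →
    ∃ g : ℕ → ℕ, Computable g ∧ ∀ n, (¬ A n ∨ B n) ↔ g n ∈ E) : ¬ DiffN 1 E := by
  rintro ⟨B, C, hB, hC, hE⟩
  have hB' := sigma1_iff.1 hB
  have hC' := sigma1_iff.1 hC
  let W : ℕ → ℕ → Prop := fun e n => (Code.eval (Denumerable.ofNat Code e) n).Dom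
  have c1 : Computable fun n : ℕ => (n.unpair.1, n) :=
    (Computable.fst.comp Computable.unpair).pair Computable.id
  have c2 : Computable fun n : ℕ => (n.unpair.2, n) :=
    (Computable.snd.comp Computable.unpair).pair Computable.id
  have hA1 : REPred fun n : ℕ => W n.unpair.1 n := re_comp re_dom c1
  have hA2 : REPred fun n : ℕ => W n.unpair.2 n := re_comp re_dom c2
  obtain ⟨g, hg, hgE⟩ := h _ _ hA1 hA2
  obtain ⟨i, hi⟩ := re_index (re_comp hB' hg)
  obtain ⟨j, hj⟩ := re_index (re_comp hC' hg)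
  have h1 := hgE (Nat.pair i j)
  have h2 : g (Nat.pair i j) ∈ E ↔ W i (Nat.pair i j) ∧ ¬ W j (Nat.pair i j) := by
    rw [hE]
    exact and_congr (hi _) (not_congr (hj _))
  rw [h2] at h1
  simp only [Nat.unpair_pair] at h1
  tauto

theorem not_diff1_gt {r : ℝ} (hr : ¬ DCE r) (h0 : 0 ≤ r) (h1 : r ≤ 1) :
    ¬ DiffN 1 (D fun X => r < mu.real X) :=
  not_diff1 fun _ _ hA hB => hard_co_gt hr h0 h1 hA hB

theorem not_diff1_lt {r : ℝ} (hr : ¬ DCE r) (h0 : 0 ≤ r) (h1 : r ≤ 1) :
    ¬ DiffN 1 (D fun X => mu.real X < r) :=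
  not_diff1 fun _ _ hA hB => hard_co_lt hr h0 h1 hA hB

end Pool.Agent.DPC
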