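import Pool.Agent.DPC.Non3

set_option autoImplicit false

namespace Pool.Agent.DPC

open Nat.Partrec (Code)
open Encodable MeasureTheory Filter Topology

theorem re_lower_cell {v : ℕ → ℝ} (hv : Lower v) :
    REPred fun p : ℕ × List Bool => ((bv p.2 : ℝ) + 1) / 2 ^ p.2.length < v p.1 := by
  have e1 : Computable fun p : ℕ × List Bool => bv p.2 + 1 :=
    Computable.succ.comp (bv_primrec.to_comp.comp Computable.snd)
  have e2 : Computable fun p : ℕ × List Bool => 2 ^ p.2.length - 1 :=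
    Primrec.nat_sub.to_comp.comp
      (pow_computable.comp (Computable.list_length.comp Computable.snd)) (Computable.const 1)
  have e3 := Computable.fst.pair (e1.pair e2)
  have h := re_comp hv e3
  refine h.of_eq fun p => ?_
  have h2 : (((2 : ℕ) ^ p.2.length - 1 : ℕ) : ℝ) + 1 = 2 ^ p.2.length := by
    have h3 : 1 ≤ 2 ^ p.2.length := Nat.one_le_two_pow
    have h4 : 2 ^ p.2.length - 1 + 1 = 2 ^ p.2.length := by omega
    exact_mod_cast h4
  show (((bv p.2 + 1 : ℕ) : ℝ) / (((2 : ℕ) ^ p.2.length - 1 : ℕ) + 1) < v p.1) ↔ _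
  rw [h2]
  push_cast
  exact Iff.rfl

/-- number line classes for uniformly left-c.e. thresholds -/
theorem exists_line_lower {v : ℕ → ℝ} (hv : Lower v) :
    ∃ g : ℕ → ℕ, Computable g ∧ ∀ n, Q (g n) = Ln (v n) := by
  obtain ⟨g, hg, h⟩ := exists_class (re_lower_cell hv)
  refine ⟨g, hg, fun n => ?_⟩
  ext x
  rw [h]
  exact ⟨fun h m => not_lt.1 (h m), fun h m => not_lt.2 (h m)⟩

/-- differences of uniformly left-c.e. reals are measures of differences -/
theorem exists_diff_lower {v w : ℕ → ℝ} (hv : Lower v) (hw : Lower w)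
    (hv01 : ∀ n, 0 ≤ v n ∧ v n ≤ 1) (hw01 : ∀ n, 0 ≤ w n ∧ w n ≤ 1) :
    ∃ g : ℕ → ℕ, Computable g ∧ ∀ n, mu.real (df (g n)) = max (v n - w n) 0 := by
  obtain ⟨ga, hga, ha⟩ := exists_line_lower hv
  obtain ⟨gb, hgb, hb⟩ := exists_line_lower hw
  refine ⟨fun n => Nat.pair (ga n) (gb n), pair_computable.comp hga hgb, fun n => ?_⟩
  rcases le_total (w n) (v n) with h | h
  · rw [mu_diff_line (hw01 n).1 h (hv01 n).2 (hb n) (ha n), max_eq_left (sub_nonneg.2 h)]
  · have e : df (Nat.pair (ga n) (gb n)) = ∅ := by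
      unfold df
      rw [Nat.unpair_pair, hb n, ha n, Set.sdiff_eq_empty]
      exact Ln_anti h
    rw [e, max_eq_right (by linarith)]
    simp

theorem Upper.co_lower {v : ℕ → ℝ} (hv : Upper v) :
    Lower fun n => 1 - v n := by
  obtain ⟨N, hN, h⟩ := hv
  have mul := Primrec.nat_mul.to_comp
  -- `i/(k+1) < 1 - v n` iff `v n < 1 - i/(k+1)` iff some approximation is below
  have e1 : Computable fun p : (ℕ × (ℕ × ℕ)) × ℕ => p.2 := Computable.snd
  have e2 : Computable fun p : (ℕ × (ℕ × ℕ)) × ℕ => N (p.1.1, p.2) :=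
    hN.comp ((Computable.fst.comp Computable.fst).pair Computable.snd)
  have e3 : Computable fun p : (ℕ × (ℕ × ℕ)) × ℕ => p.1.2.1 :=
    Computable.fst.comp (Computable.snd.comp Computable.fst)
  have e4 : Computable fun p : (ℕ × (ℕ × ℕ)) × ℕ => p.1.2.2 + 1 :=
    Computable.succ.comp (Computable.snd.comp (Computable.snd.comp Computable.fst))
  have e5 : Computable fun p : (ℕ × (ℕ × ℕ)) × ℕ => 2 ^ p.2 := pow_computable.comp e1
  have c1 := cp_lt (Primrec.nat_add.to_comp.comp (mul.comp e2 e4) (mul.comp e3 e5))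
    (mul.comp e5 e4)
  have h2 := re_exists (re_cp c1)
  refine h2.of_eq fun p => ?_
  have h3 : (p.2.1 : ℝ) / (p.2.2 + 1) < 1 - v p.1 ↔ v p.1 < 1 - (p.2.1 : ℝ) / (p.2.2 + 1) := by
    constructor <;> intro h <;> linarith
  show _ ↔ (p.2.1 : ℝ) / (p.2.2 + 1) < 1 - v p.1
  rw [h3, h]
  refine exists_congr fun m => ?_
  have h4 : (1 : ℝ) - (p.2.1 : ℝ) / (p.2.2 + 1) = (p.2.2 + 1 - p.2.1) / (p.2.2 + 1) := by
    have : ((p.2.2 : ℝ) + 1) ≠ 0 := by positivity
    field_simp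
  rw [h4, div_lt_div_iff₀ (by positivity) (by positivity)]
  show N (p.1, m) * (p.2.2 + 1) + p.2.1 * 2 ^ m < 2 ^ m * (p.2.2 + 1) ↔ _
  constructor
  · intro h5
    have h6 : (N (p.1, m) : ℝ) * (p.2.2 + 1) + p.2.1 * 2 ^ m < 2 ^ m * (p.2.2 + 1) := by
      exact_mod_cast h5
    linarith
  · intro h5
    have h6 : (N (p.1, m) : ℝ) * (p.2.2 + 1) + p.2.1 * 2 ^ m < 2 ^ m * (p.2.2 + 1) := by
      linarith
    exact_mod_cast h6

theorem Lower.comp {v : ℕ → ℝ} (hv : Lower v) {f : ℕ → ℕ} (hf : Computable f) :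
    Lower fun n => v (f n) := by
  have e : Computable fun p : ℕ × (ℕ × ℕ) => (f p.1, p.2) :=
    (hf.comp Computable.fst).pair Computable.snd
  have h := re_comp hv e
  exact h

/-- exact description of the many-one degree of `D(μ > r)` -/
theorem mred_gt {r : ℝ} (h0 : 0 ≤ r) (A : Set ℕ) :
    ((· ∈ A) ≤₀ (· ∈ D fun X => r < mu.real X)) ↔
      ∃ v w : ℕ → ℝ, Lower v ∧ Lower w ∧ (∀ n, 0 ≤ v n ∧ v n ≤ 1) ∧ (∀ n, 0 ≤ w n ∧ w n ≤ 1) ∧
        ∀ n, n ∈ A ↔ r < v n - w n := by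
  constructor
  · rintro ⟨f, hf, h⟩
    refine ⟨fun n => 1 - be (f n), fun n => 1 - al (f n), ?_, ?_, fun n => ?_, fun n => ?_,
      fun n => ?_⟩
    · exact (be_upper.co_lower).comp hf
    · exact (al_upper.co_lower).comp hf
    · exact ⟨by linarith [be_le_one (f n)], by linarith [be_nonneg (f n)]⟩
    · exact ⟨by linarith [al_le_one (f n)], by linarith [al_nonneg (f n)]⟩
    · refine (show n ∈ A ↔ r < mu.real (df (f n)) from h n).trans ?_
      rw [mu_df]
      show _ ↔ r < (1 - be (f n)) - (1 - al (f n))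
      constructor <;> intro h <;> linarith
  · rintro ⟨v, w, hv, hw, hv01, hw01, h⟩
    obtain ⟨g, hg, hgd⟩ := exists_diff_lower hv hw hv01 hw01
    refine ⟨g, hg, fun n => (h n).trans ?_⟩
    show _ ↔ r < mu.real (df (g n))
    rw [hgd, lt_max_iff]
    exact ⟨Or.inl, fun h => h.resolve_right (not_lt.2 h0)⟩

/-- exact description of the many-one degree of `D(μ < r)` -/
theorem mred_lt {r : ℝ} (h0 : 0 < r) (A : Set ℕ) :
    ((· ∈ A) ≤₀ (· ∈ D fun X => mu.real X < r)) ↔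
      ∃ v w : ℕ → ℝ, Lower v ∧ Lower w ∧ (∀ n, 0 ≤ v n ∧ v n ≤ 1) ∧ (∀ n, 0 ≤ w n ∧ w n ≤ 1) ∧
        ∀ n, n ∈ A ↔ v n - w n < r := by
  constructor
  · rintro ⟨f, hf, h⟩
    refine ⟨fun n => 1 - be (f n), fun n => 1 - al (f n), ?_, ?_, fun n => ?_, fun n => ?_,
      fun n => ?_⟩
    · exact (be_upper.co_lower).comp hf
    · exact (al_upper.co_lower).comp hf
    · exact ⟨by linarith [be_le_one (f n)], by linarith [be_nonneg (f n)]⟩
    · exact ⟨by linarith [al_le_one (f n)], by linarith [al_nonneg (f n)]⟩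
    · refine (show n ∈ A ↔ mu.real (df (f n)) < r from h n).trans ?_
      rw [mu_df]
      show _ ↔ (1 - be (f n)) - (1 - al (f n)) < r
      constructor <;> intro h <;> linarith
  · rintro ⟨v, w, hv, hw, hv01, hw01, h⟩
    obtain ⟨g, hg, hgd⟩ := exists_diff_lower hv hw hv01 hw01
    refine ⟨g, hg, fun n => (h n).trans ?_⟩
    show _ ↔ mu.real (df (g n)) < r
    rw [hgd, max_lt_iff]
    exact ⟨fun h => ⟨h, h0⟩, fun h => h.1⟩

/-! ### Finite levels of the difference hierarchy over the c.e. sets -/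

/-- `s` is approximable from below -/
def LowN (s : ℕ → ℕ) : Prop := REPred fun p : ℕ × ℕ => p.2 < s p.1

theorem exists_steps : ∀ (n : ℕ) {A : Set ℕ}, NCE n A →
    ∃ s t : ℕ → ℕ, LowN s ∧ LowN t ∧ (∀ x, s x ≤ n) ∧ (∀ x, t x ≤ n) ∧
      (∀ x, x ∈ A → s x = t x + 1) ∧ ∀ x, x ∉ A → s x = t x := by
  intro n
  induction n with
  | zero =>
    intro A hA
    have hA' : A = ∅ := hA
    subst hA'
    have h : LowN fun _ => 0 := by
      have := re_cp (cp_lt (Computable.snd (α := ℕ) (β := ℕ)) (Computable.const 0))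
      exact this
    exact ⟨fun _ => 0, fun _ => 0, h, h, fun _ => le_rfl, fun _ => le_rfl,
      fun x hx => absurd hx (by simp), fun _ _ => rfl⟩
  | succ n ih =>
    rintro A ⟨B, C, hB, hC, rfl⟩
    classical
    obtain ⟨s, t, hs, ht, hsn, htn, h1, h2⟩ := ih hC
    refine ⟨fun x => if x ∈ B then 1 + t x else 0, fun x => if x ∈ B then s x else 0,
      ?_, ?_, fun x => ?_, fun x => ?_, fun x hx => ?_, fun x hx => ?_⟩
    · have e1 : Computable fun p : ℕ × ℕ => (p.1, p.2 - 1) :=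
        Computable.fst.pair (Primrec.nat_sub.to_comp.comp Computable.snd (Computable.const 1))
      have f1 : REPred fun p : ℕ × ℕ => p.1 ∈ B := re_comp hB Computable.fst
      have f2 := re_comp ht e1
      have f3 := cp_eq (Computable.snd (α := ℕ) (β := ℕ)) (Computable.const 0)
      have f4 := re_and f1 (re_or (re_cp f3) f2)
      refine f4.of_eq fun p => ?_
      show p.1 ∈ B ∧ (p.2 = 0 ∨ p.2 - 1 < t p.1) ↔ p.2 < (if p.1 ∈ B then 1 + t p.1 else 0)
      split_ifs with h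
      · constructor
        · rintro ⟨-, h | h⟩ <;> omega
        · intro h'
          refine ⟨h, ?_⟩
          omega
      · exact ⟨fun h' => absurd h'.1 h, fun h' => absurd h' (by omega)⟩
    · have f1 : REPred fun p : ℕ × ℕ => p.1 ∈ B := re_comp hB Computable.fst
      have f4 := re_and f1 hs
      refine f4.of_eq fun p => ?_
      show p.1 ∈ B ∧ p.2 < s p.1 ↔ p.2 < (if p.1 ∈ B then s p.1 else 0)
      split_ifs with h
      · exact ⟨fun h' => h'.2, fun h' => ⟨h, h'⟩⟩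
      · exact ⟨fun h' => absurd h'.1 h, fun h' => absurd h' (by omega)⟩
    · have := htn x
      show (if x ∈ B then 1 + t x else 0) ≤ n + 1
      split_ifs <;> omega
    · have := hsn x
      show (if x ∈ B then s x else 0) ≤ n + 1
      split_ifs <;> omega
    · have h3 := h2 x hx.2
      show (if x ∈ B then 1 + t x else 0) = (if x ∈ B then s x else 0) + 1
      rw [if_pos hx.1, if_pos hx.1]
      omega
    · show (if x ∈ B then 1 + t x else 0) = (if x ∈ B then s x else 0)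
      by_cases hB : x ∈ B
      · have h4 : x ∈ C := by
          by_contra h5
          exact hx ⟨hB, h5⟩
        rw [if_pos hB, if_pos hB, h1 x h4]
        omega
      · rw [if_neg hB, if_neg hB]

theorem LowN.lower {s : ℕ → ℕ} (hs : LowN s) (p K : ℕ) :
    Lower fun n => ((p + s n : ℕ) : ℝ) / (K + 1) := by
  -- `i/(k+1) < (p + s n)/(K+1)` iff `i (K+1) < (p + j)(k+1)` for some `j ≤ s n`
  have mul := Primrec.nat_mul.to_comp
  have e1 : Computable fun q : (ℕ × (ℕ × ℕ)) × ℕ => q.1.2.1 * (K + 1) :=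
    mul.comp (Computable.fst.comp (Computable.snd.comp Computable.fst)) (Computable.const _)
  have e2 : Computable fun q : (ℕ × (ℕ × ℕ)) × ℕ => (p + q.2) * (q.1.2.2 + 1) :=
    mul.comp (Primrec.nat_add.to_comp.comp (Computable.const p) Computable.snd)
      (Computable.succ.comp (Computable.snd.comp (Computable.snd.comp Computable.fst)))
  have e3 : Computable fun q : (ℕ × (ℕ × ℕ)) × ℕ => (q.1.1, q.2 - 1) :=
    (Computable.fst.comp Computable.fst).pair
      (Primrec.nat_sub.to_comp.comp Computable.snd (Computable.const 1))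
  have e4 := cp_eq (Computable.snd (α := ℕ × (ℕ × ℕ)) (β := ℕ)) (Computable.const 0)
  have f := re_exists (re_and (re_cp (cp_lt e1 e2)) (re_or (re_cp e4) (re_comp hs e3)))
  refine f.of_eq fun q => ?_
  show (∃ j, q.2.1 * (K + 1) < (p + j) * (q.2.2 + 1) ∧ (j = 0 ∨ j - 1 < s q.1)) ↔
    (q.2.1 : ℝ) / (q.2.2 + 1) < ((p + s q.1 : ℕ) : ℝ) / (K + 1)
  rw [div_lt_div_iff₀ (by positivity) (by positivity)]
  have h1 : ((q.2.1 : ℝ) * (K + 1) < ((p + s q.1 : ℕ) : ℝ) * (q.2.2 + 1)) ↔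
      q.2.1 * (K + 1) < (p + s q.1) * (q.2.2 + 1) := by exact_mod_cast Iff.rfl
  rw [h1]
  constructor
  · rintro ⟨j, h2, h3⟩
    have h4 : j ≤ s q.1 := by omega
    exact lt_of_lt_of_le h2 (Nat.mul_le_mul_right _ (by omega))
  · intro h2
    exact ⟨s q.1, h2, by omega⟩

theorem exists_grid' {r : ℝ} (hr : ¬ DCE r) (h0 : 0 ≤ r) (h1 : r ≤ 1) (n : ℕ) :
    ∃ p k : ℕ, p + n ≤ k + 1 ∧ (p : ℝ) / (k + 1) < r ∧ r < ((p + 1 : ℕ) : ℝ) / (k + 1) := by
  have h1' : r < 1 := by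
    refine lt_of_le_of_ne h1 fun h => ?_
    exact leftCE_rat_ne hr 1 0 (by simp [h])
  obtain ⟨k, hk⟩ := exists_nat_gt ((n : ℝ) / (1 - r))
  have hkp : (0 : ℝ) < (k : ℝ) + 1 := by positivity
  have h3 : r * (k + 1) + n < k + 1 := by
    rw [div_lt_iff₀ (by linarith)] at hk
    nlinarith
  have hp0 : 0 ≤ r * (k + 1) := by positivity
  refine ⟨⌊r * (k + 1)⌋₊, k, ?_, ?_, ?_⟩
  · have h4 := Nat.floor_le hp0
    have h5 : ((⌊r * (k + 1)⌋₊ + n : ℕ) : ℝ) < ((k + 1 : ℕ) : ℝ) := by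
      push_cast
      linarith
    have h6 : ⌊r * (k + 1)⌋₊ + n < k + 1 := by exact_mod_cast h5
    omega
  · refine lt_of_le_of_ne ?_ (leftCE_rat_ne hr _ _).symm
    rw [div_le_iff₀ hkp]
    exact Nat.floor_le hp0
  · rw [lt_div_iff₀ hkp]
    push_cast
    exact Nat.lt_floor_add_one _

/-- all `n`-c.e. sets reduce to `D(μ > r)` when `r` is not d.c.e. -/
theorem hard_nce {r : ℝ} (hr : ¬ DCE r) (h0 : 0 ≤ r) (h1 : r ≤ 1) (n : ℕ) :
    Hard (NCE n) (D fun X => r < mu.real X) := by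
  intro A hA
  obtain ⟨s, t, hs, ht, hsn, htn, hA1, hA2⟩ := exists_steps n hA
  obtain ⟨p, k, hpk, hr1, hr2⟩ := exists_grid' hr h0 h1 n
  have hle : ∀ j : ℕ, j ≤ k + 1 → 0 ≤ (j : ℝ) / (k + 1) ∧ (j : ℝ) / (k + 1) ≤ 1 :=
    fun j hj => ⟨by positivity, grid_le_one hj⟩
  refine (mred_gt h0 A).2 ⟨fun x => ((p + s x : ℕ) : ℝ) / (k + 1),
    fun x => ((0 + t x : ℕ) : ℝ) / (k + 1), hs.lower p k, ht.lower 0 k, fun x => hle _ ?_,
    fun x => hle _ ?_, fun x => ?_⟩
  · have := hsn x; omega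
  · have := htn x; omega
  · have e : ((p + s x : ℕ) : ℝ) / (k + 1) - ((0 + t x : ℕ) : ℝ) / (k + 1) =
        ((p : ℝ) + (s x - t x)) / (k + 1) := by
      push_cast; ring
    rw [e]
    by_cases hx : x ∈ A
    · rw [hA1 x hx]
      have e2 : ((p : ℝ) + (((t x + 1 : ℕ) : ℝ) - t x)) = ((p + 1 : ℕ) : ℝ) := by
        push_cast; ring
      rw [e2]
      exact ⟨fun _ => hr2, fun _ => hx⟩
    · rw [hA2 x hx, sub_self, add_zero]
      exact ⟨fun h => absurd h hx, fun h => absurd h (not_lt.2 hr1.le)⟩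

/-- the universal `n`-c.e. predicate -/
def Wn : ℕ → ℕ → ℕ → Prop
  | 0, _, _ => False
  | n + 1, e, x => (Code.eval (Denumerable.ofNat Code e.unpair.1) x).Dom ∧ ¬ Wn n e.unpair.2 x

theorem nce_Wn : ∀ (n : ℕ) {f g : ℕ → ℕ}, Computable f → Computable g →
    NCE n {x | Wn n (f x) (g x)} := by
  intro n
  induction n with
  | zero =>
    intro f g _ _
    show {x | Wn 0 (f x) (g x)} = ∅
    ext x
    exact ⟨fun h => h, fun h => h⟩
  | succ n ih =>
    intro f g hf hg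
    have c2 : Computable fun x : ℕ => (f x).unpair.2 :=
      Computable.snd.comp (Computable.unpair.comp hf)
    have c1 : Computable fun x : ℕ => ((f x).unpair.1, g x) :=
      (Computable.fst.comp (Computable.unpair.comp hf)).pair hg
    exact ⟨{x | (Code.eval (Denumerable.ofNat Code (f x).unpair.1) (g x)).Dom},
      {x | Wn n (f x).unpair.2 (g x)}, re_comp re_dom c1, ih c2 hg, rfl⟩

theorem exists_Wn : ∀ (n : ℕ) {A : Set ℕ}, NCE n A → ∃ e, ∀ x, x ∈ A ↔ Wn n e x := by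
  intro n
  induction n with
  | zero =>
    intro A hA
    have hA' : A = ∅ := hA
    subst hA'
    exact ⟨0, fun x => Iff.rfl⟩
  | succ n ih =>
    rintro A ⟨B, C, hB, hC, rfl⟩
    obtain ⟨i, hi⟩ := re_index hB
    obtain ⟨j, hj⟩ := ih hC
    refine ⟨Nat.pair i j, fun x => ?_⟩
    show x ∈ B ∧ x ∉ C ↔ (Code.eval (Denumerable.ofNat Code (Nat.pair i j).unpair.1) x).Dom ∧
      ¬ Wn n (Nat.pair i j).unpair.2 x
    rw [Nat.unpair_pair]
    exact and_congr (hi x) (not_congr (hj x))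

/-- there is an `n`-c.e. set whose complement is not `n`-c.e. -/
theorem exists_nce_compl (n : ℕ) : ∃ A : Set ℕ, NCE n A ∧ ¬ NCE n Aᶜ := by
  refine ⟨{x | Wn n x x}, nce_Wn n Computable.id Computable.id, fun h => ?_⟩
  obtain ⟨e, he⟩ := exists_Wn n h
  have h1 : ¬ Wn n e e ↔ Wn n e e := he e
  tauto

theorem nce_comp : ∀ (n : ℕ) {A : Set ℕ}, NCE n A → ∀ {f : ℕ → ℕ}, Computable f →
    NCE n {x | f x ∈ A} := by
  intro n
  induction n with
  | zero =>
    intro A hA f _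
    have hA' : A = ∅ := hA
    subst hA'
    show {x | f x ∈ (∅ : Set ℕ)} = ∅
    ext x
    exact Iff.rfl
  | succ n ih =>
    rintro A ⟨B, C, hB, hC, rfl⟩ f hf
    exact ⟨{x | f x ∈ B}, {x | f x ∈ C}, re_comp hB hf, ih hC hf, rfl⟩

theorem nce_compl {n : ℕ} {A : Set ℕ} (h : NCE n A) : NCE (n + 1) Aᶜ := by
  refine ⟨Set.univ, A, ?_, h, by rw [Set.compl_eq_univ_sdiff]⟩
  exact (re_cp (cp_const True)).of_eq fun x => by simp

/-- `D(μ > r)` is at no finite level of the difference hierarchy over the c.e. sets -/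
theorem not_nce_gt {r : ℝ} (hr : ¬ DCE r) (h0 : 0 ≤ r) (h1 : r ≤ 1) (n : ℕ) :
    ¬ NCE n (D fun X => r < mu.real X) := by
  intro h
  obtain ⟨A, hA, hA'⟩ := exists_nce_compl n
  obtain ⟨f, hf, hfA⟩ := hard_nce hr h0 h1 (n + 1) Aᶜ (nce_compl hA)
  refine hA' ?_
  have e : Aᶜ = {x | f x ∈ D fun X => r < mu.real X} := by
    ext x
    exact hfA x
  rw [e]
  exact nce_comp n h hf

theorem not_nce_lt {r : ℝ} (hr : ¬ DCE r) (h0 : 0 ≤ r) (h1 : r ≤ 1) (n : ℕ) :
    ¬ NCE n (D fun X => mu.real X < r) := by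
  intro h
  refine not_nce_gt hr h0 h1 (n + 1) ?_
  have e : (D fun X => r < mu.real X) = (D fun X => mu.real X < r)ᶜ := by
    rw [D_compl]
    ext z
    show r < mu.real (df z) ↔ ¬ mu.real (df z) < r
    constructor
    · intro h
      exact not_lt.2 h.le
    · intro h
      exact lt_of_le_of_ne (not_lt.1 h) (ne_of_not_dce hr z).symm
  rw [e]
  exact nce_compl h

end Pool.Agent.DPC
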