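import Pool.Agent.DPC.Key

set_option autoImplicit false

namespace Pool.Agent.DPC

open Nat.Partrec (Code)
open Encodable Cardinal

theorem pair_computable : Computable₂ Nat.pair := Primrec₂.natPair.to_comp

theorem re_natPair {A : Set ℕ} (hA : REPred (· ∈ A)) :
    REPred fun p : ℕ × ℕ => Nat.pair p.1 p.2 ∈ A :=
  re_comp hA pair_computable

theorem sigma1_iff {A : Set ℕ} : SigmaN 1 A ↔ REPred (· ∈ A) := by
  constructor
  · rintro ⟨B, hB, h⟩
    have hB' : ComputablePred (· ∈ B) := hB
    refine re_iff.2 ⟨fun p => Nat.pair p.1 p.2 ∉ B, ?_, h⟩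
    exact cp_not (cp_comp hB' pair_computable)
  · intro hA
    obtain ⟨R, hR, h⟩ := re_iff.1 hA
    refine ⟨{n | ¬ R (n.unpair.1, n.unpair.2)}, ?_, fun x => ?_⟩
    · show ComputablePred fun n : ℕ => ¬ R (n.unpair.1, n.unpair.2)
      exact cp_not (cp_comp hR Computable.unpair)
    · rw [h]
      simp

theorem sigma2_iff {A : Set ℕ} : SigmaN 2 A ↔
    ∃ q : ℕ × ℕ → Prop, REPred q ∧ ∀ x, x ∈ A ↔ ∃ y, ¬ q (x, y) := by
  constructor
  · rintro ⟨B, hB, h⟩
    exact ⟨fun p => Nat.pair p.1 p.2 ∈ B, re_natPair (sigma1_iff.1 hB), h⟩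
  · rintro ⟨q, hq, h⟩
    refine ⟨{n | q (n.unpair.1, n.unpair.2)}, sigma1_iff.2 (re_comp hq Computable.unpair), fun x => ?_⟩
    rw [h]
    simp

theorem sigma2_of {γ : Type*} [Primcodable γ] [Nonempty γ] {A : Set ℕ} {r q : ℕ × γ → Prop}
    (hr : REPred r) (hq : REPred q) (h : ∀ x, x ∈ A ↔ ∃ c, r (x, c) ∧ ¬ q (x, c)) : SigmaN 2 A := by
  obtain ⟨R, hR, h'⟩ := re_iff.1 hr
  obtain ⟨c0⟩ := (inferInstance : Nonempty γ)
  let dec : ℕ → γ := fun n => (decode (α := γ) n).getD c0
  have hdec : Computable dec := (Primrec.option_getD.comp Primrec.decode (Primrec.const c0)).to_comp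
  have h1 : Computable fun p : ℕ × ℕ => (p.1, dec p.2.unpair.1) :=
    Computable.fst.pair (hdec.comp (Computable.fst.comp (Computable.unpair.comp Computable.snd)))
  refine sigma2_iff.2 ⟨fun p => q (p.1, dec p.2.unpair.1) ∨
    ¬ R ((p.1, dec p.2.unpair.1), p.2.unpair.2), ?_, fun x => ?_⟩
  · refine re_or (re_comp hq h1) (re_cp (cp_not (cp_comp hR (h1.pair ?_))))
    exact Computable.snd.comp (Computable.unpair.comp Computable.snd)
  · rw [h]
    constructor
    · rintro ⟨c, hc1, hc2⟩
      obtain ⟨n, hn⟩ := (h' _).1 hc1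
      refine ⟨Nat.pair (encode c) n, ?_⟩
      rintro (h3 | h3)
      · apply hc2
        simpa [dec] using h3
      · apply h3
        simpa [dec] using hn
    · rintro ⟨y, hy⟩
      rw [not_or, not_not] at hy
      exact ⟨dec y.unpair.1, (h' _).2 ⟨_, hy.2⟩, hy.1⟩

/-- Every `Σ⁰₂` set has unique witnesses. -/
theorem exists_unique_witness {A : Set ℕ} (hA : SigmaN 2 A) :
    ∃ V : ℕ × ℕ → Prop, REPred V ∧ (∀ x, x ∈ A ↔ ∃ v, ¬ V (x, v)) ∧
      ∀ x v v', ¬ V (x, v) → ¬ V (x, v') → v = v' := by
  obtain ⟨q, hq, h⟩ := sigma2_iff.1 hA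
  obtain ⟨R, hR, h'⟩ := re_iff.1 hq
  -- `K ((x, w), s)`: all `w' < w` have been enumerated by `s`
  let K : (ℕ × ℕ) × ℕ → Prop := fun p => ∀ w' < p.1.2, ∃ t < p.2, R ((p.1.1, w'), t)
  have hK : ComputablePred K := by
    have e1 : ComputablePred fun r : (((ℕ × ℕ) × ℕ) × ℕ) × ℕ => R ((r.1.1.1.1, r.1.2), r.2) := by
      have e2 : Computable fun r : (((ℕ × ℕ) × ℕ) × ℕ) × ℕ => ((r.1.1.1.1, r.1.2), r.2) :=
        ((Computable.fst.comp (Computable.fst.comp (Computable.fst.comp Computable.fst))).pair
          (Computable.snd.comp Computable.fst)).pair Computable.snd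
      exact cp_comp hR e2
    have e3 : Computable fun r : ((ℕ × ℕ) × ℕ) × ℕ => r.1.2 := Computable.snd.comp Computable.fst
    have e4 := cp_exists_lt e1 e3
    have e5 : Computable fun r : (ℕ × ℕ) × ℕ => r.1.2 := Computable.snd.comp Computable.fst
    exact cp_forall_lt e4 e5
  have hKmono : ∀ x w s s', s ≤ s' → K ((x, w), s) → K ((x, w), s') := by
    intro x w s s' hs hk w' hw'
    obtain ⟨t, ht, hR'⟩ := hk w' hw'
    exact ⟨t, lt_of_lt_of_le ht hs, hR'⟩
  let dc : (ℕ × ℕ) × ℕ → Prop := fun p => K p ∧ ∀ s' < p.2, ¬ K (p.1, s')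
  have hdc : ComputablePred dc := by
    have e1 : ComputablePred fun r : ((ℕ × ℕ) × ℕ) × ℕ => ¬ K (r.1.1, r.2) := by
      have e2 : Computable fun r : ((ℕ × ℕ) × ℕ) × ℕ => (r.1.1, r.2) :=
        (Computable.fst.comp Computable.fst).pair Computable.snd
      exact cp_not (cp_comp hK e2)
    exact cp_and hK (cp_forall_lt e1 Computable.snd)
  have hc1 : Computable fun p : ℕ × ℕ => (p.1, p.2.unpair.1) :=
    Computable.fst.pair (Computable.fst.comp (Computable.unpair.comp Computable.snd))
  have hc2 : Computable fun p : ℕ × ℕ => ((p.1, p.2.unpair.1), p.2.unpair.2) :=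
    hc1.pair (Computable.snd.comp (Computable.unpair.comp Computable.snd))
  refine ⟨fun p => q (p.1, p.2.unpair.1) ∨ ¬ dc ((p.1, p.2.unpair.1), p.2.unpair.2),
    re_or (re_comp hq hc1) (re_cp (cp_not (cp_comp hdc hc2))), ?_, ?_⟩
  · intro x
    rw [h]
    constructor
    · intro hex
      classical
      set w := Nat.find hex with hw
      have h1 : ¬ q (x, w) := Nat.find_spec hex
      have h2 : ∀ w' < w, ∃ t, R ((x, w'), t) := by
        intro w' hw'
        have := Nat.find_min hex hw'
        rw [not_not] at this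
        exact (h' _).1 this
      have h3 : ∃ s, K ((x, w), s) := by
        have key : ∀ w0 ≤ w, ∃ s, ∀ w' < w0, ∃ t < s, R ((x, w'), t) := by
          intro w0
          induction w0 with
          | zero => intro _; exact ⟨0, fun w' hw' => absurd hw' (by omega)⟩
          | succ w0 ih =>
            intro hle
            obtain ⟨s, hs⟩ := ih (by omega)
            obtain ⟨t, ht⟩ := h2 w0 (by omega)
            refine ⟨max s (t + 1), fun w' hw' => ?_⟩
            rcases Nat.lt_succ_iff_lt_or_eq.1 hw' with h4 | rfl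
            · obtain ⟨t', ht', hR'⟩ := hs w' h4
              exact ⟨t', lt_of_lt_of_le ht' (le_max_left _ _), hR'⟩
            · exact ⟨t, lt_of_lt_of_le (Nat.lt_succ_self _) (le_max_right _ _), ht⟩
        exact key w le_rfl
      refine ⟨Nat.pair w (Nat.find h3), ?_⟩
      rintro (h4 | h4)
      · apply h1
        simpa using h4
      · apply h4
        simp only [Nat.unpair_pair]
        exact ⟨Nat.find_spec h3, fun s' hs' => Nat.find_min h3 hs'⟩
    · rintro ⟨v, hv⟩
      exact ⟨_, fun hq' => hv (Or.inl hq')⟩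
  · intro x v v' hv hv'
    rw [not_or, not_not] at hv hv'
    obtain ⟨a1, a2, a3⟩ := hv
    obtain ⟨b1, b2, b3⟩ := hv'
    have aux : ∀ u u' : ℕ, ¬ q (x, u.unpair.1) → K ((x, u'.unpair.1), u'.unpair.2) →
        u'.unpair.1 ≤ u.unpair.1 := by
      intro u u' h1 h2
      by_contra hcon
      obtain ⟨t, -, ht⟩ := h2 u.unpair.1 (not_le.1 hcon)
      exact h1 ((h' _).2 ⟨t, ht⟩)
    have e1 : v.unpair.1 = v'.unpair.1 := le_antisymm (aux v' v b1 a2) (aux v v' a1 b2)
    have e2 : v.unpair.2 = v'.unpair.2 := by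
      rcases lt_trichotomy v.unpair.2 v'.unpair.2 with h1 | h1 | h1
      · exact absurd (by simpa [e1] using a2) (b3 _ h1)
      · exact h1
      · exact absurd (by simpa [e1] using b2) (a3 _ h1)
    rw [← Nat.pair_unpair v, ← Nat.pair_unpair v', e1, e2]

/-- the set `Q_b \ Q_a` for `z = ⟨a, b⟩` -/
def df (z : ℕ) : Set (ℕ → Bool) := Q z.unpair.2 \ Q z.unpair.1

theorem mem_D {R : Set (ℕ → Bool) → Prop} {z : ℕ} : z ∈ D R ↔ R (df z) := Iff.rfl

/-- the point `0^v 1 0^ω` -/
def pt (v : ℕ) : ℕ → Bool := fun n => decide (n = v)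

theorem pt_injective : Function.Injective pt := by
  intro v w h
  have := congrFun h v
  simpa [pt] using this

theorem true_mem_pre {x : ℕ → Bool} {m : ℕ} : true ∈ pre x m ↔ ∃ i < m, x i = true := by
  simp [pre]

theorem idxOf_pre {x : ℕ → Bool} {v : ℕ} (h1 : x v = true) (h2 : ∀ i < v, x i = false) {m : ℕ}
    (hm : v < m) : (pre x m).idxOf true = v := by
  have h3 : (pre x m) = pre x v ++ ((pre x m).drop v) := by
    rw [← take_pre x hm.le, List.take_append_drop]
  have h4 : true ∉ pre x v := by
    rw [true_mem_pre]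
    rintro ⟨i, hi, hx⟩
    rw [h2 i hi] at hx
    exact absurd hx (by simp)
  have h5 : (pre x m).drop v = x v :: (pre x m).drop (v + 1) := by
    rw [List.drop_eq_getElem_cons (by rw [length_pre]; exact hm), getElem_pre x hm]
  rw [h3, List.idxOf_append_of_notMem h4, length_pre, h5, h1]
  simp

/-- **Gadget**: countable differences of two `Π⁰₁` classes of prescribed size. -/
theorem gadget {V : ℕ × ℕ → Prop} (hV : REPred V) :
    ∃ g : ℕ → ℕ, Computable g ∧ ∀ n, #(df (g n)) = #{v : ℕ | ¬ V (n, v)} := by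
  let W : ℕ × List Bool → Prop := fun p => p.2.idxOf true < p.2.length ∧
    ((p.2.drop (p.2.idxOf true + 1)).idxOf true < (p.2.drop (p.2.idxOf true + 1)).length ∨
      V (p.1, p.2.idxOf true))
  let W0 : ℕ × List Bool → Prop := fun p => p.2.idxOf true < p.2.length
  have hidx : Computable fun σ : List Bool => σ.idxOf true :=
    (Primrec.list_idxOf.comp (Primrec.const true) Primrec.id).to_comp
  have hi : Computable fun p : ℕ × List Bool => p.2.idxOf true := hidx.comp Computable.snd
  have hdrop : Computable fun p : ℕ × List Bool => p.2.drop (p.2.idxOf true + 1) :=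
    Primrec.list_drop.to_comp.comp (Computable.succ.comp hi) Computable.snd
  have hW0 : ComputablePred W0 := cp_lt hi (Computable.list_length.comp Computable.snd)
  have hW : REPred W := by
    refine re_and (re_cp hW0) (re_or (re_cp ?_) (re_comp hV (Computable.fst.pair hi)))
    exact cp_lt (hidx.comp hdrop) (Computable.list_length.comp hdrop)
  obtain ⟨g, hg, hgQ⟩ := exists_class hW
  obtain ⟨g0, -, hg0Q⟩ := exists_class (re_cp hW0)
  refine ⟨fun n => Nat.pair (g0 0) (g n), pair_computable.comp (Computable.const _) hg, fun n => ?_⟩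
  have hdf : df (Nat.pair (g0 0) (g n)) = pt '' {v : ℕ | ¬ V (n, v)} := by
    unfold df
    rw [Nat.unpair_pair]
    simp only
    ext x
    rw [Set.mem_sdiff, hgQ, hg0Q]
    constructor
    · rintro ⟨h1, h2⟩
      push Not at h2
      obtain ⟨m, hm⟩ := h2
      have hm' : true ∈ pre x m := List.idxOf_lt_length_iff.1 hm
      rw [true_mem_pre] at hm'
      have hex : ∃ i, x i = true := ⟨_, hm'.choose_spec.2⟩
      classical
      set v := Nat.find hex with hv
      have hv1 : x v = true := Nat.find_spec hex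
      have hv2 : ∀ i < v, x i = false := fun i hi => by
        have := Nat.find_min hex hi
        simpa using this
      have key : ∀ m, v < m → ¬ (true ∈ (pre x m).drop (v + 1)) ∧ ¬ V (n, v) := by
        intro m hm
        have h3 := h1 m
        have h4 : (pre x m).idxOf true = v := idxOf_pre hv1 hv2 hm
        simp only [W, h4, length_pre, hm, true_and, not_or] at h3
        refine ⟨fun h5 => h3.1 ?_, h3.2⟩
        exact List.idxOf_lt_length_iff.2 h5
      refine ⟨v, (key (v + 1) (by omega)).2, ?_⟩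
      funext i
      rcases lt_trichotomy i v with h | h | h
      · rw [hv2 i h]; simp [pt, h.ne]
      · rw [h, hv1]; simp [pt]
      · have h5 := (key (i + 1) (by omega)).1
        have h6 : x i ≠ true := by
          intro hx
          apply h5
          rw [List.mem_drop_iff_getElem]
          refine ⟨i - (v + 1), by rw [length_pre]; omega, ?_⟩
          have e : i - (v + 1) + (v + 1) = i := by omega
          simp only [pre, List.getElem_map, List.getElem_range]
          rw [← hx]
          congr 1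
          omega
        have h7 : x i = false := by simpa using h6
        rw [h7]
        simp [pt, h.ne']
    · rintro ⟨v, hv, rfl⟩
      have h1 : pt v v = true := by simp [pt]
      have h2 : ∀ i < v, pt v i = false := fun i hi => by simp [pt, hi.ne]
      refine ⟨fun m hm => ?_, fun hcon => ?_⟩
      · obtain ⟨hm1, hm2⟩ := hm
        have hm' : true ∈ pre (pt v) m := List.idxOf_lt_length_iff.1 hm1
        rw [true_mem_pre] at hm'
        obtain ⟨i, hi, hx⟩ := hm'
        have hiv : i = v := by simpa [pt] using hx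
        have hvm : v < m := by omega
        have h4 : (pre (pt v) m).idxOf true = v := idxOf_pre h1 h2 hvm
        simp only [h4] at hm2
        rcases hm2 with h5 | h5
        · have h6 := List.idxOf_lt_length_iff.1 h5
          rw [List.mem_drop_iff_getElem] at h6
          obtain ⟨j, hj, hj'⟩ := h6
          rw [getElem_pre _ (by rw [length_pre] at hj; omega)] at hj'
          have : v + 1 + j = v := by simpa [pt] using hj'
          omega
        · exact hv h5
      · apply hcon (v + 1)
        refine List.idxOf_lt_length_iff.2 ?_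
        rw [true_mem_pre]
        exact ⟨v, by omega, h1⟩
  rw [hdf]
  exact Cardinal.mk_image_eq pt_injective

end Pool.Agent.DPC
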