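import Pool.Agent.DPC.Non3

set_option autoImplicit false

namespace Pool.Agent.DPC

open Nat.Partrec (Code)
open Encodable MeasureTheory Filter Topology

/-- total functions recursive in a set of oracles -/
def RT (O : Set (ℕ →. ℕ)) (f : ℕ → ℕ) : Prop := Nat.RecursiveIn O fun n => Part.some (f n)

variable {O : Set (ℕ →. ℕ)}

theorem RT.of_computable {f : ℕ → ℕ} (hf : Computable f) : RT O f := by
  have h1 : Nat.Partrec fun n => Part.some (f n) := Partrec.nat_iff.1 hf.partrec
  exact h1.recursiveIn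

theorem RT.comp {f g : ℕ → ℕ} (hf : RT O f) (hg : RT O g) : RT O fun n => f (g n) := by
  have h := Nat.RecursiveIn.comp hf hg
  refine h.of_eq fun n => ?_
  simp

theorem RT.pair {f g : ℕ → ℕ} (hf : RT O f) (hg : RT O g) :
    RT O fun n => Nat.pair (f n) (g n) := by
  have h := Nat.RecursiveIn.pair hf hg
  refine h.of_eq fun n => ?_
  simp [Seq.seq]

theorem RT.find {T : ℕ → ℕ} (hT : RT O T) {s : ℕ → ℕ}
    (h0 : ∀ z, T (Nat.pair z (s z)) = 0) (h1 : ∀ z, ∀ m < s z, T (Nat.pair z m) ≠ 0) :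
    RT O s := by
  have h := Nat.RecursiveIn.rfind hT
  refine h.of_eq fun z => ?_
  refine Part.eq_some_iff.2 ?_
  rw [Nat.mem_rfind]
  refine ⟨?_, fun {m} hm => ?_⟩
  · simp [h0]
  · simp [h1 z m hm]

open Classical in
/-- the indicator function -/
noncomputable def ch (A : Set ℕ) (n : ℕ) : ℕ := if n ∈ A then 1 else 0

theorem chi_eq (A : Set ℕ) : chi A = fun n => Part.some (ch A n) := rfl

theorem ch_mem {A : Set ℕ} {n : ℕ} (h : n ∈ A) : ch A n = 1 := by simp [ch, h]
theorem ch_not_mem {A : Set ℕ} {n : ℕ} (h : n ∉ A) : ch A n = 0 := by simp [ch, h]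

theorem RT.oracle {A : Set ℕ} (h : chi A ∈ O) : RT O (ch A) := Nat.RecursiveIn.oracle _ h

/-- every r.e. predicate reduces to the halting set -/
theorem exists_halt {p : ℕ → Prop} (hp : REPred p) :
    ∃ h : ℕ → ℕ, Computable h ∧ ∀ n, p n ↔ h n ∈ halt := by
  obtain ⟨c, hc⟩ := re_code hp
  refine ⟨fun n => encode (Code.comp c (Code.const n)), ?_, fun n => ?_⟩
  · exact (Primrec.encode.comp (Code.primrec₂_comp.comp (Primrec.const c)
      Code.primrec_const)).to_comp
  · rw [hc]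
    unfold halt
    rw [Set.mem_ofPred_eq, Denumerable.ofNat_encode]
    show _ ↔ (Code.eval (Code.const n) 0 >>= Code.eval c).Dom
    rw [Code.eval_const]
    simp

theorem re_upper {v : ℕ → ℝ} (hv : Upper v) :
    REPred fun p : ℕ × (ℕ × ℕ) => v p.1 < p.2.1 / (p.2.2 + 1) := by
  refine (re_compare hv leftCE_zero 0).of_eq fun p => ?_
  simp

section

variable {r : ℝ}

/-- the test on five parameters and three oracle answers -/
def tst (side i j l x1 x2 x3 : ℕ) : ℕ :=
  if (side = 1 ∧ x1 = 0 ∧ x2 = 1 ∧ l + j ≤ i ∧ x3 = 0) ∨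
    (side = 0 ∧ x1 = 1 ∧ x2 = 0 ∧ i ≤ j + l ∧ x3 = 1) then 0 else 1

theorem tst_zero {side i j l x1 x2 x3 : ℕ} : tst side i j l x1 x2 x3 = 0 ↔
    (side = 1 ∧ x1 = 0 ∧ x2 = 1 ∧ l + j ≤ i ∧ x3 = 0) ∨
    (side = 0 ∧ x1 = 1 ∧ x2 = 0 ∧ i ≤ j + l ∧ x3 = 1) := by
  unfold tst
  split_ifs with h
  · exact ⟨fun _ => h, fun _ => rfl⟩
  · exact ⟨fun h' => absurd h' (by norm_num), fun h' => absurd h' h⟩

/-- the projections of a code `⟨z, ⟨side, ⟨k, ⟨i, ⟨j, l⟩⟩⟩⟩⟩` -/
def c1 (n : ℕ) : ℕ := n.unpair.2.unpair.1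
def c2 (n : ℕ) : ℕ := n.unpair.2.unpair.2.unpair.1
def c3 (n : ℕ) : ℕ := n.unpair.2.unpair.2.unpair.2.unpair.1
def c4 (n : ℕ) : ℕ := n.unpair.2.unpair.2.unpair.2.unpair.2.unpair.1
def c5 (n : ℕ) : ℕ := n.unpair.2.unpair.2.unpair.2.unpair.2.unpair.2

theorem primrec_u1 : Primrec fun m : ℕ => m.unpair.1 := Primrec.fst.comp Primrec.unpair
theorem primrec_u2 : Primrec fun m : ℕ => m.unpair.2 := Primrec.snd.comp Primrec.unpair
theorem primrec_c1 : Primrec c1 := primrec_u1.comp primrec_u2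
theorem primrec_c2 : Primrec c2 := primrec_u1.comp (primrec_u2.comp primrec_u2)
theorem primrec_c3 : Primrec c3 :=
  primrec_u1.comp (primrec_u2.comp (primrec_u2.comp primrec_u2))
theorem primrec_c4 : Primrec c4 :=
  primrec_u1.comp (primrec_u2.comp (primrec_u2.comp (primrec_u2.comp primrec_u2)))
theorem primrec_c5 : Primrec c5 :=
  primrec_u2.comp (primrec_u2.comp (primrec_u2.comp (primrec_u2.comp primrec_u2)))

/-- the code of six numbers -/
def cd (z side k i j l : ℕ) : ℕ :=
  Nat.pair z (Nat.pair side (Nat.pair k (Nat.pair i (Nat.pair j l))))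

theorem cd_0 (z side k i j l : ℕ) : (cd z side k i j l).unpair.1 = z := by simp [cd]
theorem cd_1 (z side k i j l : ℕ) : c1 (cd z side k i j l) = side := by simp [cd, c1]
theorem cd_2 (z side k i j l : ℕ) : c2 (cd z side k i j l) = k := by simp [cd, c2]
theorem cd_3 (z side k i j l : ℕ) : c3 (cd z side k i j l) = i := by simp [cd, c3]
theorem cd_4 (z side k i j l : ℕ) : c4 (cd z side k i j l) = j := by simp [cd, c4]
theorem cd_5 (z side k i j l : ℕ) : c5 (cd z side k i j l) = l := by simp [cd, c5]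

theorem exists_cd (z s : ℕ) : ∃ k i j l : ℕ, Nat.pair z s = cd z s.unpair.1 k i j l := by
  refine ⟨s.unpair.2.unpair.1, s.unpair.2.unpair.2.unpair.1,
    s.unpair.2.unpair.2.unpair.2.unpair.1, s.unpair.2.unpair.2.unpair.2.unpair.2, ?_⟩
  unfold cd
  rw [Nat.pair_unpair, Nat.pair_unpair, Nat.pair_unpair, Nat.pair_unpair]

/-- the certificate relation on real numbers -/
def RCert (A B r : ℝ) (side k i j l : ℕ) : Prop :=
  (side = 1 ∧ ¬ A < (i : ℝ) / (k + 1) ∧ B < (j : ℝ) / (k + 1) ∧ l + j ≤ i ∧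
    ¬ (l : ℝ) / (k + 1) < r) ∨
  (side = 0 ∧ A < (i : ℝ) / (k + 1) ∧ ¬ B < (j : ℝ) / (k + 1) ∧ i ≤ j + l ∧
    (l : ℝ) / (k + 1) < r)

theorem RCert.correct {A B r : ℝ} {side k i j l : ℕ} (hs : RCert A B r side k i j l) :
    (side = 1 ∧ r < A - B) ∨ (side = 0 ∧ ¬ r < A - B) := by
  have hkp : (0 : ℝ) < (k : ℝ) + 1 := by positivity
  rcases hs with ⟨h1, h2, h3, h4, h5⟩ | ⟨h1, h2, h3, h4, h5⟩
  · left
    refine ⟨h1, ?_⟩
    have h6 : (l : ℝ) / (k + 1) + (j : ℝ) / (k + 1) ≤ (i : ℝ) / (k + 1) := by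
      rw [← add_div, div_le_div_iff_of_pos_right hkp]
      exact_mod_cast h4
    have := not_lt.1 h2
    have := not_lt.1 h5
    linarith
  · right
    refine ⟨h1, ?_⟩
    have h6 : (i : ℝ) / (k + 1) ≤ (j : ℝ) / (k + 1) + (l : ℝ) / (k + 1) := by
      rw [← add_div, div_le_div_iff_of_pos_right hkp]
      exact_mod_cast h4
    have := not_lt.1 h3
    intro hcon
    linarith

theorem RCert.exists {A B r : ℝ} (ha0 : 0 ≤ A) (hb0 : 0 ≤ B) (hrpos : 0 < r)
    (hne : A - B ≠ r) : ∃ side k i j l : ℕ, RCert A B r side k i j l := by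
  rcases lt_or_gt_of_ne hne with hlt | hgt
  · obtain ⟨k, hk⟩ := exists_nat_gt (2 / (r - (A - B)))
    have hd : 0 < r - (A - B) := by linarith
    have hkp : (0 : ℝ) < (k : ℝ) + 1 := by positivity
    have hk' : 2 < (r - (A - B)) * (k + 1) := by
      rw [div_lt_iff₀ hd] at hk
      nlinarith
    have hA0 : 0 ≤ A * (k + 1) := by positivity
    have hB0 : 0 ≤ B * (k + 1) := by positivity
    obtain ⟨a, f2, f1⟩ : ∃ a : ℕ, (a : ℝ) ≤ A * (k + 1) ∧ A * (k + 1) < a + 1 :=
      ⟨_, Nat.floor_le hA0, Nat.lt_floor_add_one _⟩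
    obtain ⟨b, f3, f4⟩ : ∃ b : ℕ, (b : ℝ) ≤ B * (k + 1) ∧ B * (k + 1) < b + 1 :=
      ⟨_, Nat.floor_le hB0, Nat.lt_floor_add_one _⟩
    have g1 : A < ((a + 1 : ℕ) : ℝ) / (k + 1) := by
      rw [lt_div_iff₀ hkp]
      push_cast
      exact f1
    have g2 : ¬ B < (b : ℝ) / (k + 1) := by
      rw [not_lt, div_le_iff₀ hkp]
      exact f3
    have g3 : a + 1 ≤ b + (a + 1 - b) := by omega
    have g4 : ((a + 1 - b : ℕ) : ℝ) / (k + 1) < r := by
      rw [div_lt_iff₀ hkp]
      rcases le_total b (a + 1) with h | h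
      · rw [Nat.cast_sub h]
        push_cast
        nlinarith
      · rw [Nat.sub_eq_zero_of_le h]
        simp only [Nat.cast_zero]
        positivity
    exact ⟨0, k, a + 1, b, a + 1 - b, Or.inr ⟨rfl, g1, g2, g3, g4⟩⟩
  · obtain ⟨k, hk⟩ := exists_nat_gt (2 / ((A - B) - r))
    have hd : 0 < (A - B) - r := by linarith
    have hkp : (0 : ℝ) < (k : ℝ) + 1 := by positivity
    have hk' : 2 < ((A - B) - r) * (k + 1) := by
      rw [div_lt_iff₀ hd] at hk
      nlinarith
    have hA0 : 0 ≤ A * (k + 1) := by positivity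
    have hB0 : 0 ≤ B * (k + 1) := by positivity
    obtain ⟨a, f2, f1⟩ : ∃ a : ℕ, (a : ℝ) ≤ A * (k + 1) ∧ A * (k + 1) < a + 1 :=
      ⟨_, Nat.floor_le hA0, Nat.lt_floor_add_one _⟩
    obtain ⟨b, f3, f4⟩ : ∃ b : ℕ, (b : ℝ) ≤ B * (k + 1) ∧ B * (k + 1) < b + 1 :=
      ⟨_, Nat.floor_le hB0, Nat.lt_floor_add_one _⟩
    have hge : b + 1 ≤ a := by
      have h1 : ((b + 1 : ℕ) : ℝ) < ((a + 1 : ℕ) : ℝ) := by
        push_cast
        have : 0 ≤ r * (k + 1) := by positivity
        nlinarith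
      have h2 : b + 1 < a + 1 := by exact_mod_cast h1
      omega
    have g1 : ¬ A < (a : ℝ) / (k + 1) := by
      rw [not_lt, div_le_iff₀ hkp]
      exact f2
    have g2 : B < ((b + 1 : ℕ) : ℝ) / (k + 1) := by
      rw [lt_div_iff₀ hkp]
      push_cast
      exact f4
    have g3 : a - (b + 1) + (b + 1) ≤ a := by omega
    have g4 : ¬ ((a - (b + 1) : ℕ) : ℝ) / (k + 1) < r := by
      rw [not_lt, le_div_iff₀ hkp, Nat.cast_sub hge]
      push_cast
      nlinarith
    exact ⟨1, k, a, b + 1, a - (b + 1), Or.inl ⟨rfl, g1, g2, g3, g4⟩⟩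

theorem RT.pair5 {O : Set (ℕ →. ℕ)} {q : ℕ → ℕ} (hq : Computable q) {a b c : ℕ → ℕ}
    (ha : RT O a) (hb : RT O b) (hc : RT O c)
    {F : ℕ → ℕ → ℕ → ℕ → ℕ}
    (hF : Computable fun m : ℕ => F m.unpair.1 m.unpair.2.unpair.1 m.unpair.2.unpair.2.unpair.1
      m.unpair.2.unpair.2.unpair.2) : RT O fun n => F (q n) (a n) (b n) (c n) := by
  have h := (RT.of_computable (O := O) hF).comp
    ((RT.of_computable (O := O) hq).pair (ha.pair (hb.pair hc)))
  have e : (fun n => F (q n) (a n) (b n) (c n)) = fun n => (fun m : ℕ =>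
      F m.unpair.1 m.unpair.2.unpair.1 m.unpair.2.unpair.2.unpair.1
      m.unpair.2.unpair.2.unpair.2) (Nat.pair (q n) (Nat.pair (a n) (Nat.pair (b n) (c n)))) := by
    funext n
    simp only [Nat.unpair_pair]
  rw [e]
  exact h

/-- the test on a code and three oracle answers -/
def tstn (n x1 x2 x3 : ℕ) : ℕ := tst (c1 n) (c3 n) (c4 n) (c5 n) x1 x2 x3

theorem tst_computable : Computable fun m : ℕ =>
    tstn m.unpair.1 m.unpair.2.unpair.1 m.unpair.2.unpair.2.unpair.1
      m.unpair.2.unpair.2.unpair.2 := by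
  have x1 : Primrec fun m : ℕ => m.unpair.2.unpair.1 := primrec_u1.comp primrec_u2
  have x2 : Primrec fun m : ℕ => m.unpair.2.unpair.2.unpair.1 :=
    primrec_u1.comp (primrec_u2.comp primrec_u2)
  have x3 : Primrec fun m : ℕ => m.unpair.2.unpair.2.unpair.2 :=
    primrec_u2.comp (primrec_u2.comp primrec_u2)
  have side := primrec_c1.comp primrec_u1
  have i := primrec_c3.comp primrec_u1
  have j := primrec_c4.comp primrec_u1
  have l := primrec_c5.comp primrec_u1
  have c0 : ∀ c : ℕ, Primrec fun _ : ℕ => c := fun c => Primrec.const c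
  have p1 := (Primrec.eq.comp side (c0 1)).and ((Primrec.eq.comp x1 (c0 0)).and
    ((Primrec.eq.comp x2 (c0 1)).and ((Primrec.nat_le.comp (Primrec.nat_add.comp l j) i).and
      (Primrec.eq.comp x3 (c0 0)))))
  have p2 := (Primrec.eq.comp side (c0 0)).and ((Primrec.eq.comp x1 (c0 1)).and
    ((Primrec.eq.comp x2 (c0 0)).and ((Primrec.nat_le.comp i (Primrec.nat_add.comp j l)).and
      (Primrec.eq.comp x3 (c0 1)))))
  have q := Primrec.ite (p1.or p2) (c0 0) (c0 1)
  have q' := q.to_comp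
  exact q'

/-- the test function, recursive in the left cut of `r` and the halting set -/
theorem exists_test (r : ℝ) {O : Set (ℕ →. ℕ)} (hcut : RT O (ch (cut r)))
    (hhalt : RT O (ch halt)) :
    ∃ T : ℕ → ℕ, RT O T ∧ ∀ z side k i j l : ℕ,
      T (cd z side k i j l) = 0 ↔ RCert (al z) (be z) r side k i j l := by
  have m1 := primrec_u1.to_comp.pair (primrec_c3.to_comp.pair primrec_c2.to_comp)
  have m2 := primrec_u1.to_comp.pair (primrec_c4.to_comp.pair primrec_c2.to_comp)
  have h1 := re_comp (re_upper al_upper) m1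
  have h2 := re_comp (re_upper be_upper) m2
  obtain ⟨q1, hq1, Q1⟩ := exists_halt h1
  obtain ⟨q2, hq2, Q2⟩ := exists_halt h2
  dsimp only at Q1 Q2
  have hlk : Computable fun m : ℕ => Nat.pair (c5 m) (c2 m) := by
    have := pair_computable.comp primrec_c5.to_comp primrec_c2.to_comp
    exact this
  have a1 : RT O fun n => ch halt (q1 n) := hhalt.comp (RT.of_computable hq1)
  have a2 : RT O fun n => ch halt (q2 n) := hhalt.comp (RT.of_computable hq2)
  have a3 := hcut.comp (RT.of_computable (O := O) hlk)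
  have hT := RT.pair5 (q := fun n => n) (F := tstn) Computable.id a1 a2 a3 tst_computable
  refine ⟨_, hT, ?_⟩
  · intro z side k i j l
    have hch1 : ∀ (A : Set ℕ) n, ch A n = 1 ↔ n ∈ A := by
      intro A n
      by_cases h : n ∈ A
      · simp [ch, h]
      · simp [ch, h]
    have hch0 : ∀ (A : Set ℕ) n, ch A n = 0 ↔ n ∉ A := by
      intro A n
      by_cases h : n ∈ A
      · simp [ch, h]
      · simp [ch, h]
    have Q1' := Q1 (cd z side k i j l)
    have Q2' := Q2 (cd z side k i j l)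
    rw [cd_0, cd_2, cd_3] at Q1'
    rw [cd_0, cd_2, cd_4] at Q2'
    have hc : Nat.pair l k ∈ cut r ↔ (l : ℝ) / (k + 1) < r := by
      simp only [cut, Set.mem_ofPred_eq, Nat.unpair_pair]
    show tst (c1 (cd z side k i j l)) (c3 (cd z side k i j l)) (c4 (cd z side k i j l))
      (c5 (cd z side k i j l)) (ch halt (q1 (cd z side k i j l)))
      (ch halt (q2 (cd z side k i j l)))
      (ch (cut r) (Nat.pair (c5 (cd z side k i j l)) (c2 (cd z side k i j l)))) = 0 ↔ _
    rw [tst_zero, hch0, hch1, hch1, hch0, hch0, hch1, ← Q1', ← Q2', cd_5, cd_2, hc, cd_1, cd_3,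
      cd_4]
    rfl

/-- `D(μ > r)` is recursive in the left cut of `r` and the halting set. -/
theorem turing_le (hr : ¬ DCE r) (h0 : 0 ≤ r) :
    Nat.RecursiveIn {chi (cut r), chi halt} (chi (D fun X => r < mu.real X)) := by
  set O : Set (ℕ →. ℕ) := {chi (cut r), chi halt} with hO
  have hcut : RT O (ch (cut r)) := RT.oracle (Or.inl rfl)
  have hhalt : RT O (ch halt) := RT.oracle (Or.inr rfl)
  obtain ⟨T, hT, hTs⟩ := exists_test r hcut hhalt
  have hrpos : 0 < r := by
    refine lt_of_le_of_ne h0 fun h => ?_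
    exact leftCE_rat_ne hr 0 0 (by simp [← h])
  -- correctness
  have hcorr : ∀ z s, T (Nat.pair z s) = 0 → s.unpair.1 = ch (D fun X => r < mu.real X) z := by
    intro z s hs
    obtain ⟨k, i, j, l, e⟩ := exists_cd z s
    rw [e, hTs] at hs
    rcases hs.correct with ⟨h1, h2⟩ | ⟨h1, h2⟩
    · rw [h1, ch_mem]
      show r < mu.real (df z)
      rw [mu_df]
      exact h2
    · rw [h1, ch_not_mem]
      show ¬ (r < mu.real (df z))
      rw [mu_df]
      exact h2
  -- existence
  have hex : ∀ z, ∃ s, T (Nat.pair z s) = 0 := by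
    intro z
    have hne : mu.real (df z) ≠ r := ne_of_not_dce hr z
    rw [mu_df] at hne
    obtain ⟨side, k, i, j, l, h⟩ := RCert.exists (al_nonneg z) (be_nonneg z) hrpos hne
    exact ⟨Nat.pair side (Nat.pair k (Nat.pair i (Nat.pair j l))), (hTs _ _ _ _ _ _).2 h⟩
  classical
  let sf : ℕ → ℕ := fun z => Nat.find (hex z)
  have hsf : RT O sf := RT.find hT (fun z => Nat.find_spec (hex z))
    (fun z m hm => Nat.find_min (hex z) hm)
  have hfin := (RT.of_computable (O := O) primrec_u1.to_comp).comp hsf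
  have e : chi (D fun X => r < mu.real X) = fun z => Part.some ((sf z).unpair.1) := by
    rw [chi_eq]
    funext z
    rw [hcorr z (sf z) (Nat.find_spec (hex z))]
  rw [e]
  exact hfin

/-- one-query reductions -/
theorem RT.query {E A : Set ℕ} (hA : chi A ∈ O) {idx : ℕ → ℕ} (hidx : Computable idx)
    {F : ℕ → ℕ → ℕ} (hF : Computable₂ F) (h : ∀ n, ch E n = F n (ch A (idx n))) :
    Nat.RecursiveIn O (chi E) := by
  have a1 : RT O fun n => ch A (idx n) := (RT.oracle hA).comp (RT.of_computable hidx)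
  have a0 : RT O fun n => n := RT.of_computable Computable.id
  have hF' : Computable fun m : ℕ => F m.unpair.1 m.unpair.2 :=
    hF.comp (Computable.fst.comp Computable.unpair) (Computable.snd.comp Computable.unpair)
  have a2 := (RT.of_computable (O := O) hF').comp (a0.pair a1)
  have e : chi E = fun n => Part.some (F (Nat.pair n (ch A (idx n))).unpair.1
      (Nat.pair n (ch A (idx n))).unpair.2) := by
    rw [chi_eq]
    funext n
    rw [Nat.unpair_pair, h]
  rw [e]
  exact a2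

/-- the left cut of `r` is recursive in `D(μ > r)` -/
theorem turing_ge_cut (hr : ¬ DCE r) (h1 : r ≤ 1) :
    Nat.RecursiveIn {chi (D fun X => r < mu.real X)} (chi (cut r)) := by
  obtain ⟨gb, hgb, hb⟩ := exists_line_rat (fun _ => 0) (fun _ => 0) (Computable.const 0)
    (Computable.const 0)
  obtain ⟨ga, hga, ha⟩ := exists_line_rat (fun n => n.unpair.1) (fun n => n.unpair.2)
    (Computable.fst.comp Computable.unpair) (Computable.snd.comp Computable.unpair)
  let F : ℕ → ℕ → ℕ := fun n x => if n.unpair.1 ≤ n.unpair.2 + 1 then 1 - x else 0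
  have hF : Computable₂ F := by
    have u1 : Primrec fun p : ℕ × ℕ => p.1.unpair.1 :=
      Primrec.fst.comp (Primrec.unpair.comp Primrec.fst)
    have u2 : Primrec fun p : ℕ × ℕ => p.1.unpair.2 + 1 :=
      Primrec.succ.comp (Primrec.snd.comp (Primrec.unpair.comp Primrec.fst))
    exact (Primrec.ite (Primrec.nat_le.comp u1 u2)
      (Primrec.nat_sub.comp (Primrec.const 1) Primrec.snd) (Primrec.const 0)).to_comp
  have hidx : Computable fun n => Nat.pair (ga n) (gb 0) := by
    have h := pair_computable.comp hga (Computable.const (α := ℕ) (gb 0))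
    exact h
  refine RT.query (A := D fun X => r < mu.real X) (Set.mem_singleton _) hidx hF fun n => ?_
  simp only [F]
  split_ifs with h
  · have hmu : mu.real (df (Nat.pair (ga n) (gb 0))) = (n.unpair.1 : ℝ) / (n.unpair.2 + 1) := by
      have hb0 : Q (gb 0) = Ln ((0 : ℕ) / ((n.unpair.2 : ℝ) + 1)) := by
        rw [hb 0]; simp
      have := mu_grid hb0 (ha n) (Nat.zero_le _) h
      rwa [Nat.sub_zero] at this
    by_cases hn : n ∈ cut r
    · rw [ch_mem hn, ch_not_mem]
      show ¬ (r < mu.real (df (Nat.pair (ga n) (gb 0))))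
      rw [hmu]
      have hn' : (n.unpair.1 : ℝ) / (n.unpair.2 + 1) < r := hn
      exact not_lt.2 hn'.le
    · rw [ch_not_mem hn, ch_mem]
      show r < mu.real (df (Nat.pair (ga n) (gb 0)))
      rw [hmu]
      have hn' : ¬ (n.unpair.1 : ℝ) / (n.unpair.2 + 1) < r := hn
      exact lt_of_le_of_ne (not_lt.1 hn') (leftCE_rat_ne hr _ _)
  · refine ch_not_mem fun hn => ?_
    have hn' : (n.unpair.1 : ℝ) / (n.unpair.2 + 1) < r := hn
    have h2 : (1 : ℝ) < (n.unpair.1 : ℝ) / (n.unpair.2 + 1) := by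
      rw [lt_div_iff₀ (by positivity), one_mul]
      exact_mod_cast not_le.1 h
    linarith

/-- the halting set is recursive in `D(μ > r)` -/
theorem turing_ge_halt (hr : ¬ DCE r) (h0 : 0 ≤ r) (h1 : r ≤ 1) :
    Nat.RecursiveIn {chi (D fun X => r < mu.real X)} (chi halt) := by
  have hhalt : REPred fun n : ℕ => n ∈ halt :=
    re_comp re_dom (Computable.id.pair (Computable.const 0))
  obtain ⟨gb, hgb, hb⟩ := exists_line_jump hhalt (i := 0) (j := 1) (k := 0) (by omega)
  obtain ⟨ga, hga, ha⟩ := exists_line_rat (fun _ => 1) (fun _ => 0) (Computable.const 1)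
    (Computable.const 0)
  have h0' : 0 < r := by
    refine lt_of_le_of_ne h0 fun h => ?_
    exact leftCE_rat_ne hr 0 0 (by simp [← h])
  have h1' : r < 1 := by
    refine lt_of_le_of_ne h1 fun h => ?_
    exact leftCE_rat_ne hr 1 0 (by simp [h])
  have hF : Computable₂ fun (_ : ℕ) (x : ℕ) => 1 - x :=
    (Primrec.nat_sub.comp (Primrec.const 1) Primrec.snd).to_comp
  have hidx : Computable fun n => Nat.pair (ga 0) (gb n) := by
    have h := pair_computable.comp (Computable.const (α := ℕ) (ga 0)) hgb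
    exact h
  refine RT.query (A := D fun X => r < mu.real X) (Set.mem_singleton _) hidx hF fun n => ?_
  by_cases hn : n ∈ halt
  · have hmu := mu_grid (hb n |>.1 hn) (ha 0) (i := 1) (j := 1) (k := 0) le_rfl le_rfl
    rw [ch_mem hn, ch_not_mem]
    show ¬ (r < mu.real (df (Nat.pair (ga 0) (gb n))))
    rw [hmu]
    simp
    exact h0
  · have hmu := mu_grid (hb n |>.2 hn) (ha 0) (i := 0) (j := 1) (k := 0) (by omega) le_rfl
    rw [ch_not_mem hn, ch_mem]
    show r < mu.real (df (Nat.pair (ga 0) (gb n)))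
    rw [hmu]
    simp
    exact h1'

end

end Pool.Agent.DPC
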