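import Pool.Agent.DPC.Sig

set_option autoImplicit false

namespace Pool.Agent.DPC

open Nat.Partrec (Code)
open Encodable Cardinal

section

variable {α β : Type*} [Primcodable α] [Primcodable β]

theorem cp_exists_mem [Inhabited β] {p : α × β → Prop} (hp : ComputablePred p) {L : α → List β}
    (hL : Computable L) : ComputablePred fun a : α => ∃ b ∈ L a, p (a, b) := by
  have h1 : Computable fun q : α × ℕ => (q.1, (L q.1).getD q.2 default) :=
    Computable.fst.pair ((Primrec.list_getD default).to_comp.comp (hL.comp Computable.fst)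
      Computable.snd)
  have h2 : ComputablePred fun q : α × ℕ => p (q.1, (L q.1).getD q.2 default) := cp_comp hp h1
  refine (cp_exists_lt h2 (Computable.list_length.comp hL)).of_eq fun a => ?_
  constructor
  · rintro ⟨i, hi, h⟩
    refine ⟨(L a)[i], List.getElem_mem _, ?_⟩
    have e : (L a).getD i default = (L a)[i] := List.getD_eq_getElem _ _ hi
    rw [← e]
    exact h
  · rintro ⟨b, hb, h⟩
    obtain ⟨i, hi, rfl⟩ := List.getElem_of_mem hb
    refine ⟨i, hi, ?_⟩
    have e : (L a).getD i default = (L a)[i] := List.getD_eq_getElem _ _ hi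
    show p (a, (L a).getD i default)
    rw [e]
    exact h

theorem cp_forall_mem [Inhabited β] {p : α × β → Prop} (hp : ComputablePred p) {L : α → List β}
    (hL : Computable L) : ComputablePred fun a : α => ∀ b ∈ L a, p (a, b) := by
  refine (cp_not (cp_exists_mem (cp_not hp) hL)).of_eq fun a => ?_
  push Not
  rfl

end

/-- all binary strings of a given length -/
def allS : ℕ → List (List Bool)
  | 0 => [[]]
  | m + 1 => (allS m).flatMap fun s => [s ++ [false], s ++ [true]]

theorem mem_allS {m : ℕ} : ∀ {τ : List Bool}, τ ∈ allS m ↔ τ.length = m := by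
  induction m with
  | zero => intro τ; simp [allS]
  | succ m ih =>
    intro τ
    simp only [allS, List.mem_flatMap]
    constructor
    · rintro ⟨s, hs, hτ⟩
      rw [ih] at hs
      simp only [List.mem_cons, List.not_mem_nil, or_false] at hτ
      rcases hτ with rfl | rfl <;> simp [hs]
    · intro hτ
      have hne : τ ≠ [] := by rintro rfl; simp at hτ
      refine ⟨τ.dropLast, ih.2 (by simp [hτ]), ?_⟩
      have h1 := List.dropLast_append_getLast hne
      cases hb : τ.getLast hne
      · rw [hb] at h1; simp [h1]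
      · rw [hb] at h1; simp [h1]

theorem allS_primrec : Primrec allS := by
  have h : Primrec fun n : ℕ => Nat.rec (motive := fun _ => List (List Bool)) [[]]
      (fun _ IH => IH.flatMap fun s => [s ++ [false], s ++ [true]]) n := by
    refine Primrec.nat_rec' (f := fun n : ℕ => n) (g := fun _ => [[]])
      (h := fun _ p => p.2.flatMap fun s => [s ++ [false], s ++ [true]]) Primrec.id
      (Primrec.const _) ?_
    refine Primrec.list_flatMap (Primrec.snd.comp Primrec.snd) ?_
    have h1 : ∀ b : Bool, Primrec fun q : (ℕ × ℕ × List (List Bool)) × List Bool => q.2 ++ [b] :=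
      fun b => Primrec.list_append.comp Primrec.snd (Primrec.const [b])
    exact Primrec.list_cons.comp (h1 false) (Primrec.list_cons.comp (h1 true) (Primrec.const []))
  refine h.of_eq fun n => ?_
  induction n with
  | zero => rfl
  | succ n ih =>
    show List.flatMap _ _ = _
    rw [ih]
    rfl

/-- the binary strings in the tree `U e` -/
def bU (e : ℕ) : Set (List Bool) := {σ | σ.map Bool.toNat ∈ U e}

theorem bU_cp : ComputablePred fun p : ℕ × List Bool => p.2 ∈ bU p.1 := by
  have h1 : Computable fun p : ℕ × List Bool => (p.1, p.2.map Bool.toNat) := by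
    refine Computable.fst.pair ?_
    have h2 : Primrec fun σ : List Bool => σ.map Bool.toNat :=
      Primrec.list_map Primrec.id ((Primrec.dom_finite Bool.toNat).comp Primrec.snd).to₂
    exact h2.to_comp.comp Computable.snd
  exact cp_comp U_cp h1

theorem pre_map (x : ℕ → Bool) (m : ℕ) :
    (pre x m).map Bool.toNat = (List.range m).map fun n => (x n).toNat := by
  simp [pre]

theorem mem_Q {e : ℕ} {x : ℕ → Bool} : x ∈ Q e ↔ ∀ m, pre x m ∈ bU e := by
  unfold bU
  simp only [Set.mem_ofPred_eq, pre_map]
  exact Iff.rfl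

theorem bU_of_prefix' {e : ℕ} {σ τ : List Bool} (h : τ <+: σ) (hσ : σ ∈ bU e) : τ ∈ bU e := by
  obtain ⟨ρ, rfl⟩ := h
  refine take_mem_U ?_ hσ
  rw [List.map_append]
  exact List.prefix_append _ _

/-- extension of a string by zeros -/
def ext (σ : List Bool) : ℕ → Bool := fun n => σ.getD n false

theorem pre_ext {σ : List Bool} {m : ℕ} (h : m ≤ σ.length) : pre (ext σ) m = σ.take m := by
  refine List.ext_getElem (by rw [length_pre]; simp [h]) fun i h1 h2 => ?_
  rw [length_pre] at h1
  rw [getElem_pre _ h1]
  simp only [ext, List.getElem_take]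
  exact List.getD_eq_getElem _ _ (lt_of_lt_of_le h1 h)

theorem pre_ext_self (σ : List Bool) : pre (ext σ) σ.length = σ := by
  rw [pre_ext le_rfl, List.take_length]

theorem isOpen_pre (k : ℕ) (S : Set (List Bool)) : IsOpen {x : ℕ → Bool | pre x k ∈ S} := by
  rw [isOpen_iff_mem_nhds]
  intro x hx
  have h1 : ∀ᶠ y in nhds x, ∀ i ∈ Finset.range k, y i = x i := by
    rw [Filter.eventually_all_finset]
    intro i _
    exact (continuous_apply i).continuousAt.eventually
      (show ∀ᶠ b in nhds (x i), b = x i by rw [nhds_discrete]; exact rfl)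
  filter_upwards [h1] with y hy
  have : pre y k = pre x k := pre_eq_iff.2 fun i hi => hy i (Finset.mem_range.2 hi)
  show pre y k ∈ S
  rw [this]; exact hx

theorem isClosed_pre (k : ℕ) (S : Set (List Bool)) : IsClosed {x : ℕ → Bool | pre x k ∈ S} := by
  rw [← isOpen_compl_iff]
  exact isOpen_pre k Sᶜ

/-- compactness -/
theorem exists_path {e : ℕ} {σ : List Bool} (h : ∀ m, ∃ τ ∈ allS m, σ ++ τ ∈ bU e) :
    ∃ x ∈ Q e, pre x σ.length = σ := by
  let K : ℕ → Set (ℕ → Bool) := fun m => {x | pre x (σ.length + m) ∈ {ρ | ρ ∈ bU e ∧ σ <+: ρ}}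
  have hK : ∀ m, IsClosed (K m) := fun m => isClosed_pre _ _
  have hne : ∀ m, (K m).Nonempty := by
    intro m
    obtain ⟨τ, hτ, hτ'⟩ := h m
    rw [mem_allS] at hτ
    refine ⟨ext (σ ++ τ), ?_⟩
    have : pre (ext (σ ++ τ)) (σ.length + m) = σ ++ τ := by
      rw [← hτ, ← List.length_append, pre_ext_self]
    show pre (ext (σ ++ τ)) (σ.length + m) ∈ {ρ | ρ ∈ bU e ∧ σ <+: ρ}
    rw [this]
    exact ⟨hτ', List.prefix_append _ _⟩
  have hmono : ∀ m, K (m + 1) ⊆ K m := by
    intro m x hx
    have hx' : pre x (σ.length + (m + 1)) ∈ bU e ∧ σ <+: pre x (σ.length + (m + 1)) := hx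
    have h1 : pre x (σ.length + m) <+: pre x (σ.length + (m + 1)) := by
      rw [← take_pre x (show σ.length + m ≤ σ.length + (m + 1) by omega)]
      exact List.take_prefix _ _
    refine ⟨bU_of_prefix' h1 hx'.1, ?_⟩
    exact List.prefix_of_prefix_length_le hx'.2 h1 (by rw [length_pre]; omega)
  obtain ⟨x, hx⟩ := IsCompact.nonempty_iInter_of_sequence_nonempty_isCompact_isClosed K hmono hne
    (hK 0).isCompact hK
  rw [Set.mem_iInter] at hx
  refine ⟨x, mem_Q.2 fun m => ?_, ?_⟩
  · have h1 : pre x m <+: pre x (σ.length + m) := by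
      rw [← take_pre x (show m ≤ σ.length + m by omega)]
      exact List.take_prefix _ _
    exact bU_of_prefix' h1 (hx m).1
  · have h2 : σ <+: pre x (σ.length + 0) := (hx 0).2
    rw [add_zero] at h2
    exact (h2.eq_of_length (by rw [length_pre])).symm

/-- the certificate for more than `n` elements -/
def Cert (z n : ℕ) (L : List (List Bool)) : Prop :=
  L.length = n + 1 ∧ (∀ i < L.length, ∀ j < i, L.getD i [] ≠ L.getD j []) ∧
    ∀ σ ∈ L, σ.length = (L.getD 0 []).length ∧ σ ∉ bU z.unpair.1

theorem lt_card_iff {z n : ℕ} : (n : Cardinal) < #(df z) ↔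
    ∃ L, Cert z n L ∧ ∀ m, ∀ σ ∈ L, ∃ τ ∈ allS m, σ ++ τ ∈ bU z.unpair.2 := by
  constructor
  · intro h
    have h1 : ((n + 1 : ℕ) : Cardinal) ≤ #(df z) := by
      push_cast
      rw [← Cardinal.succ_natCast]
      exact Order.succ_le_of_lt h
    have h2 : #(ULift.{0} (Fin (n + 1))) ≤ #(df z) := by simpa using h1
    obtain ⟨f⟩ := Cardinal.le_def _ _ |>.1 h2
    let x : Fin (n + 1) → (ℕ → Bool) := fun i => (f ⟨i⟩).1
    have hx : Function.Injective x := by
      intro i j hij
      have := f.injective (Subtype.ext hij)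
      exact congrArg ULift.down this
    have hxd : ∀ i, x i ∈ df z := fun i => (f ⟨i⟩).2
    have h3 : ∀ i, ∃ N, pre (x i) N ∉ bU z.unpair.1 := by
      intro i
      have := (hxd i).2
      rw [mem_Q] at this
      push Not at this
      exact this
    choose N1 hN1 using h3
    have h4 : ∀ i j, ∃ N, i ≠ j → pre (x i) N ≠ pre (x j) N := by
      intro i j
      by_cases hij : i = j
      · exact ⟨0, fun h => absurd hij h⟩
      · have : x i ≠ x j := fun h => hij (hx h)
        obtain ⟨k, hk⟩ := Function.ne_iff.1 this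
        refine ⟨k + 1, fun _ h => hk ?_⟩
        exact pre_eq_iff.1 h k (by omega)
    choose N2 hN2 using h4
    let N : ℕ := (Finset.univ.sup N1) + (Finset.univ.sup fun i => Finset.univ.sup (N2 i))
    have hNN1 : ∀ i, N1 i ≤ N := fun i =>
      (Finset.le_sup (f := N1) (Finset.mem_univ i)).trans (Nat.le_add_right _ _)
    have hNN2 : ∀ i j, N2 i j ≤ N := fun i j =>
      ((Finset.le_sup (f := N2 i) (Finset.mem_univ j)).trans
        (Finset.le_sup (f := fun i => Finset.univ.sup (N2 i)) (Finset.mem_univ i))).trans
        (Nat.le_add_left _ _)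
    refine ⟨List.ofFn fun i => pre (x i) N, ⟨by simp, ?_, ?_⟩, ?_⟩
    · intro i hi j hj hij
      rw [List.length_ofFn] at hi
      rw [List.getD_eq_getElem _ _ (by simpa using hi),
        List.getD_eq_getElem _ _ (by simp; omega)] at hij
      simp only [List.getElem_ofFn] at hij
      have hne : (⟨i, hi⟩ : Fin (n + 1)) ≠ ⟨j, by omega⟩ := by
        intro h; simp at h; omega
      apply hN2 _ _ hne
      rw [← take_pre _ (hNN2 _ _), ← take_pre _ (hNN2 _ _), hij]
    · intro σ hσ
      obtain ⟨i, rfl⟩ := List.mem_ofFn.1 hσ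
      refine ⟨?_, fun hcon => hN1 i ?_⟩
      · rw [List.getD_eq_getElem _ _ (by simp)]
        simp [length_pre]
      · refine bU_of_prefix' ?_ hcon
        rw [← take_pre _ (hNN1 i)]
        exact List.take_prefix _ _
    · intro m σ hσ
      obtain ⟨i, rfl⟩ := List.mem_ofFn.1 hσ
      refine ⟨(pre (x i) (N + m)).drop N, ?_, ?_⟩
      · rw [mem_allS, List.length_drop, length_pre]; omega
      · have : pre (x i) N ++ (pre (x i) (N + m)).drop N = pre (x i) (N + m) := by
          rw [← take_pre (x i) (show N ≤ N + m by omega), List.take_append_drop]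
        rw [this]
        exact mem_Q.1 (hxd i).1 _
  · rintro ⟨L, ⟨hlen, hdist, hL⟩, hext⟩
    have h1 : ∀ i : Fin (n + 1), ∃ x ∈ df z, pre x (L.getD 0 []).length = L.getD i [] := by
      intro i
      have hi : (i : ℕ) < L.length := by rw [hlen]; exact i.2
      have hmem : L.getD i [] ∈ L := by
        rw [List.getD_eq_getElem _ _ hi]; exact List.getElem_mem _
      obtain ⟨x, hx, hx'⟩ := exists_path fun m => hext m _ hmem
      obtain ⟨h2, h3⟩ := hL _ hmem
      refine ⟨x, ⟨hx, fun hcon => h3 ?_⟩, by rw [← h2]; exact hx'⟩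
      rw [← hx']
      exact mem_Q.1 hcon _
    choose x hx hx' using h1
    have hinj : Function.Injective fun i => (⟨x i, hx i⟩ : df z) := by
      intro i j hij
      have hij' : x i = x j := congrArg Subtype.val hij
      by_contra hne
      have h2 : L.getD i [] = L.getD j [] := by rw [← hx' i, ← hx' j, hij']
      rcases lt_or_gt_of_ne (fun h => hne (Fin.ext h) : (i : ℕ) ≠ j) with h | h
      · exact hdist j (by rw [hlen]; exact j.2) i h h2.symm
      · exact hdist i (by rw [hlen]; exact i.2) j h h2
    have h3 := Cardinal.mk_le_of_injective hinj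
    rw [Cardinal.mk_fin] at h3
    exact lt_of_lt_of_le (by exact_mod_cast Nat.lt_succ_self n) h3

theorem Cert_cp : ComputablePred fun p : (ℕ × ℕ) × List (List Bool) => Cert p.1.1 p.1.2 p.2 := by
  have hlen : Computable fun p : (ℕ × ℕ) × List (List Bool) => p.2.length :=
    Computable.list_length.comp Computable.snd
  have hg : Computable₂ fun (L : List (List Bool)) n => L.getD n [] :=
    (Primrec.list_getD []).to_comp
  have a1 := cp_eq hlen (Computable.succ.comp (Computable.snd.comp Computable.fst))
  have b1 : Computable fun q : (((ℕ × ℕ) × List (List Bool)) × ℕ) × ℕ => q.1.1.2.getD q.1.2 [] :=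
    hg.comp (Computable.snd.comp (Computable.fst.comp Computable.fst))
      (Computable.snd.comp Computable.fst)
  have b2 : Computable fun q : (((ℕ × ℕ) × List (List Bool)) × ℕ) × ℕ => q.1.1.2.getD q.2 [] :=
    hg.comp (Computable.snd.comp (Computable.fst.comp Computable.fst)) Computable.snd
  have b3 := cp_not (cp_eq b1 b2)
  have b4 : Computable fun q : ((ℕ × ℕ) × List (List Bool)) × ℕ => q.2 := Computable.snd
  have b5 := cp_forall_lt b3 b4
  have b6 := cp_forall_lt b5 hlen
  have c1 : Computable fun q : ((ℕ × ℕ) × List (List Bool)) × List Bool => q.2.length :=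
    Computable.list_length.comp Computable.snd
  have c2 : Computable fun q : ((ℕ × ℕ) × List (List Bool)) × List Bool =>
      (q.1.2.getD 0 []).length :=
    Computable.list_length.comp (hg.comp (Computable.snd.comp Computable.fst) (Computable.const 0))
  have c3 : Computable fun q : ((ℕ × ℕ) × List (List Bool)) × List Bool =>
      (q.1.1.1.unpair.1, q.2) :=
    (Computable.fst.comp (Computable.unpair.comp (Computable.fst.comp
      (Computable.fst.comp Computable.fst)))).pair Computable.snd
  have c4 := cp_comp bU_cp c3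
  have c5 := cp_and (cp_eq c1 c2) (cp_not c4)
  have c6 : Computable fun q : (ℕ × ℕ) × List (List Bool) => q.2 := Computable.snd
  have c7 := cp_forall_mem c5 c6
  have c8 := cp_and a1 (cp_and b6 c7)
  exact c8

/-- `σ` has an extension by `m` bits in the tree `U b` -/
def Ext (p : ℕ × List Bool × ℕ) : Prop := ∃ τ ∈ allS p.2.2, p.2.1 ++ τ ∈ bU p.1

theorem Ext_cp : ComputablePred Ext := by
  have e0 : Computable fun t : (ℕ × List Bool × ℕ) × List Bool => (t.1.1, t.1.2.1 ++ t.2) :=
    (Computable.fst.comp Computable.fst).pair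
      (Computable.list_append.comp (Computable.fst.comp (Computable.snd.comp Computable.fst))
        Computable.snd)
  have e1 : ComputablePred fun t : (ℕ × List Bool × ℕ) × List Bool => t.1.2.1 ++ t.2 ∈ bU t.1.1 :=
    cp_comp bU_cp e0
  have e2 : Computable fun t : ℕ × List Bool × ℕ => allS t.2.2 :=
    allS_primrec.to_comp.comp (Computable.snd.comp Computable.snd)
  exact cp_exists_mem e1 e2

/-- every string of the list has an extension by `m` bits in the tree `U b` -/
def Exts (p : ℕ × List (List Bool) × ℕ) : Prop := ∀ σ ∈ p.2.1, Ext (p.1, σ, p.2.2)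

theorem Exts_cp : ComputablePred Exts := by
  have e0 : Computable fun t : (ℕ × List (List Bool) × ℕ) × List Bool => (t.1.1, t.2, t.1.2.2) :=
    (Computable.fst.comp Computable.fst).pair
      (Computable.snd.pair (Computable.snd.comp (Computable.snd.comp Computable.fst)))
  have e1 : ComputablePred fun t : (ℕ × List (List Bool) × ℕ) × List Bool =>
      Ext (t.1.1, t.2, t.1.2.2) := cp_comp Ext_cp e0
  have e2 : Computable fun t : ℕ × List (List Bool) × ℕ => t.2.1 :=
    Computable.fst.comp Computable.snd
  exact cp_forall_mem e1 e2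

/-- having more than `n` elements is `Σ⁰₂`, uniformly in `n` -/
theorem sigma2_card : SigmaN 2 {p : ℕ | (p.unpair.2 : Cardinal) < #(df p.unpair.1)} := by
  let q : ℕ × List (List Bool) → Prop := fun p => ∃ m, ¬ Exts (p.1.unpair.1.unpair.2, p.2, m)
  let r : ℕ × List (List Bool) → Prop := fun p => Cert p.1.unpair.1 p.1.unpair.2 p.2
  have hr : REPred r := by
    have e : Computable fun p : ℕ × List (List Bool) => (p.1.unpair, p.2) :=
      (Computable.unpair.comp Computable.fst).pair Computable.snd
    exact re_cp (cp_comp Cert_cp e)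
  have hq : REPred q := by
    have e0 : Computable fun t : (ℕ × List (List Bool)) × ℕ =>
        (t.1.1.unpair.1.unpair.2, t.1.2, t.2) := by
      have e1 : Computable fun n : ℕ => n.unpair.1.unpair.2 :=
        Computable.snd.comp (Computable.unpair.comp (Computable.fst.comp Computable.unpair))
      exact (e1.comp (Computable.fst.comp Computable.fst)).pair
        ((Computable.snd.comp Computable.fst).pair Computable.snd)
    exact re_exists (re_cp (cp_not (cp_comp Exts_cp e0)))
  have h2 : ∀ x, x ∈ {p : ℕ | (p.unpair.2 : Cardinal) < #(df p.unpair.1)} ↔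
      ∃ c, r (x, c) ∧ ¬ q (x, c) := by
    intro p
    rw [Set.mem_ofPred_eq, lt_card_iff]
    simp only [q, r, not_exists, not_not]
    exact Iff.rfl
  exact sigma2_of (γ := List (List Bool)) (r := r) (q := q) hr hq h2

end Pool.Agent.DPC
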